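import Pool.Graph.R_seed8.Helper112.LS

/-!
# Ramanujan sums and the balanced functions (helper14)
-/

set_option autoImplicit false

namespace Pool.Agent.H14.SK

open Finset
open Pool.Agent.Helper112 (ee ls_ee_zero ls_ee_add ls_ee_int)

lemma ee_mul_nat (x : ℝ) (n : ℕ) : ee (n * x) = ee x ^ n := by
  unfold ee
  rw [← Complex.exp_nat_mul]
  congr 1
  push_cast
  ring

lemma norm_ee (x : ℝ) : ‖ee x‖ = 1 := by
  unfold ee
  have : (2 * (Real.pi : ℂ) * (x : ℂ) * Complex.I) = ((2 * Real.pi * x : ℝ) : ℂ) * Complex.I := by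
    push_cast
    ring
  rw [this, Complex.norm_exp_ofReal_mul_I]

lemma ee_eq_one_iff (x : ℝ) : ee x = 1 ↔ ∃ n : ℤ, x = n := by
  unfold ee
  rw [Complex.exp_eq_one_iff]
  constructor
  · rintro ⟨n, hn⟩
    refine ⟨n, ?_⟩
    have hpi : (2 * (Real.pi : ℂ) * Complex.I) ≠ 0 := Complex.two_pi_I_ne_zero
    have h2 : ((x : ℂ) - n) * (2 * (Real.pi : ℂ) * Complex.I) = 0 := by
      linear_combination hn
    have h3 := (mul_eq_zero.1 h2).resolve_right hpi
    have h4 : (x : ℂ) = ((n : ℝ) : ℂ) := by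
      rw [sub_eq_zero.1 h3]
      push_cast
      rfl
    exact_mod_cast h4
  · rintro ⟨n, hn⟩
    refine ⟨n, ?_⟩
    rw [hn]
    push_cast
    ring

/-- orthogonality -/
lemma sum_ee (f : ℕ) (hf : 0 < f) (m : ℤ) :
    ∑ b ∈ range f, ee ((m : ℝ) * b / f) = if (f : ℤ) ∣ m then (f : ℂ) else 0 := by
  have hf0 : (f : ℝ) ≠ 0 := by exact_mod_cast hf.ne'
  have h1 : ∀ b : ℕ, ee ((m : ℝ) * b / f) = ee ((m : ℝ) / f) ^ b := by
    intro b
    rw [← ee_mul_nat]
    congr 1
    ring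
  rw [sum_congr rfl fun b _ => h1 b]
  split_ifs with h
  · obtain ⟨k, hk⟩ := h
    have h2 : ee ((m : ℝ) / f) = 1 := by
      rw [ee_eq_one_iff]
      refine ⟨k, ?_⟩
      rw [hk]
      push_cast
      field_simp
    rw [h2]
    simp
  · have h2 : ee ((m : ℝ) / f) ≠ 1 := by
      intro h3
      obtain ⟨k, hk⟩ := (ee_eq_one_iff _).1 h3
      apply h
      refine ⟨k, ?_⟩
      rw [div_eq_iff hf0] at hk
      have : (m : ℝ) = ((f * k : ℤ) : ℝ) := by
        rw [hk]
        push_cast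
        ring
      exact_mod_cast this
    rw [geom_sum_eq h2, ← ee_mul_nat]
    have h3 : ee ((f : ℝ) * ((m : ℝ) / f)) = 1 := by
      rw [ee_eq_one_iff]
      exact ⟨m, by field_simp⟩
    rw [h3, sub_self, zero_div]

/-- the product of the primes of `q` -/
def Pr (q : Finset ℕ) : ℕ := ∏ p ∈ q, p

lemma Pr_pos {q : Finset ℕ} (hq : ∀ p ∈ q, p.Prime) : 0 < Pr q := prod_pos fun p hp => (hq p hp).pos

lemma Pr_union {s t : Finset ℕ} (h : Disjoint s t) : Pr (s ∪ t) = Pr s * Pr t := prod_union h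

lemma prime_dvd_Pr {q : Finset ℕ} (hq : ∀ p ∈ q, p.Prime) {p : ℕ} (hp : p.Prime) : p ∣ Pr q ↔ p ∈ q := by
  constructor
  · intro h
    obtain ⟨r, hr, h2⟩ := (Prime.dvd_finsetProd_iff hp.prime _).1 h
    rw [(Nat.prime_dvd_prime_iff_eq hp (hq r hr)).1 h2]
    exact hr
  · intro h
    exact dvd_prod_of_mem _ h

lemma Pr_dvd {q : Finset ℕ} (hq : ∀ p ∈ q, p.Prime) (m : ℤ) :
    ((Pr q : ℕ) : ℤ) ∣ m ↔ ∀ p ∈ q, (p : ℤ) ∣ m := by
  rw [Int.natCast_dvd]
  simp only [Int.natCast_dvd]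
  constructor
  · intro h p hp
    exact (dvd_prod_of_mem (fun p => p) hp).trans h
  · intro h
    exact Finset.prod_primes_dvd _ (fun p hp => (hq p hp).prime) h

lemma sum_multiples (k f : ℕ) (hk : 0 < k) (g : ℕ → ℂ) :
    ∑ b ∈ (range (k * f)).filter (fun b => k ∣ b), g b = ∑ b ∈ range f, g (k * b) := by
  have h : (range (k * f)).filter (fun b => k ∣ b) = (range f).image (fun b => k * b) := by
    ext b
    rw [mem_filter, mem_range, mem_image]
    constructor
    · rintro ⟨h1, c, rfl⟩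
      exact ⟨c, mem_range.2 (Nat.lt_of_mul_lt_mul_left h1), rfl⟩
    · rintro ⟨c, hc, rfl⟩
      rw [mem_range] at hc
      exact ⟨Nat.mul_lt_mul_of_pos_left hc hk, dvd_mul_right _ _⟩
  rw [h, sum_image]
  intro a _ b _ hab
  exact Nat.eq_of_mul_eq_mul_left hk hab

/-- the Ramanujan sum -/
noncomputable def ram (q : Finset ℕ) (m : ℤ) : ℂ :=
  ∑ b ∈ (range (Pr q)).filter (fun b => b.Coprime (Pr q)), ee ((m : ℝ) * b / (Pr q : ℕ))

lemma ram_eq {q : Finset ℕ} (hq : ∀ p ∈ q, p.Prime) (m : ℤ) :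
    ram q m = ∏ p ∈ q, ((if (p : ℤ) ∣ m then (p : ℂ) else 0) - 1) := by
  classical
  have hcop : ∀ b : ℕ, (if b.Coprime (Pr q) then (1 : ℂ) else 0) =
      ∑ s ∈ q.powerset, (-1) ^ s.card * (if Pr s ∣ b then 1 else 0) := by
    intro b
    have e1 : ∀ s ∈ q.powerset, ((-1 : ℂ)) ^ s.card * (if Pr s ∣ b then 1 else 0) =
        (∏ p ∈ s, (-(if p ∣ b then (1 : ℂ) else 0))) * ∏ p ∈ q \ s, (1 : ℂ) := by
      intro s hs
      rw [mem_powerset] at hs
      rw [prod_const_one, mul_one]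
      have e2 : (fun p : ℕ => -(if p ∣ b then (1 : ℂ) else 0)) =
          fun p => (-1) * (if p ∣ b then (1 : ℂ) else 0) := by
        funext p
        ring
      rw [e2, prod_mul_distrib, prod_const]
      congr 1
      have h3 : Pr s ∣ b ↔ ∀ p ∈ s, p ∣ b := by
        constructor
        · intro h p hp
          exact (dvd_prod_of_mem (fun p => p) hp).trans h
        · intro h
          exact Finset.prod_primes_dvd _ (fun p hp => (hq p (hs hp)).prime) h
      by_cases h : ∀ p ∈ s, p ∣ b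
      · rw [if_pos (h3.2 h), prod_congr rfl fun p hp => if_pos (h p hp), prod_const_one]
      · rw [if_neg fun hh => h (h3.1 hh)]
        push Not at h
        obtain ⟨p, hp, hpb⟩ := h
        exact (prod_eq_zero hp (if_neg hpb)).symm
    rw [sum_congr rfl e1, ← Finset.prod_add]
    by_cases h : b.Coprime (Pr q)
    · rw [if_pos h]
      symm
      apply prod_eq_one
      intro p hp
      have : ¬ p ∣ b := by
        intro hpb
        have h1 : p ∣ Nat.gcd b (Pr q) := Nat.dvd_gcd hpb (dvd_prod_of_mem (fun p => p) hp)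
        rw [h] at h1
        exact (hq p hp).one_lt.ne' (Nat.dvd_one.1 h1)
      rw [if_neg this]
      ring
    · rw [if_neg h]
      obtain ⟨p, hp, h1⟩ := Nat.exists_prime_and_dvd (fun hh => h hh : Nat.gcd b (Pr q) ≠ 1)
      have h2 : p ∈ q := (prime_dvd_Pr hq hp).1 (h1.trans (Nat.gcd_dvd_right _ _))
      symm
      apply prod_eq_zero h2
      rw [if_pos (h1.trans (Nat.gcd_dvd_left _ _))]
      ring
  unfold ram
  rw [sum_filter]
  have h1 : ∀ b ∈ range (Pr q), (if b.Coprime (Pr q) then ee ((m : ℝ) * b / (Pr q : ℕ)) else 0) =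
      ∑ s ∈ q.powerset, (-1) ^ s.card *
        (if Pr s ∣ b then ee ((m : ℝ) * b / (Pr q : ℕ)) else 0) := by
    intro b _
    have e : (if b.Coprime (Pr q) then ee ((m : ℝ) * b / (Pr q : ℕ)) else 0) =
        (if b.Coprime (Pr q) then (1 : ℂ) else 0) * ee ((m : ℝ) * b / (Pr q : ℕ)) := by
      split_ifs <;> ring
    rw [e, hcop b, sum_mul]
    apply sum_congr rfl
    intro s _
    split_ifs <;> ring
  rw [sum_congr rfl h1, sum_comm]
  have h2 : ∀ s ∈ q.powerset, ∑ b ∈ range (Pr q), (-1 : ℂ) ^ s.card *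
      (if Pr s ∣ b then ee ((m : ℝ) * b / (Pr q : ℕ)) else 0) =
      (∏ p ∈ s, (-1 : ℂ)) * ∏ p ∈ q \ s, (if (p : ℤ) ∣ m then (p : ℂ) else 0) := by
    intro s hs
    rw [mem_powerset] at hs
    have hsP : ∀ p ∈ s, p.Prime := fun p hp => hq p (hs hp)
    have hsP' : ∀ p ∈ q \ s, p.Prime := fun p hp => hq p (mem_sdiff.1 hp).1
    have hPq : Pr q = Pr s * Pr (q \ s) := by
      rw [← Pr_union disjoint_sdiff, union_sdiff_of_subset hs]
    rw [← mul_sum, ← sum_filter, prod_const]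
    congr 1
    rw [hPq, sum_multiples _ _ (Pr_pos hsP)]
    have e3 : ∀ b : ℕ, ee ((m : ℝ) * ((Pr s * b : ℕ) : ℝ) / ((Pr s * Pr (q \ s) : ℕ) : ℝ)) =
        ee ((m : ℝ) * b / (Pr (q \ s) : ℕ)) := by
      intro b
      congr 1
      have : ((Pr s : ℕ) : ℝ) ≠ 0 := by exact_mod_cast (Pr_pos hsP).ne'
      push_cast
      field_simp
    rw [sum_congr rfl fun b _ => e3 b, sum_ee _ (Pr_pos hsP')]
    by_cases h : ∀ p ∈ q \ s, (p : ℤ) ∣ m
    · rw [if_pos ((Pr_dvd hsP' m).2 h), prod_congr rfl fun p hp => if_pos (h p hp)]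
      unfold Pr
      push_cast
      rfl
    · rw [if_neg fun hh => h ((Pr_dvd hsP' m).1 hh)]
      push Not at h
      obtain ⟨p, hp, hpb⟩ := h
      exact (prod_eq_zero hp (if_neg hpb)).symm
  rw [sum_congr rfl h2, ← Finset.prod_add]
  apply prod_congr rfl
  intro p _
  ring

/-- the mean square of the exponential sum of `A` at the fractions with denominator `Pr q` -/
noncomputable def EE (A : Finset ℕ) (q : Finset ℕ) : ℝ :=
  ∑ b ∈ (range (Pr q)).filter (fun b => b.Coprime (Pr q)), ‖∑ x ∈ A, ee ((x : ℝ) * b / (Pr q : ℕ))‖ ^ 2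

lemma EE_nonneg (A q : Finset ℕ) : 0 ≤ EE A q := sum_nonneg fun _ _ => by positivity

lemma pair_ee (A : Finset ℕ) (θ : ℝ) (m : ℤ) :
    ∑ x ∈ A, ∑ y ∈ A, ee (((y : ℤ) - x - m : ℤ) * θ) =
      ee (-(m * θ)) * ((‖∑ x ∈ A, ee (x * θ)‖ ^ 2 : ℝ) : ℂ) := by
  have h1 : ((‖∑ x ∈ A, ee (x * θ)‖ ^ 2 : ℝ) : ℂ) =
      (∑ x ∈ A, ee (x * θ)) * (starRingEnd ℂ) (∑ x ∈ A, ee (x * θ)) := by
    rw [Complex.mul_conj, Complex.normSq_eq_norm_sq]
  rw [h1, map_sum, sum_mul_sum, mul_sum, sum_comm]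
  apply sum_congr rfl
  intro y _
  rw [mul_sum]
  apply sum_congr rfl
  intro x _
  rw [Pool.Agent.Helper112.ls_conj_ee, ← ls_ee_add, ← ls_ee_add]
  congr 1
  push_cast
  ring

lemma ram_pairs (A : Finset ℕ) (q : Finset ℕ) (m : ℤ) :
    ‖∑ x ∈ A, ∑ y ∈ A, ram q ((y : ℤ) - x - m)‖ ≤ EE A q := by
  have h1 : ∑ x ∈ A, ∑ y ∈ A, ram q ((y : ℤ) - x - m) =
      ∑ b ∈ (range (Pr q)).filter (fun b => b.Coprime (Pr q)),
        ∑ x ∈ A, ∑ y ∈ A, ee ((((y : ℤ) - x - m : ℤ) : ℝ) * (b / (Pr q : ℕ))) := by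
    unfold ram
    rw [sum_congr rfl fun x _ => sum_comm, sum_comm]
    apply sum_congr rfl
    intro b _
    apply sum_congr rfl
    intro x _
    apply sum_congr rfl
    intro y _
    congr 1
    ring
  rw [h1]
  unfold EE
  refine (norm_sum_le _ _).trans ?_
  apply sum_le_sum
  intro b _
  rw [pair_ee, norm_mul, norm_ee, one_mul, Complex.norm_real, Real.norm_of_nonneg (by positivity)]
  apply le_of_eq
  congr 3
  funext x
  congr 1
  ring

/-- the number of roots in `range p` -/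
def rho (T : ℕ → ℤ → Prop) [∀ p n, Decidable (T p n)] (p : ℕ) : ℕ :=
  ((range p).filter (fun r : ℕ => T p r)).card

/-- the balanced functions are controlled by the exponential sums -/
lemma balanced (T : ℕ → ℤ → Prop) [∀ p n, Decidable (T p n)]
    (hT : ∀ p : ℕ, ∀ n m : ℤ, (p : ℤ) ∣ n - m → (T p n ↔ T p m)) (A : Finset ℕ) {q : Finset ℕ}
    (hq : ∀ p ∈ q, p.Prime) :
    |∑ x ∈ A, ∑ y ∈ A, ∏ p ∈ q, ((if T p ((y : ℤ) - x) then (1 : ℝ) else 0) - (rho T p : ℝ) / p)| ≤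
      (∏ p ∈ q, (rho T p : ℝ) / p) * EE A q := by
  classical
  -- the pointwise formula
  have key : ∀ n : ℤ, ∏ p ∈ q, ((if T p n then (1 : ℂ) else 0) - (rho T p : ℂ) / p) =
      (1 / (Pr q : ℂ)) * ∑ ν ∈ q.pi (fun p => (range p).filter (fun r : ℕ => T p r)),
        ∏ p ∈ q.attach, ((if ((p : ℕ) : ℤ) ∣ n - (ν p.1 p.2 : ℤ) then ((p : ℕ) : ℂ) else 0) - 1) := by
    intro n
    have h1 : ∀ p ∈ q, ((if T p n then (1 : ℂ) else 0) - (rho T p : ℂ) / p) =
        (1 / (p : ℂ)) * ∑ r ∈ (range p).filter (fun r : ℕ => T p r),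
          ((if (p : ℤ) ∣ n - (r : ℤ) then (p : ℂ) else 0) - 1) := by
      intro p hp
      have hp0 : (p : ℂ) ≠ 0 := by exact_mod_cast (hq p hp).pos.ne'
      have hpp : 0 < p := (hq p hp).pos
      rw [sum_sub_distrib, sum_const, nsmul_eq_mul, mul_one]
      have h2 : ∑ r ∈ (range p).filter (fun r : ℕ => T p r), (if (p : ℤ) ∣ n - (r : ℤ) then (p : ℂ) else 0)
          = if T p n then (p : ℂ) else 0 := by
        obtain ⟨r0, hr0⟩ : ∃ r0 : ℕ, (r0 : ℤ) = n % p := by
          refine ⟨(n % p).toNat, ?_⟩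
          rw [Int.toNat_of_nonneg (Int.emod_nonneg _ (by exact_mod_cast hpp.ne'))]
        have hr1 : r0 < p := by
          have : (r0 : ℤ) < p := by
            rw [hr0]
            exact Int.emod_lt_of_pos _ (by exact_mod_cast hpp)
          exact_mod_cast this
        have hr2 : (p : ℤ) ∣ n - r0 := by
          rw [hr0]
          exact Int.dvd_self_sub_emod
        have hr3 : ∀ r : ℕ, r < p → (p : ℤ) ∣ n - (r : ℤ) → r = r0 := by
          intro r hr h
          have h3 : (p : ℤ) ∣ (r : ℤ) - r0 := by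
            have := dvd_sub hr2 h
            have e : n - (r0 : ℤ) - (n - r) = (r : ℤ) - r0 := by ring
            rwa [e] at this
          have h4 := Int.eq_zero_of_abs_lt_dvd h3 (by
            rw [abs_lt]
            constructor <;> omega)
          omega
        by_cases hTn : T p n
        · rw [if_pos hTn, sum_eq_single r0]
          · rw [if_pos hr2]
          · intro r hr hne
            rw [mem_filter, mem_range] at hr
            rw [if_neg]
            intro h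
            exact hne (hr3 r hr.1 h)
          · intro h
            exfalso
            apply h
            rw [mem_filter, mem_range]
            exact ⟨hr1, (hT p n r0 hr2).1 hTn⟩
        · rw [if_neg hTn]
          apply sum_eq_zero
          intro r hr
          rw [mem_filter, mem_range] at hr
          rw [if_neg]
          intro h
          exact hTn ((hT p n r h).2 hr.2)
      rw [h2]
      unfold rho
      split_ifs
      · field_simp
      · field_simp
        ring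
    rw [prod_congr rfl h1, prod_mul_distrib, Finset.prod_sum]
    congr 1
    unfold Pr
    rw [prod_div_distrib, prod_const_one]
    push_cast
    rfl
  -- the bound for one system of residues
  have hone : ∀ ν ∈ q.pi (fun p => (range p).filter (fun r : ℕ => T p r)),
      ‖∑ x ∈ A, ∑ y ∈ A, ∏ p ∈ q.attach,
        ((if ((p : ℕ) : ℤ) ∣ ((y : ℤ) - x) - (ν p.1 p.2 : ℤ) then ((p : ℕ) : ℂ) else 0) - 1)‖ ≤ EE A q := by
    intro ν _
    -- a common integer
    obtain ⟨m, hm⟩ : ∃ m : ℤ, ∀ p : ℕ, ∀ hp : p ∈ q, (p : ℤ) ∣ m - (ν p hp : ℤ) := by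
      have hco : (q : Set ℕ).Pairwise (Function.onFun Nat.Coprime (fun p => p)) := by
        intro a ha b hb hab
        exact (Nat.coprime_primes (hq a ha) (hq b hb)).2 hab
      obtain ⟨k, hk⟩ := Nat.chineseRemainderOfFinset (fun p => if h : p ∈ q then ν p h else 0)
        (fun p => p) q (fun p hp => (hq p hp).pos.ne') hco
      refine ⟨k, fun p hp => ?_⟩
      have h5 := hk p hp
      rw [dif_pos hp] at h5
      have := (Nat.modEq_iff_dvd.1 h5)
      have e : (k : ℤ) - (ν p hp : ℤ) = -((ν p hp : ℤ) - k) := by ring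
      rw [e]
      exact (dvd_neg.2 this)
    have h6 : ∀ x ∈ A, ∀ y ∈ A, ∏ p ∈ q.attach,
        ((if ((p : ℕ) : ℤ) ∣ ((y : ℤ) - x) - (ν p.1 p.2 : ℤ) then ((p : ℕ) : ℂ) else 0) - 1) =
        ram q ((y : ℤ) - x - m) := by
      intro x _ y _
      rw [ram_eq hq, ← prod_attach q]
      apply prod_congr rfl
      intro p _
      have h7 : ((p : ℕ) : ℤ) ∣ ((y : ℤ) - x) - (ν p.1 p.2 : ℤ) ↔ ((p : ℕ) : ℤ) ∣ (y : ℤ) - x - m := by
        have h8 := hm p.1 p.2
        constructor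
        · intro h
          have := dvd_sub h h8
          have e : (y : ℤ) - x - (ν p.1 p.2 : ℤ) - (m - (ν p.1 p.2 : ℤ)) = (y : ℤ) - x - m := by ring
          rwa [e] at this
        · intro h
          have := dvd_add h h8
          have e : (y : ℤ) - x - m + (m - (ν p.1 p.2 : ℤ)) = (y : ℤ) - x - (ν p.1 p.2 : ℤ) := by ring
          rwa [e] at this
      simp only [h7]
    rw [sum_congr rfl fun x hx => sum_congr rfl fun y hy => h6 x hx y hy]
    exact ram_pairs A q m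
  -- the conclusion
  have hcast : ((∑ x ∈ A, ∑ y ∈ A, ∏ p ∈ q,
      ((if T p ((y : ℤ) - x) then (1 : ℝ) else 0) - (rho T p : ℝ) / p) : ℝ) : ℂ) =
      (1 / (Pr q : ℂ)) * ∑ ν ∈ q.pi (fun p => (range p).filter (fun r : ℕ => T p r)),
        ∑ x ∈ A, ∑ y ∈ A, ∏ p ∈ q.attach,
        ((if ((p : ℕ) : ℤ) ∣ ((y : ℤ) - x) - (ν p.1 p.2 : ℤ) then ((p : ℕ) : ℂ) else 0) - 1) := by
    have e1 : ((∑ x ∈ A, ∑ y ∈ A, ∏ p ∈ q,
        ((if T p ((y : ℤ) - x) then (1 : ℝ) else 0) - (rho T p : ℝ) / p) : ℝ) : ℂ) =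
        ∑ x ∈ A, ∑ y ∈ A, ∏ p ∈ q,
        ((if T p ((y : ℤ) - x) then (1 : ℂ) else 0) - (rho T p : ℂ) / p) := by
      rw [Complex.ofReal_sum]
      apply sum_congr rfl
      intro x _
      rw [Complex.ofReal_sum]
      apply sum_congr rfl
      intro y _
      rw [Complex.ofReal_prod]
      apply prod_congr rfl
      intro p _
      split_ifs <;> push_cast <;> rfl
    rw [e1, sum_congr rfl fun (x : ℕ) _ => sum_congr rfl fun (y : ℕ) _ => key ((y : ℤ) - x)]
    rw [sum_congr rfl fun x _ => (mul_sum _ _ _).symm, ← mul_sum]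
    congr 1
    rw [sum_congr rfl fun x _ => sum_comm, sum_comm]
  have hPq := Pr_pos hq
  rw [← Real.norm_eq_abs, ← Complex.norm_real, hcast, norm_mul]
  have h9 : ‖(1 / (Pr q : ℂ))‖ = 1 / (Pr q : ℝ) := by
    rw [norm_div, norm_one, Complex.norm_natCast]
  rw [h9]
  have h10 : (∏ p ∈ q, (rho T p : ℝ) / p) =
      1 / (Pr q : ℝ) * ((q.pi (fun p => (range p).filter (fun r : ℕ => T p r))).card : ℝ) := by
    rw [card_pi, prod_div_distrib]
    unfold Pr rho
    push_cast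
    ring
  rw [h10, mul_assoc]
  apply mul_le_mul_of_nonneg_left _ (by positivity)
  refine (norm_sum_le _ _).trans ?_
  rw [← nsmul_eq_mul]
  exact sum_le_card_nsmul _ _ _ hone

/-- the large sieve inequality -/
lemma sum_EE (A : Finset ℕ) (M Q : ℕ) (hA : A ⊆ Icc 1 M) (𝒬 : Finset (Finset ℕ))
    (hp : ∀ q ∈ 𝒬, ∀ p ∈ q, p.Prime) (hQ : ∀ q ∈ 𝒬, Pr q ≤ Q) :
    ∑ q ∈ 𝒬, EE A q ≤ 6 * ((M : ℝ) + (Q : ℝ) ^ 2) * A.card := by
  classical
  have h1 := Pool.Agent.Helper112.additive_large_sieve M Q (fun n => if n ∈ A then (1 : ℂ) else 0)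
  have h2 : ∑ n ∈ Icc 1 M, ‖(if n ∈ A then (1 : ℂ) else 0)‖ ^ 2 = A.card := by
    have : ∀ n ∈ Icc 1 M, ‖(if n ∈ A then (1 : ℂ) else 0)‖ ^ 2 = if n ∈ A then (1 : ℝ) else 0 := by
      intro n _
      split_ifs <;> simp
    rw [sum_congr rfl this, ← sum_filter, filter_mem_eq_inter, inter_eq_right.2 hA]
    simp
  rw [h2] at h1
  refine le_trans ?_ h1
  have h3 : ∀ (f a : ℕ), ∑ n ∈ Icc 1 M, (if n ∈ A then (1 : ℂ) else 0) * ee ((n : ℝ) * a / f) =
      ∑ x ∈ A, ee ((x : ℝ) * a / f) := by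
    intro f a
    have : ∀ n ∈ Icc 1 M, (if n ∈ A then (1 : ℂ) else 0) * ee ((n : ℝ) * a / f) =
        if n ∈ A then ee ((n : ℝ) * a / f) else 0 := by
      intro n _
      split_ifs <;> simp
    rw [sum_congr rfl this, ← sum_filter, filter_mem_eq_inter, inter_eq_right.2 hA]
  simp only [h3]
  have h4 : ∑ q ∈ 𝒬, EE A q = ∑ f ∈ 𝒬.image Pr,
      ∑ a ∈ (range f).filter (fun a => a.Coprime f), ‖∑ x ∈ A, ee ((x : ℝ) * a / f)‖ ^ 2 := by
    rw [sum_image]
    · rfl
    · intro q hq q' hq' h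
      ext p
      constructor
      · intro hpq
        have h5 := (prime_dvd_Pr (hp q hq) (hp q hq p hpq)).2 hpq
        rw [h] at h5
        exact (prime_dvd_Pr (hp q' hq') (hp q hq p hpq)).1 h5
      · intro hpq
        have h5 := (prime_dvd_Pr (hp q' hq') (hp q' hq' p hpq)).2 hpq
        rw [← h] at h5
        exact (prime_dvd_Pr (hp q hq) (hp q' hq' p hpq)).1 h5
  rw [h4]
  apply sum_le_sum_of_subset_of_nonneg
  · intro f hf
    obtain ⟨q, hq, rfl⟩ := mem_image.1 hf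
    exact mem_Icc.2 ⟨Pr_pos (hp q hq), hQ q hq⟩
  · intro f _ _
    exact sum_nonneg fun _ _ => by positivity

end Pool.Agent.H14.SK
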