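import Pool.Agent.H14.SK.Cls

/-!
# Differences with almost prime values (helper14)
-/

set_option autoImplicit false
set_option linter.unusedSectionVars false
set_option linter.deprecated false

namespace Pool.Agent.H14.SK

open Finset Polynomial Filter Topology
open Pool.Agent.H373R2.T7 Pool.Agent.W123.RP Pool.Agent.W123.RU.Poly

variable {ι : Type} [Fintype ι]

/-- all values of the system at `n` are different from `1`, `-1` and all their prime factors are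
larger than `y` -/
def Gd (f : ι → ℤ[X]) (y : ℝ) (n : ℤ) : Prop :=
  ∀ i, 1 < |(f i).eval n| ∧ ∀ p : ℕ, p.Prime → (p : ℤ) ∣ (f i).eval n → y < p

open Classical in
/-- the pairs with a difference at which some value is `1` or `-1` -/
lemma few_units (f : ι → ℤ[X]) (hf : Sys f) : ∃ G : ℕ, ∀ A : Finset ℕ,
    ((A ×ˢ A).filter (fun a => ∃ i, (f i).eval ((a.2 : ℤ) - a.1) = 1 ∨
      (f i).eval ((a.2 : ℤ) - a.1) = -1)).card ≤ G * A.card := by
  refine ⟨∑ i, ((f i - C 1).natDegree + (f i - C (-1)).natDegree), ?_⟩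
  intro A
  obtain ⟨Z, hZ⟩ : ∃ Z : Finset ℤ, Z = univ.biUnion (fun i => (f i - C 1).roots.toFinset ∪
    (f i - C (-1)).roots.toFinset) := ⟨_, rfl⟩
  have hZc : Z.card ≤ ∑ i, ((f i - C 1).natDegree + (f i - C (-1)).natDegree) := by
    rw [hZ]
    refine card_biUnion_le.trans (sum_le_sum fun i _ => ?_)
    refine (card_union_le _ _).trans (Nat.add_le_add ?_ ?_)
    · exact (Multiset.toFinset_card_le _).trans (card_roots' _)
    · exact (Multiset.toFinset_card_le _).trans (card_roots' _)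
  have hne : ∀ i (c : ℤ), f i - C c ≠ 0 := by
    intro i c h
    have h1 : f i = C c := sub_eq_zero.1 h
    have h2 := hf.deg i
    rw [h1, natDegree_C] at h2
    exact lt_irrefl 0 h2
  have hmem : ∀ i (n : ℤ), ((f i).eval n = 1 ∨ (f i).eval n = -1) → n ∈ Z := by
    intro i n h
    rw [hZ, mem_biUnion]
    refine ⟨i, mem_univ _, ?_⟩
    rw [mem_union, Multiset.mem_toFinset, Multiset.mem_toFinset, mem_roots (hne i 1),
      mem_roots (hne i (-1)), IsRoot.def, IsRoot.def, eval_sub, eval_sub, eval_C, eval_C]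
    rcases h with h | h
    · left; rw [h, sub_self]
    · right; rw [h, sub_self]
  calc ((A ×ˢ A).filter (fun a => ∃ i, (f i).eval ((a.2 : ℤ) - a.1) = 1 ∨
        (f i).eval ((a.2 : ℤ) - a.1) = -1)).card
      ≤ (Z ×ˢ A).card := by
        apply card_le_card_of_injOn (fun a => ((a.2 : ℤ) - a.1, a.1))
        · rintro ⟨x, y⟩ h
          simp only [coe_filter, Set.mem_setOf_eq, mem_product, coe_product, Set.mem_prod,
            mem_coe] at h ⊢
          obtain ⟨⟨h1, _⟩, i, h3⟩ := h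
          exact ⟨hmem i _ h3, h1⟩
        · rintro ⟨x, y⟩ _ ⟨x', y'⟩ _ h
          simp only [Prod.mk.injEq] at h ⊢
          omega
    _ = Z.card * A.card := card_product _ _
    _ ≤ _ := Nat.mul_le_mul_right _ hZc

lemma gd_of (f : ι → ℤ[X]) (z a b : ℕ) (hz : 2 ≤ z) (y : ℝ) (hy : y < z + 1) (h : Rg f z a b)
    (h1 : ¬ ∃ i, (f i).eval ((b : ℤ) - a) = 1 ∨ (f i).eval ((b : ℤ) - a) = -1) :
    Gd f y ((b : ℤ) - a) := by
  intro i
  push Not at h1
  have h2 := h1 i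
  have h3 : (f i).eval ((b : ℤ) - a) ≠ 0 := by
    intro h0
    apply h 2 Nat.prime_two hz i
    rw [h0]
    exact dvd_zero _
  refine ⟨?_, ?_⟩
  · by_contra hcon
    push Not at hcon
    rw [abs_le] at hcon
    omega
  · intro p hp hd
    by_contra hcon
    push Not at hcon
    have h4 : (p : ℝ) < z + 1 := lt_of_le_of_lt hcon hy
    have h5 : p < z + 1 := by exact_mod_cast h4
    exact h p hp (by omega) i hd

open Classical in
lemma sum_Ac (A : Finset ℕ) (W : ℕ) (hW : 0 < W) : ∑ r ∈ range W, (Ac A W r).card = A.card := by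
  unfold Ac
  symm
  apply card_eq_sum_card_fiberwise
  intro a _
  simp only [coe_range, Set.mem_Iio]
  exact Nat.mod_lt _ hW

/-- the sieving level `z = ⌊N ^ κ⌋` -/
lemma zfacts (f : ι → ℤ[X]) (v κ : ℝ) (E k : ℕ) (hv : 0 < v) (hE0 : (0 : ℝ) < E)
    (hκ : κ = 1 / (8 * E)) (_hκ0 : 0 < κ) (hκ1 : κ ≤ 1)
    (hV : ∀ y : ℕ, 3 ≤ y → v / Real.log y ^ k ≤ Vq (Q f) y) :
    ∀ N W : ℕ, 16 ≤ N → 0 < W → (W : ℝ) ≤ (N : ℝ) ^ (1 / 4 : ℝ) → 3 ≤ (N : ℝ) ^ κ →
      ∃ z : ℕ, 3 ≤ z ∧ (N : ℝ) ^ κ < z + 1 ∧ 4 * (z ^ E) ^ 2 ≤ N / W + 1 ∧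
        v / Real.log N ^ k ≤ Vq (Q f) z := by
  intro N W hN hW hWN hN3
  have hN0 : (0 : ℝ) < N := by exact_mod_cast (by omega : 0 < N)
  have hN1 : (1 : ℝ) < N := by exact_mod_cast (by omega : 1 < N)
  refine ⟨⌊(N : ℝ) ^ κ⌋₊, ?_, Nat.lt_floor_add_one _, ?_, ?_⟩
  · apply Nat.le_floor
    exact_mod_cast hN3
  · have h1 : ((⌊(N : ℝ) ^ κ⌋₊ : ℕ) : ℝ) ≤ (N : ℝ) ^ κ := Nat.floor_le (by positivity)
    have h2 : (((⌊(N : ℝ) ^ κ⌋₊ : ℕ) : ℝ) ^ E) ^ 2 ≤ (N : ℝ) ^ (1 / 4 : ℝ) := by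
      calc (((⌊(N : ℝ) ^ κ⌋₊ : ℕ) : ℝ) ^ E) ^ 2 ≤ (((N : ℝ) ^ κ) ^ E) ^ 2 := by gcongr
        _ = (N : ℝ) ^ (1 / 4 : ℝ) := by
            rw [← pow_mul, ← Real.rpow_natCast, ← Real.rpow_mul hN0.le]
            congr 1
            rw [hκ]
            push_cast
            field_simp
            norm_num
    have h3 : (4 : ℝ) ≤ (N : ℝ) ^ (1 / 2 : ℝ) := by
      calc (4 : ℝ) = (16 : ℝ) ^ (1 / 2 : ℝ) := by
            rw [show (16 : ℝ) = 4 ^ (2 : ℝ) by norm_num, ← Real.rpow_mul (by norm_num)]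
            norm_num
        _ ≤ (N : ℝ) ^ (1 / 2 : ℝ) := by
            apply Real.rpow_le_rpow (by norm_num) _ (by norm_num)
            exact_mod_cast hN
    have h4 : (N : ℝ) ^ (3 / 4 : ℝ) ≤ N / W := by
      rw [le_div_iff₀ (by exact_mod_cast hW)]
      calc (N : ℝ) ^ (3 / 4 : ℝ) * W ≤ (N : ℝ) ^ (3 / 4 : ℝ) * (N : ℝ) ^ (1 / 4 : ℝ) :=
            mul_le_mul_of_nonneg_left hWN (by positivity)
        _ = N := by
            rw [← Real.rpow_add hN0]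
            norm_num
    have h5 : (N : ℝ) / W < ((N / W + 1 : ℕ) : ℝ) := by
      rw [div_lt_iff₀ (by exact_mod_cast hW)]
      have h6 : N < (N / W + 1) * W := by
        have := Nat.div_add_mod N W
        have h7 := Nat.mod_lt N hW
        nlinarith
      exact_mod_cast h6
    have h8 : (4 : ℝ) * (((⌊(N : ℝ) ^ κ⌋₊ : ℕ) : ℝ) ^ E) ^ 2 ≤ ((N / W + 1 : ℕ) : ℝ) := by
      calc (4 : ℝ) * (((⌊(N : ℝ) ^ κ⌋₊ : ℕ) : ℝ) ^ E) ^ 2 ≤
            (N : ℝ) ^ (1 / 2 : ℝ) * (N : ℝ) ^ (1 / 4 : ℝ) :=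
            mul_le_mul h3 h2 (by positivity) (by positivity)
        _ = (N : ℝ) ^ (3 / 4 : ℝ) := by
            rw [← Real.rpow_add hN0]
            norm_num
        _ ≤ _ := h4.trans h5.le
    exact_mod_cast h8
  · have h1 : 3 ≤ ⌊(N : ℝ) ^ κ⌋₊ := by
      apply Nat.le_floor
      exact_mod_cast hN3
    refine le_trans ?_ (hV _ h1)
    have h2 : ((⌊(N : ℝ) ^ κ⌋₊ : ℕ) : ℝ) ≤ N := by
      calc ((⌊(N : ℝ) ^ κ⌋₊ : ℕ) : ℝ) ≤ (N : ℝ) ^ κ := Nat.floor_le (by positivity)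
        _ ≤ (N : ℝ) ^ (1 : ℝ) := Real.rpow_le_rpow_of_exponent_le hN1.le hκ1
        _ = N := Real.rpow_one _
    have h3 : 0 < Real.log (⌊(N : ℝ) ^ κ⌋₊ : ℕ) :=
      Real.log_pos (by exact_mod_cast (by omega : 1 < ⌊(N : ℝ) ^ κ⌋₊))
    have h4 : Real.log (⌊(N : ℝ) ^ κ⌋₊ : ℕ) ≤ Real.log N :=
      Real.log_le_log (by exact_mod_cast (by omega : 0 < ⌊(N : ℝ) ^ κ⌋₊)) h2
    gcongr
lemma hMle : ∀ N W : ℕ, 0 < W → W ≤ N → ((N / W + 1 : ℕ) : ℝ) ≤ 2 * (N / W) := by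
  intro N W hW hWN
  have hW0 : (0 : ℝ) < W := by exact_mod_cast hW
  have h1 : ((N / W : ℕ) : ℝ) ≤ N / W := Nat.cast_div_le
  have h2 : (1 : ℝ) ≤ N / W := by
    rw [one_le_div hW0]
    exact_mod_cast hWN
  push_cast
  linarith
open Classical in
/-- existence -/
lemma part_exist (f : ι → ℤ[X])
    (w₀ E k G : ℕ) (C v κ : ℝ)
    (hcl : ∀ (w z N : ℕ) (A : Finset ℕ) (σ : ℝ) (r : ℕ), w₀ ≤ w → 1 ≤ z →
      A ⊆ Icc 1 N → 4 * (z ^ E) ^ 2 ≤ N / primorial w + 1 → 1 / 2 ≤ σ → σ ≤ 1 →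
      C ≤ (w : ℝ) ^ (1 - σ) →
      252 * ((N / primorial w + 1 : ℕ) : ℝ) * (w : ℝ) ^ (-σ) ≤ (Ac A (primorial w) r).card →
      (1 / 2 * Vq (Q f) z) * ((Ac A (primorial w) r).card *
        ((Ac A (primorial w) r).card - 252 * ((N / primorial w + 1 : ℕ) : ℝ) * (w : ℝ) ^ (-σ))) ≤
      (((Ac A (primorial w) r ×ˢ Ac A (primorial w) r).filter (fun a => Rg f z a.1 a.2)).card : ℝ))
    (hG : ∀ A : Finset ℕ, ((A ×ˢ A).filter (fun a => ∃ i, (f i).eval ((a.2 : ℤ) - a.1) = 1 ∨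
      (f i).eval ((a.2 : ℤ) - a.1) = -1)).card ≤ G * A.card)
    (hv : 0 < v) (hE0 : (0 : ℝ) < E) (hκ : κ = 1 / (8 * E)) (hκ0 : 0 < κ) (hκ1 : κ ≤ 1)
    (hV : ∀ y : ℕ, 3 ≤ y → v / Real.log y ^ k ≤ Vq (Q f) y) :
    ∀ ε : ℝ, 0 < ε → ∃ N₀ : ℕ, ∀ N : ℕ, N₀ ≤ N → ∀ A : Finset ℕ, A ⊆ Icc 1 N →
      (N : ℝ) / Real.log N ^ (1 - ε) ≤ A.card →
      ∃ a ∈ A, ∃ b ∈ A, Gd f ((N : ℝ) ^ κ) ((b : ℤ) - a) := by
  have hzfacts := zfacts f v κ E k hv hE0 hκ hκ0 hκ1 hV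
  have hM := hMle
  intro ε hε
  obtain ⟨e, he⟩ : ∃ e : ℝ, e = min ε 1 / 2 := ⟨_, rfl⟩
  have he0 : 0 < e := by
    rw [he]
    have : 0 < min ε 1 := lt_min hε one_pos
    linarith
  have he1 : e ≤ 1 / 2 := by
    rw [he]
    have : min ε 1 ≤ 1 := min_le_right _ _
    linarith
  have he2 : 0 < ε - e := by
    rw [he]
    have : min ε 1 ≤ ε := min_le_left _ _
    linarith
  have tlog : Tendsto (fun N : ℕ => Real.log N) atTop atTop :=
    Real.tendsto_log_atTop.comp tendsto_natCast_atTop_atTop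
  have t1 : Tendsto (fun N : ℕ => (Real.log N) ^ (ε - e)) atTop atTop :=
    (tendsto_rpow_atTop he2).comp tlog
  have t2 : Tendsto (fun N : ℕ => (Real.log N / 16) ^ e) atTop atTop :=
    (tendsto_rpow_atTop he0).comp (tlog.atTop_div_const (by norm_num))
  have t3 : Tendsto (fun N : ℕ => (N : ℝ) ^ κ) atTop atTop :=
    (tendsto_rpow_atTop hκ0).comp tendsto_natCast_atTop_atTop
  have t4 : Tendsto (fun N : ℕ => (N : ℝ) ^ (3 / 4 : ℝ) / Real.log N ^ (k + 1)) atTop atTop := by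
    have h1 : Tendsto (fun x : ℝ => x ^ (3 / 4 : ℝ) / Real.log x ^ (k + 1)) atTop atTop := by
      have h2 := (isLittleO_log_rpow_rpow_atTop (((k + 1 : ℕ) : ℝ)) (show (0 : ℝ) < 3 / 4 by norm_num))
      have h3 := h2.tendsto_div_nhds_zero
      have h4 : Tendsto (fun x : ℝ => (Real.log x ^ (((k + 1 : ℕ) : ℝ)) / x ^ (3 / 4 : ℝ))⁻¹) atTop atTop := by
        apply Tendsto.inv_tendsto_nhdsGT_zero
        rw [tendsto_nhdsWithin_iff]
        refine ⟨h3, ?_⟩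
        filter_upwards [eventually_gt_atTop 1] with x hx
        have : 0 < Real.log x := Real.log_pos hx
        simp only [Set.mem_Ioi]
        positivity
      refine h4.congr' ?_
      filter_upwards [eventually_gt_atTop 1] with x hx
      rw [inv_div, Real.rpow_natCast]
    exact h1.comp tendsto_natCast_atTop_atTop
  have hev := (((((t1.eventually_ge_atTop 16128).and (t2.eventually_ge_atTop C)).and
    (t3.eventually_ge_atTop 3)).and (t4.eventually_gt_atTop (4 * G / v))).and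
    (tlog.eventually_ge_atTop (16 * (w₀ + 1)))).and (eventually_ge_atTop 16)
  obtain ⟨N₀, hN₀⟩ := eventually_atTop.1 hev
  refine ⟨N₀, ?_⟩
  intro N hN A hA hcard
  obtain ⟨⟨⟨⟨⟨g1, g2⟩, g3⟩, g4⟩, g5⟩, g6⟩ := hN₀ N hN
  obtain ⟨L, hL⟩ : ∃ L, L = Real.log N := ⟨_, rfl⟩
  rw [← hL] at g1 g2 g4 g5 hcard
  have hw₀ : (0 : ℝ) ≤ w₀ := Nat.cast_nonneg _
  have hL16 : 16 ≤ L := by linarith
  have hL0 : 0 < L := by linarith
  have hN0 : (0 : ℝ) < N := by exact_mod_cast (by omega : 0 < N)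
  obtain ⟨w, hw⟩ : ∃ w, w = ⌊L / 8⌋₊ := ⟨_, rfl⟩
  have hw1 : (w : ℝ) ≤ L / 8 := by rw [hw]; exact Nat.floor_le (by positivity)
  have hw2 : L / 16 ≤ w := by
    have := Nat.lt_floor_add_one (L / 8)
    rw [← hw] at this
    linarith
  have hw3 : w₀ ≤ w := by
    have : (w₀ : ℝ) ≤ w := by linarith
    exact_mod_cast this
  have hw0 : (0 : ℝ) < w := by linarith
  obtain ⟨W, hW⟩ : ∃ W, W = primorial w := ⟨_, rfl⟩
  have hW0 : 0 < W := by rw [hW]; exact primorial_pos w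
  have hW0r : (0 : ℝ) < W := by exact_mod_cast hW0
  have hWN : (W : ℝ) ≤ (N : ℝ) ^ (1 / 4 : ℝ) := by
    have h1 : (W : ℝ) ≤ 4 ^ w := by
      rw [hW]
      exact_mod_cast primorial_le_four_pow w
    refine h1.trans ?_
    have h2 : (4 : ℝ) ≤ Real.exp 2 := by
      have := Real.exp_one_gt_d9
      have h3 : Real.exp 2 = Real.exp 1 * Real.exp 1 := by
        rw [← Real.exp_add]
        norm_num
      rw [h3]
      nlinarith
    calc (4 : ℝ) ^ w ≤ (Real.exp 2) ^ w := pow_le_pow_left₀ (by norm_num) h2 w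
      _ = Real.exp (w * 2) := by rw [← Real.exp_nat_mul]
      _ ≤ Real.exp (L * (1 / 4)) := by
          apply Real.exp_le_exp.2
          linarith
      _ = (N : ℝ) ^ (1 / 4 : ℝ) := by rw [Real.rpow_def_of_pos hN0, hL]
  have hWN' : W ≤ N := by
    have h1 : (W : ℝ) ≤ N := by
      calc (W : ℝ) ≤ (N : ℝ) ^ (1 / 4 : ℝ) := hWN
        _ ≤ (N : ℝ) ^ (1 : ℝ) := Real.rpow_le_rpow_of_exponent_le
            (by exact_mod_cast (by omega : 1 ≤ N)) (by norm_num)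
        _ = N := Real.rpow_one _
    exact_mod_cast h1
  obtain ⟨z, z1, z2, z3, z4⟩ := hzfacts N W g6 hW0 hWN g3
  -- the class
  obtain ⟨r, hr, hrA⟩ : ∃ r ∈ range W, A.card ≤ W * (Ac A W r).card := by
    by_contra hcon
    push Not at hcon
    have h1 : ∑ r ∈ range W, W * (Ac A W r).card < ∑ r ∈ range W, A.card :=
      sum_lt_sum_of_nonempty (nonempty_range_iff.2 hW0.ne') hcon
    rw [← mul_sum, sum_Ac A W hW0, sum_const, card_range, smul_eq_mul] at h1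
    exact lt_irrefl _ h1
  obtain ⟨nr, hnr⟩ : ∃ nr : ℝ, nr = ((Ac A W r).card : ℝ) := ⟨_, rfl⟩
  have hnr1 : N / W / L ^ (1 - ε) ≤ nr := by
    have h1 : (A.card : ℝ) ≤ W * nr := by rw [hnr]; exact_mod_cast hrA
    have h2 := hcard.trans h1
    rw [div_div, mul_comm (W : ℝ), ← div_div, div_le_iff₀ hW0r]
    linarith
  have hLp : ∀ x : ℝ, 0 < L ^ x := fun x => Real.rpow_pos_of_pos hL0 x
  have hwσ : (w : ℝ) ^ (-(1 - e)) ≤ 16 * L ^ (-(1 - e)) := by
    calc (w : ℝ) ^ (-(1 - e)) ≤ (L / 16) ^ (-(1 - e)) :=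
          Real.rpow_le_rpow_of_nonpos (by positivity) hw2 (by linarith)
      _ = 16 ^ (1 - e) * L ^ (-(1 - e)) := by
          rw [Real.div_rpow hL0.le (by norm_num), Real.rpow_neg (by norm_num : (0 : ℝ) ≤ 16)]
          field_simp
      _ ≤ 16 * L ^ (-(1 - e)) := by
          apply mul_le_mul_of_nonneg_right _ (hLp _).le
          calc (16 : ℝ) ^ (1 - e) ≤ 16 ^ (1 : ℝ) :=
                Real.rpow_le_rpow_of_exponent_le (by norm_num) (by linarith)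
            _ = 16 := Real.rpow_one _
  have hsmall : 252 * ((N / W + 1 : ℕ) : ℝ) * (w : ℝ) ^ (-(1 - e)) ≤ nr / 2 := by
    have h1 := hM N W hW0 hWN'
    have h2 : 0 ≤ (w : ℝ) ^ (-(1 - e)) := by positivity
    have h3 : (0 : ℝ) ≤ N / W := by positivity
    have h4 : 16128 * L ^ (-(1 - e)) ≤ L ^ (-(1 - ε)) := by
      have : L ^ (-(1 - ε)) = L ^ (ε - e) * L ^ (-(1 - e)) := by
        rw [← Real.rpow_add hL0]
        congr 1
        ring
      rw [this]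
      exact mul_le_mul_of_nonneg_right g1 (hLp _).le
    have h5 : N / W / L ^ (1 - ε) = N / W * L ^ (-(1 - ε)) := by
      rw [Real.rpow_neg hL0.le]
      rfl
    rw [h5] at hnr1
    calc 252 * ((N / W + 1 : ℕ) : ℝ) * (w : ℝ) ^ (-(1 - e))
        ≤ 252 * (2 * (N / W)) * (16 * L ^ (-(1 - e))) := by
          apply mul_le_mul _ hwσ h2 (by positivity)
          linarith
      _ = (N / W) * (16128 * L ^ (-(1 - e))) / 2 := by ring
      _ ≤ (N / W) * L ^ (-(1 - ε)) / 2 := by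
          have := mul_le_mul_of_nonneg_left h4 h3
          linarith
      _ ≤ nr / 2 := by linarith
  have hnr0 : 0 < nr := lt_of_lt_of_le (by positivity) hnr1
  have hpairs := hcl w z N A (1 - e) r hw3 (by omega) hA (by rw [← hW]; exact z3) (by linarith)
    (by linarith) (by
      rw [sub_sub_cancel]
      refine g2.trans ?_
      exact Real.rpow_le_rpow (by positivity) hw2 he0.le) (by
      rw [← hW, ← hnr]
      linarith)
  rw [← hW, ← hnr] at hpairs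
  -- compare with the exceptions
  have hV0 : 0 ≤ Vq (Q f) z := le_trans (by positivity) z4
  have h1 : Vq (Q f) z * nr * nr / 4 ≤
      (((Ac A W r ×ˢ Ac A W r).filter (fun a => Rg f z a.1 a.2)).card : ℝ) := by
    refine le_trans ?_ hpairs
    have h2 : nr / 2 ≤ nr - 252 * ((N / W + 1 : ℕ) : ℝ) * (w : ℝ) ^ (-(1 - e)) := by linarith
    have h3 : nr * (nr / 2) ≤ nr * (nr - 252 * ((N / W + 1 : ℕ) : ℝ) * (w : ℝ) ^ (-(1 - e))) :=
      mul_le_mul_of_nonneg_left h2 hnr0.le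
    have h4 : (1 / 2 * Vq (Q f) z) * (nr * (nr / 2)) ≤ (1 / 2 * Vq (Q f) z) *
        (nr * (nr - 252 * ((N / W + 1 : ℕ) : ℝ) * (w : ℝ) ^ (-(1 - e)))) :=
      mul_le_mul_of_nonneg_left h3 (by positivity)
    linarith
  have h2 : (G : ℝ) * nr < Vq (Q f) z * nr * nr / 4 := by
    have h3 : (N : ℝ) ^ (3 / 4 : ℝ) / L ≤ nr := by
      have h4 : (N : ℝ) ^ (3 / 4 : ℝ) ≤ N / W := by
        rw [le_div_iff₀ hW0r]
        calc (N : ℝ) ^ (3 / 4 : ℝ) * W ≤ (N : ℝ) ^ (3 / 4 : ℝ) * (N : ℝ) ^ (1 / 4 : ℝ) :=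
              mul_le_mul_of_nonneg_left hWN (by positivity)
          _ = N := by
              rw [← Real.rpow_add hN0]
              norm_num
      have h5 : L ^ (1 - ε) ≤ L := by
        calc L ^ (1 - ε) ≤ L ^ (1 : ℝ) :=
              Real.rpow_le_rpow_of_exponent_le (by linarith) (by linarith)
          _ = L := Real.rpow_one _
      refine le_trans ?_ hnr1
      exact div_le_div₀ (by positivity) h4 (hLp _) h5
    have h6 : 4 * G < Vq (Q f) z * nr := by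
      have h7 : 4 * G < v * ((N : ℝ) ^ (3 / 4 : ℝ) / L ^ (k + 1)) := by
        rw [div_lt_iff₀ hv] at g4
        linarith
      refine lt_of_lt_of_le h7 ?_
      calc v * ((N : ℝ) ^ (3 / 4 : ℝ) / L ^ (k + 1)) = (v / L ^ k) * ((N : ℝ) ^ (3 / 4 : ℝ) / L) := by
            rw [pow_succ]
            field_simp
        _ ≤ Vq (Q f) z * nr := by
            rw [← hL] at z4
            exact mul_le_mul z4 h3 (by positivity) hV0
    have h8 := mul_lt_mul_of_pos_right h6 hnr0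
    linarith
  have h3 := hG (Ac A W r)
  have h4 : ((Ac A W r ×ˢ Ac A W r).filter (fun a => ∃ i, (f i).eval ((a.2 : ℤ) - a.1) = 1 ∨
      (f i).eval ((a.2 : ℤ) - a.1) = -1)).card <
      ((Ac A W r ×ˢ Ac A W r).filter (fun a => Rg f z a.1 a.2)).card := by
    have h5 : (G : ℝ) * nr < (((Ac A W r ×ˢ Ac A W r).filter (fun a => Rg f z a.1 a.2)).card : ℝ) :=
      lt_of_lt_of_le h2 h1
    rw [hnr] at h5
    have h6 : G * (Ac A W r).card < ((Ac A W r ×ˢ Ac A W r).filter (fun a => Rg f z a.1 a.2)).card := by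
      exact_mod_cast h5
    omega
  obtain ⟨⟨a, b⟩, hab, hab'⟩ := exists_mem_notMem_of_card_lt_card h4
  rw [mem_filter, mem_product] at hab
  have hsub : ∀ x ∈ Ac A W r, x ∈ A := fun x hx => (mem_filter.1 hx).1
  refine ⟨a, hsub a hab.1.1, b, hsub b hab.1.2, ?_⟩
  apply gd_of f z a b (by omega) _ z2 hab.2
  intro h7
  apply hab'
  rw [mem_filter, mem_product]
  exact ⟨hab.1, h7⟩
open Classical in
/-- the count -/
lemma part_count (f : ι → ℤ[X])
    (w₀ E k G : ℕ) (C v κ : ℝ)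
    (hcl : ∀ (w z N : ℕ) (A : Finset ℕ) (σ : ℝ) (r : ℕ), w₀ ≤ w → 1 ≤ z →
      A ⊆ Icc 1 N → 4 * (z ^ E) ^ 2 ≤ N / primorial w + 1 → 1 / 2 ≤ σ → σ ≤ 1 →
      C ≤ (w : ℝ) ^ (1 - σ) →
      252 * ((N / primorial w + 1 : ℕ) : ℝ) * (w : ℝ) ^ (-σ) ≤ (Ac A (primorial w) r).card →
      (1 / 2 * Vq (Q f) z) * ((Ac A (primorial w) r).card *
        ((Ac A (primorial w) r).card - 252 * ((N / primorial w + 1 : ℕ) : ℝ) * (w : ℝ) ^ (-σ))) ≤
      (((Ac A (primorial w) r ×ˢ Ac A (primorial w) r).filter (fun a => Rg f z a.1 a.2)).card : ℝ))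
    (hG : ∀ A : Finset ℕ, ((A ×ˢ A).filter (fun a => ∃ i, (f i).eval ((a.2 : ℤ) - a.1) = 1 ∨
      (f i).eval ((a.2 : ℤ) - a.1) = -1)).card ≤ G * A.card)
    (hv : 0 < v) (hE0 : (0 : ℝ) < E) (hκ : κ = 1 / (8 * E)) (hκ0 : 0 < κ) (hκ1 : κ ≤ 1)
    (hV : ∀ y : ℕ, 3 ≤ y → v / Real.log y ^ k ≤ Vq (Q f) y) :
    ∀ δ : ℝ, 0 < δ → ∃ c : ℝ, 0 < c ∧ ∃ N₀ : ℕ, ∀ N : ℕ, N₀ ≤ N → ∀ A : Finset ℕ, A ⊆ Icc 1 N →
      δ * N ≤ A.card →
      c * (N : ℝ) ^ 2 / Real.log N ^ k ≤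
        (((A ×ˢ A).filter (fun a => Gd f ((N : ℝ) ^ κ) ((a.2 : ℤ) - a.1))).card : ℝ) := by
  have hzfacts := zfacts f v κ E k hv hE0 hκ hκ0 hκ1 hV
  have hM := hMle
  intro δ hδ
  obtain ⟨w, hw1, hw2, hw3, hw4⟩ : ∃ w : ℕ, w₀ ≤ w ∧ C ≤ (w : ℝ) ^ (1 / 2 : ℝ) ∧
      4032 / δ ≤ (w : ℝ) ^ (1 / 2 : ℝ) ∧ 1 ≤ w := by
    have t1 : Tendsto (fun N : ℕ => (N : ℝ) ^ (1 / 2 : ℝ)) atTop atTop :=
      (tendsto_rpow_atTop (by norm_num)).comp tendsto_natCast_atTop_atTop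
    have := ((eventually_ge_atTop w₀).and (t1.eventually_ge_atTop C)).and
      ((t1.eventually_ge_atTop (4032 / δ)).and (eventually_ge_atTop 1))
    obtain ⟨w, hw⟩ := this.exists
    exact ⟨w, hw.1.1, hw.1.2, hw.2.1, hw.2.2⟩
  obtain ⟨W, hW⟩ : ∃ W, W = primorial w := ⟨_, rfl⟩
  have hW0 : 0 < W := by rw [hW]; exact primorial_pos w
  have hW0r : (0 : ℝ) < W := by exact_mod_cast hW0
  have hw0 : (0 : ℝ) < w := by exact_mod_cast hw4
  have hwσ : (w : ℝ) ^ (-(1 / 2) : ℝ) ≤ δ / 4032 := by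
    rw [Real.rpow_neg hw0.le, inv_le_comm₀ (by positivity) (by positivity), inv_div]
    exact hw3
  obtain ⟨c, hc⟩ : ∃ c : ℝ, c = v * δ ^ 2 / (32 * W) := ⟨_, rfl⟩
  have hc0 : 0 < c := by rw [hc]; positivity
  refine ⟨c, hc0, ?_⟩
  have t1 : Tendsto (fun N : ℕ => (N : ℝ) ^ (1 / 4 : ℝ)) atTop atTop :=
    (tendsto_rpow_atTop (by norm_num)).comp tendsto_natCast_atTop_atTop
  have t3 : Tendsto (fun N : ℕ => (N : ℝ) ^ κ) atTop atTop :=
    (tendsto_rpow_atTop hκ0).comp tendsto_natCast_atTop_atTop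
  have t4 : Tendsto (fun N : ℕ => (N : ℝ) / Real.log N ^ k) atTop atTop := by
    have h1 : Tendsto (fun x : ℝ => x / Real.log x ^ k) atTop atTop := by
      have h2 := (isLittleO_log_rpow_rpow_atTop ((k : ℕ) : ℝ) (show (0 : ℝ) < 1 by norm_num))
      have h3 := h2.tendsto_div_nhds_zero
      have h4 : Tendsto (fun x : ℝ => (Real.log x ^ ((k : ℕ) : ℝ) / x ^ (1 : ℝ))⁻¹) atTop atTop := by
        apply Tendsto.inv_tendsto_nhdsGT_zero
        rw [tendsto_nhdsWithin_iff]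
        refine ⟨h3, ?_⟩
        filter_upwards [eventually_gt_atTop 1] with x hx
        have : 0 < Real.log x := Real.log_pos hx
        simp only [Set.mem_Ioi]
        positivity
      refine h4.congr' ?_
      filter_upwards [eventually_gt_atTop 1] with x hx
      rw [inv_div, Real.rpow_natCast, Real.rpow_one]
    exact h1.comp tendsto_natCast_atTop_atTop
  have hev := ((((t1.eventually_ge_atTop (W : ℝ)).and (t3.eventually_ge_atTop 3)).and
    (t4.eventually_ge_atTop (G / c))).and (eventually_ge_atTop 16)).and (eventually_ge_atTop W)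
  obtain ⟨N₀, hN₀⟩ := eventually_atTop.1 hev
  refine ⟨N₀, ?_⟩
  intro N hN A hA hcard
  obtain ⟨⟨⟨⟨g1, g2⟩, g3⟩, g4⟩, g5⟩ := hN₀ N hN
  have hN0 : (0 : ℝ) < N := by exact_mod_cast (by omega : 0 < N)
  have hL0 : 0 < Real.log N := Real.log_pos (by exact_mod_cast (by omega : 1 < N))
  obtain ⟨z, z1, z2, z3, z4⟩ := hzfacts N W g4 hW0 g1 g2
  have hV0 : 0 ≤ Vq (Q f) z := le_trans (by positivity) z4
  obtain ⟨nr, hnr⟩ : ∃ nr : ℕ → ℝ, nr = fun r => ((Ac A W r).card : ℝ) := ⟨_, rfl⟩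
  have hnr0 : ∀ r, 0 ≤ nr r := fun r => by rw [hnr]; positivity
  obtain ⟨R, hR⟩ : ∃ R, R = (range W).filter (fun r => δ * N / (2 * W) ≤ nr r) := ⟨_, rfl⟩
  have hsum : ∑ r ∈ range W, nr r = A.card := by
    rw [hnr, ← Nat.cast_sum, sum_Ac A W hW0]
  have hsumR : δ * N / 2 ≤ ∑ r ∈ R, nr r := by
    have h1 : ∑ r ∈ range W, nr r = ∑ r ∈ R, nr r +
        ∑ r ∈ (range W).filter (fun r => ¬ δ * N / (2 * W) ≤ nr r), nr r := by
      rw [hR, sum_filter_add_sum_filter_not]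
    have h2 : ∑ r ∈ (range W).filter (fun r => ¬ δ * N / (2 * W) ≤ nr r), nr r ≤ δ * N / 2 := by
      calc ∑ r ∈ (range W).filter (fun r => ¬ δ * N / (2 * W) ≤ nr r), nr r
          ≤ ∑ r ∈ (range W).filter (fun r => ¬ δ * N / (2 * W) ≤ nr r), δ * N / (2 * W) := by
            apply sum_le_sum
            intro r hr
            exact (not_le.1 (mem_filter.1 hr).2).le
        _ ≤ ∑ r ∈ range W, δ * N / (2 * W) :=
            sum_le_sum_of_subset_of_nonneg (filter_subset _ _) fun _ _ _ => by positivity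
        _ = δ * N / 2 := by
            rw [sum_const, card_range, nsmul_eq_mul]
            field_simp
    rw [hsum] at h1
    linarith
  have hsq : (δ * N / 2) ^ 2 ≤ W * ∑ r ∈ R, nr r ^ 2 := by
    have h1 := sq_sum_le_card_mul_sum_sq (s := R) (f := nr)
    have h2 : (R.card : ℝ) ≤ W := by
      have : R.card ≤ W := by
        rw [hR]
        exact (card_filter_le _ _).trans (card_range W).le
      exact_mod_cast this
    have h3 : 0 ≤ ∑ r ∈ R, nr r ^ 2 := sum_nonneg fun _ _ => by positivity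
    calc (δ * N / 2) ^ 2 ≤ (∑ r ∈ R, nr r) ^ 2 := by
          apply pow_le_pow_left₀ (by positivity) hsumR
      _ ≤ R.card * ∑ r ∈ R, nr r ^ 2 := h1
      _ ≤ W * ∑ r ∈ R, nr r ^ 2 := mul_le_mul_of_nonneg_right h2 h3
  have hcls : ∀ r ∈ R, Vq (Q f) z * nr r ^ 2 / 4 ≤
      (((Ac A W r ×ˢ Ac A W r).filter (fun a => Rg f z a.1 a.2)).card : ℝ) := by
    intro r hr
    rw [hR, mem_filter] at hr
    have hsm : 252 * ((N / W + 1 : ℕ) : ℝ) * (w : ℝ) ^ (-(1 / 2) : ℝ) ≤ nr r / 4 := by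
      have h1 := hM N W hW0 g5
      have h2 : (0 : ℝ) ≤ N / W := by positivity
      calc 252 * ((N / W + 1 : ℕ) : ℝ) * (w : ℝ) ^ (-(1 / 2) : ℝ)
          ≤ 252 * (2 * (N / W)) * (δ / 4032) := by
            apply mul_le_mul _ hwσ (by positivity) (by positivity)
            linarith
        _ = δ * N / (2 * W) / 4 := by
            field_simp
            norm_num
        _ ≤ nr r / 4 := by linarith [hr.2]
    have hpairs := hcl w z N A (1 / 2) r hw1 (by omega) hA (by rw [← hW]; exact z3) (by norm_num)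
      (by norm_num) (by
        have : (1 : ℝ) - 1 / 2 = 1 / 2 := by norm_num
        rw [this]
        exact hw2) (by
        rw [← hW]
        have h3 := hnr0 r
        have h4 : nr r = ((Ac A W r).card : ℝ) := by rw [hnr]
        rw [← h4]
        linarith)
    rw [← hW] at hpairs
    have h4 : nr r = ((Ac A W r).card : ℝ) := by rw [hnr]
    rw [← h4] at hpairs
    refine le_trans ?_ hpairs
    have h5 : nr r / 2 ≤ nr r - 252 * ((N / W + 1 : ℕ) : ℝ) * (w : ℝ) ^ (-(1 / 2) : ℝ) := by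
      have := hnr0 r
      linarith
    have h6 := mul_le_mul_of_nonneg_left h5 (hnr0 r)
    have h7 := mul_le_mul_of_nonneg_left h6 (show 0 ≤ 1 / 2 * Vq (Q f) z by positivity)
    nlinarith
  have htot : ∑ r ∈ R, (((Ac A W r ×ˢ Ac A W r).filter (fun a => Rg f z a.1 a.2)).card : ℝ) ≤
      (((A ×ˢ A).filter (fun a => Rg f z a.1 a.2)).card : ℝ) := by
    rw [← Nat.cast_sum, Nat.cast_le, ← card_biUnion]
    · apply card_le_card
      intro x hx
      rw [mem_biUnion] at hx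
      obtain ⟨r, _, hx⟩ := hx
      rw [mem_filter, mem_product] at hx ⊢
      exact ⟨⟨(mem_filter.1 hx.1.1).1, (mem_filter.1 hx.1.2).1⟩, hx.2⟩
    · intro r _ r' _ hrr
      show Disjoint _ _
      rw [Finset.disjoint_left]
      intro x hx hx'
      rw [mem_filter, mem_product] at hx hx'
      exact hrr ((mem_filter.1 hx.1.1).2.symm.trans (mem_filter.1 hx'.1.1).2)
  have hbig : 2 * c * (N : ℝ) ^ 2 / Real.log N ^ k ≤
      (((A ×ˢ A).filter (fun a => Rg f z a.1 a.2)).card : ℝ) := by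
    refine le_trans ?_ ((sum_le_sum hcls).trans htot)
    have h1 : ∑ r ∈ R, Vq (Q f) z * nr r ^ 2 / 4 = Vq (Q f) z / 4 * ∑ r ∈ R, nr r ^ 2 := by
      rw [mul_sum]
      apply sum_congr rfl
      intro r _
      ring
    rw [h1]
    have h2 : δ ^ 2 * N ^ 2 / (4 * W) ≤ ∑ r ∈ R, nr r ^ 2 := by
      rw [div_le_iff₀ (by positivity)]
      nlinarith
    calc 2 * c * (N : ℝ) ^ 2 / Real.log N ^ k = (v / Real.log N ^ k) / 4 * (δ ^ 2 * N ^ 2 / (4 * W)) := by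
          rw [hc]
          field_simp
          norm_num
      _ ≤ Vq (Q f) z / 4 * ∑ r ∈ R, nr r ^ 2 := by
          apply mul_le_mul _ h2 (by positivity) (by positivity)
          linarith
  have hexc : (G : ℝ) * A.card ≤ c * (N : ℝ) ^ 2 / Real.log N ^ k := by
    have h1 : (A.card : ℝ) ≤ N := by
      have := card_le_card hA
      rw [Nat.card_Icc, Nat.add_sub_cancel] at this
      exact_mod_cast this
    rw [div_le_iff₀ hc0] at g3
    calc (G : ℝ) * A.card ≤ G * N := mul_le_mul_of_nonneg_left h1 (by positivity)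
      _ ≤ (N / Real.log N ^ k * c) * N := mul_le_mul_of_nonneg_right g3 hN0.le
      _ = _ := by ring
  have hG' := hG A
  have hG'' : (((A ×ˢ A).filter (fun a => ∃ i, (f i).eval ((a.2 : ℤ) - a.1) = 1 ∨
    (f i).eval ((a.2 : ℤ) - a.1) = -1)).card : ℝ) ≤ G * A.card := by exact_mod_cast hG'
  have hfin : ((A ×ˢ A).filter (fun a => Rg f z a.1 a.2)).card ≤
      ((A ×ˢ A).filter (fun a => Gd f ((N : ℝ) ^ κ) ((a.2 : ℤ) - a.1))).card +
      ((A ×ˢ A).filter (fun a => ∃ i, (f i).eval ((a.2 : ℤ) - a.1) = 1 ∨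
        (f i).eval ((a.2 : ℤ) - a.1) = -1)).card := by
    refine le_trans (card_le_card ?_) (card_union_le _ _)
    intro x hx
    rw [mem_filter] at hx
    rw [mem_union, mem_filter, mem_filter]
    by_cases h : ∃ i, (f i).eval ((x.2 : ℤ) - x.1) = 1 ∨ (f i).eval ((x.2 : ℤ) - x.1) = -1
    · right; exact ⟨hx.1, h⟩
    · left; exact ⟨hx.1, gd_of f z x.1 x.2 (by omega) _ z2 hx.2 h⟩
  have hfin' : (((A ×ˢ A).filter (fun a => Rg f z a.1 a.2)).card : ℝ) ≤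
      (((A ×ˢ A).filter (fun a => Gd f ((N : ℝ) ^ κ) ((a.2 : ℤ) - a.1))).card : ℝ) +
      (((A ×ˢ A).filter (fun a => ∃ i, (f i).eval ((a.2 : ℤ) - a.1) = 1 ∨
        (f i).eval ((a.2 : ℤ) - a.1) = -1)).card : ℝ) := by exact_mod_cast hfin
  have e1 : 2 * c * (N : ℝ) ^ 2 / Real.log N ^ k = c * (N : ℝ) ^ 2 / Real.log N ^ k +
      c * (N : ℝ) ^ 2 / Real.log N ^ k := by ring
  linarith

open Classical in
/-- the two consequences, with one constant `κ` -/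
theorem main (f : ι → ℤ[X]) (hf : Sys f) (h0 : ∀ i, IsUnit ((f i).eval 0)) :
    ∃ κ : ℝ, 0 < κ ∧
    (∀ ε : ℝ, 0 < ε → ∃ N₀ : ℕ, ∀ N : ℕ, N₀ ≤ N → ∀ A : Finset ℕ, A ⊆ Icc 1 N →
      (N : ℝ) / Real.log N ^ (1 - ε) ≤ A.card →
      ∃ a ∈ A, ∃ b ∈ A, Gd f ((N : ℝ) ^ κ) ((b : ℤ) - a)) ∧
    (∀ δ : ℝ, 0 < δ → ∃ c : ℝ, 0 < c ∧ ∃ N₀ : ℕ, ∀ N : ℕ, N₀ ≤ N → ∀ A : Finset ℕ, A ⊆ Icc 1 N →
      δ * N ≤ A.card →
      c * (N : ℝ) ^ 2 / Real.log N ^ (Fintype.card ι) ≤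
        (((A ×ˢ A).filter (fun a => Gd f ((N : ℝ) ^ κ) ((a.2 : ℤ) - a.1))).card : ℝ)) := by
  obtain ⟨B, w₀, C, hC, hcl⟩ := class_lower f hf h0
  obtain ⟨G, hG⟩ := few_units f hf
  obtain ⟨v, Cv, hv, _, hV⟩ := V_bounds f hf
  obtain ⟨E, hE⟩ : ∃ E, E = 4 * B + 6 := ⟨_, rfl⟩
  rw [← hE] at hcl
  have hE0 : (0 : ℝ) < E := by
    rw [hE]
    positivity
  obtain ⟨κ, hκ⟩ : ∃ κ : ℝ, κ = 1 / (8 * E) := ⟨_, rfl⟩
  have hκ0 : 0 < κ := by rw [hκ]; positivity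
  have hκ1 : κ ≤ 1 := by
    rw [hκ, div_le_one (by positivity)]
    have : (1 : ℝ) ≤ E := by
      rw [hE]
      exact_mod_cast (by omega : 1 ≤ 4 * B + 6)
    linarith
  have hV' : ∀ y : ℕ, 3 ≤ y → v / Real.log y ^ (Fintype.card ι) ≤ Vq (Q f) y := fun y hy => (hV y hy).1
  exact ⟨κ, hκ0, part_exist f w₀ E _ G C v κ hcl hG hv hE0 hκ hκ0 hκ1 hV',
    part_count f w₀ E _ G C v κ hcl hG hv hE0 hκ hκ0 hκ1 hV'⟩

end Pool.Agent.H14.SK
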