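import Pool.Agent.H14.SK.Main

/-!
# Differences with almost prime values: one quantitative statement (helper14)
-/

set_option autoImplicit false
set_option linter.unusedSectionVars false
set_option linter.deprecated false

namespace Pool.Agent.H14.SK

open Finset Polynomial Filter Topology
open Pool.Agent.H373R2.T7 Pool.Agent.W123.RP Pool.Agent.W123.RU.Poly

variable {ι : Type} [Fintype ι]

lemma tendsto_rpow_div_log_pow (s : ℝ) (hs : 0 < s) (m : ℕ) :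
    Tendsto (fun N : ℕ => (N : ℝ) ^ s / Real.log N ^ m) atTop atTop := by
  have h1 : Tendsto (fun x : ℝ => x ^ s / Real.log x ^ m) atTop atTop := by
    have h2 := (isLittleO_log_rpow_rpow_atTop ((m : ℕ) : ℝ) hs)
    have h3 := h2.tendsto_div_nhds_zero
    have h4 : Tendsto (fun x : ℝ => (Real.log x ^ ((m : ℕ) : ℝ) / x ^ s)⁻¹) atTop atTop := by
      apply Tendsto.inv_tendsto_nhdsGT_zero
      rw [tendsto_nhdsWithin_iff]
      refine ⟨h3, ?_⟩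
      filter_upwards [eventually_gt_atTop 1] with x hx
      have : 0 < Real.log x := Real.log_pos hx
      simp only [Set.mem_Ioi]
      positivity
    refine h4.congr' ?_
    filter_upwards [eventually_gt_atTop 1] with x hx
    rw [inv_div, Real.rpow_natCast]
  exact h1.comp tendsto_natCast_atTop_atTop

lemma tendsto_log_nat : Tendsto (fun N : ℕ => Real.log N) atTop atTop :=
  Real.tendsto_log_atTop.comp tendsto_natCast_atTop_atTop

open Classical in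
/-- the pairs in `A` whose difference is free of small prime factors -/
lemma unif_rg (f : ι → ℤ[X])
    (w₀ E k : ℕ) (C v κ : ℝ)
    (hcl : ∀ (w z N : ℕ) (A : Finset ℕ) (σ : ℝ) (r : ℕ), w₀ ≤ w → 1 ≤ z →
      A ⊆ Icc 1 N → 4 * (z ^ E) ^ 2 ≤ N / primorial w + 1 → 1 / 2 ≤ σ → σ ≤ 1 →
      C ≤ (w : ℝ) ^ (1 - σ) →
      252 * ((N / primorial w + 1 : ℕ) : ℝ) * (w : ℝ) ^ (-σ) ≤ (Ac A (primorial w) r).card →
      (1 / 2 * Vq (Q f) z) * ((Ac A (primorial w) r).card *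
        ((Ac A (primorial w) r).card - 252 * ((N / primorial w + 1 : ℕ) : ℝ) * (w : ℝ) ^ (-σ))) ≤
      (((Ac A (primorial w) r ×ˢ Ac A (primorial w) r).filter (fun a => Rg f z a.1 a.2)).card : ℝ))
    (hv : 0 < v) (hE0 : (0 : ℝ) < E) (hκ : κ = 1 / (8 * E)) (hκ0 : 0 < κ) (hκ1 : κ ≤ 1)
    (hV : ∀ y : ℕ, 3 ≤ y → v / Real.log y ^ k ≤ Vq (Q f) y)
    (N w : ℕ) (A : Finset ℕ) (α σ : ℝ) (hα : 0 < α) (hA : A ⊆ Icc 1 N) (hcard : α * N ≤ A.card)
    (g4 : 16 ≤ N) (g2 : 3 ≤ (N : ℝ) ^ κ) (hw1 : w₀ ≤ w) (hwL : (w : ℝ) ≤ Real.log N / 8)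
    (hσ : 1 / 2 ≤ σ) (hσ1 : σ ≤ 1) (hCw : C ≤ (w : ℝ) ^ (1 - σ)) (hwσ : (w : ℝ) ^ (-σ) ≤ α / 4032) :
    ∃ z : ℕ, 3 ≤ z ∧ (N : ℝ) ^ κ < z + 1 ∧
      v / Real.log N ^ k * (α ^ 2 * N ^ 2 / (16 * 4 ^ w)) ≤
      (((A ×ˢ A).filter (fun a => Rg f z a.1 a.2)).card : ℝ) := by
  obtain ⟨L, hL⟩ : ∃ L, L = Real.log N := ⟨_, rfl⟩
  rw [← hL] at hwL
  have hN0 : (0 : ℝ) < N := by exact_mod_cast (by omega : 0 < N)
  have hL0 : 0 < L := by rw [hL]; exact Real.log_pos (by exact_mod_cast (by omega : 1 < N))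
  obtain ⟨W, hW⟩ : ∃ W, W = primorial w := ⟨_, rfl⟩
  have hW0 : 0 < W := by rw [hW]; exact primorial_pos w
  have hW0r : (0 : ℝ) < W := by exact_mod_cast hW0
  have hW4 : (W : ℝ) ≤ 4 ^ w := by
    rw [hW]
    exact_mod_cast primorial_le_four_pow w
  have g1 : (W : ℝ) ≤ (N : ℝ) ^ (1 / 4 : ℝ) := by
    refine hW4.trans ?_
    have h2 : (4 : ℝ) ≤ Real.exp 2 := by
      have := Real.exp_one_gt_d9
      have h3 : Real.exp 2 = Real.exp 1 * Real.exp 1 := by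
        rw [← Real.exp_add]
        norm_num
      rw [h3]
      nlinarith
    calc (4 : ℝ) ^ w ≤ (Real.exp 2) ^ w := pow_le_pow_left₀ (by norm_num) h2 w
      _ = Real.exp (w * 2) := by rw [← Real.exp_nat_mul]
      _ ≤ Real.exp (L * (1 / 4)) := by
          apply Real.exp_le_exp.2
          linarith
      _ = (N : ℝ) ^ (1 / 4 : ℝ) := by rw [Real.rpow_def_of_pos hN0, hL]
  have g5 : W ≤ N := by
    have h1 : (W : ℝ) ≤ N := by
      calc (W : ℝ) ≤ (N : ℝ) ^ (1 / 4 : ℝ) := g1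
        _ ≤ (N : ℝ) ^ (1 : ℝ) := Real.rpow_le_rpow_of_exponent_le
            (by exact_mod_cast (by omega : 1 ≤ N)) (by norm_num)
        _ = N := Real.rpow_one _
    exact_mod_cast h1
  obtain ⟨z, z1, z2, z3, z4⟩ := zfacts f v κ E k hv hE0 hκ hκ0 hκ1 hV N W g4 hW0 g1 g2
  rw [← hL] at z4 ⊢
  refine ⟨z, z1, z2, ?_⟩
  have hV0 : 0 ≤ Vq (Q f) z := le_trans (by positivity) z4
  obtain ⟨nr, hnr⟩ : ∃ nr : ℕ → ℝ, nr = fun r => ((Ac A W r).card : ℝ) := ⟨_, rfl⟩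
  have hnr0 : ∀ r, 0 ≤ nr r := fun r => by rw [hnr]; positivity
  obtain ⟨R, hR⟩ : ∃ R, R = (range W).filter (fun r => α * N / (2 * W) ≤ nr r) := ⟨_, rfl⟩
  have hsum : ∑ r ∈ range W, nr r = A.card := by
    rw [hnr, ← Nat.cast_sum, sum_Ac A W hW0]
  have hsumR : α * N / 2 ≤ ∑ r ∈ R, nr r := by
    have h1 : ∑ r ∈ range W, nr r = ∑ r ∈ R, nr r +
        ∑ r ∈ (range W).filter (fun r => ¬ α * N / (2 * W) ≤ nr r), nr r := by
      rw [hR, sum_filter_add_sum_filter_not]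
    have h2 : ∑ r ∈ (range W).filter (fun r => ¬ α * N / (2 * W) ≤ nr r), nr r ≤ α * N / 2 := by
      calc ∑ r ∈ (range W).filter (fun r => ¬ α * N / (2 * W) ≤ nr r), nr r
          ≤ ∑ r ∈ (range W).filter (fun r => ¬ α * N / (2 * W) ≤ nr r), α * N / (2 * W) := by
            apply sum_le_sum
            intro r hr
            exact (not_le.1 (mem_filter.1 hr).2).le
        _ ≤ ∑ r ∈ range W, α * N / (2 * W) :=
            sum_le_sum_of_subset_of_nonneg (filter_subset _ _) fun _ _ _ => by positivity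
        _ = α * N / 2 := by
            rw [sum_const, card_range, nsmul_eq_mul]
            field_simp
    rw [hsum] at h1
    linarith
  have hsq : (α * N / 2) ^ 2 ≤ W * ∑ r ∈ R, nr r ^ 2 := by
    have h1 := sq_sum_le_card_mul_sum_sq (s := R) (f := nr)
    have h2 : (R.card : ℝ) ≤ W := by
      have : R.card ≤ W := by
        rw [hR]
        exact (card_filter_le _ _).trans (card_range W).le
      exact_mod_cast this
    have h3 : 0 ≤ ∑ r ∈ R, nr r ^ 2 := sum_nonneg fun _ _ => by positivity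
    calc (α * N / 2) ^ 2 ≤ (∑ r ∈ R, nr r) ^ 2 := by
          apply pow_le_pow_left₀ (by positivity) hsumR
      _ ≤ R.card * ∑ r ∈ R, nr r ^ 2 := h1
      _ ≤ W * ∑ r ∈ R, nr r ^ 2 := mul_le_mul_of_nonneg_right h2 h3
  have hcls : ∀ r ∈ R, Vq (Q f) z * nr r ^ 2 / 4 ≤
      (((Ac A W r ×ˢ Ac A W r).filter (fun a => Rg f z a.1 a.2)).card : ℝ) := by
    intro r hr
    rw [hR, mem_filter] at hr
    have hsm : 252 * ((N / W + 1 : ℕ) : ℝ) * (w : ℝ) ^ (-σ) ≤ nr r / 4 := by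
      have h1 := hMle N W hW0 g5
      have h2 : (0 : ℝ) ≤ N / W := by positivity
      calc 252 * ((N / W + 1 : ℕ) : ℝ) * (w : ℝ) ^ (-σ)
          ≤ 252 * (2 * (N / W)) * (α / 4032) := by
            apply mul_le_mul _ hwσ (by positivity) (by positivity)
            linarith
        _ = α * N / (2 * W) / 4 := by
            field_simp
            norm_num
        _ ≤ nr r / 4 := by linarith [hr.2]
    have hpairs := hcl w z N A σ r hw1 (by omega) hA (by rw [← hW]; exact z3) hσ hσ1 hCw (by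
        rw [← hW]
        have h3 := hnr0 r
        have h4 : nr r = ((Ac A W r).card : ℝ) := by rw [hnr]
        rw [← h4]
        linarith)
    rw [← hW] at hpairs
    have h4 : nr r = ((Ac A W r).card : ℝ) := by rw [hnr]
    rw [← h4] at hpairs
    refine le_trans ?_ hpairs
    have h5 : nr r / 2 ≤ nr r - 252 * ((N / W + 1 : ℕ) : ℝ) * (w : ℝ) ^ (-σ) := by
      have := hnr0 r
      linarith
    have h6 := mul_le_mul_of_nonneg_left h5 (hnr0 r)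
    have h7 := mul_le_mul_of_nonneg_left h6 (show 0 ≤ 1 / 2 * Vq (Q f) z by positivity)
    nlinarith
  have htot : ∑ r ∈ R, (((Ac A W r ×ˢ Ac A W r).filter (fun a => Rg f z a.1 a.2)).card : ℝ) ≤
      (((A ×ˢ A).filter (fun a => Rg f z a.1 a.2)).card : ℝ) := by
    rw [← Nat.cast_sum, Nat.cast_le, ← card_biUnion]
    · apply card_le_card
      intro x hx
      rw [mem_biUnion] at hx
      obtain ⟨r, _, hx⟩ := hx
      rw [mem_filter, mem_product] at hx ⊢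
      exact ⟨⟨(mem_filter.1 hx.1.1).1, (mem_filter.1 hx.1.2).1⟩, hx.2⟩
    · intro r _ r' _ hrr
      show Disjoint _ _
      rw [Finset.disjoint_left]
      intro x hx hx'
      rw [mem_filter, mem_product] at hx hx'
      exact hrr ((mem_filter.1 hx.1.1).2.symm.trans (mem_filter.1 hx'.1.1).2)
  refine le_trans ?_ ((sum_le_sum hcls).trans htot)
  have h1 : ∑ r ∈ R, Vq (Q f) z * nr r ^ 2 / 4 = Vq (Q f) z / 4 * ∑ r ∈ R, nr r ^ 2 := by
    rw [mul_sum]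
    apply sum_congr rfl
    intro r _
    ring
  rw [h1]
  have h2 : α ^ 2 * N ^ 2 / (4 * 4 ^ w) ≤ ∑ r ∈ R, nr r ^ 2 := by
    rw [div_le_iff₀ (by positivity)]
    have h3 : 0 ≤ ∑ r ∈ R, nr r ^ 2 := sum_nonneg fun _ _ => by positivity
    have h4 : (W : ℝ) * ∑ r ∈ R, nr r ^ 2 ≤ 4 ^ w * ∑ r ∈ R, nr r ^ 2 :=
      mul_le_mul_of_nonneg_right hW4 h3
    nlinarith
  calc v / L ^ k * (α ^ 2 * N ^ 2 / (16 * 4 ^ w)) = (v / L ^ k) / 4 * (α ^ 2 * N ^ 2 / (4 * 4 ^ w)) := by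
        ring
    _ ≤ Vq (Q f) z / 4 * ∑ r ∈ R, nr r ^ 2 := by
        apply mul_le_mul _ h2 (by positivity) (by positivity)
        linarith

/-- choice of the parameter `w` -/
lemma choose_w (w₀ : ℕ) (C ε : ℝ) (hε : 0 < ε) (hε1 : ε ≤ 1 / 2) : ∃ K : ℝ, 1 ≤ K ∧
    ∀ α : ℝ, 0 < α → α ≤ 1 → ∃ w : ℕ, w₀ ≤ w ∧ (w : ℝ) ≤ 2 * K * α ^ (-(1 + ε)) ∧
      C ≤ (w : ℝ) ^ (1 - 1 / (1 + ε)) ∧ (w : ℝ) ^ (-(1 / (1 + ε))) ≤ α / 4032 := by
  have h1 : 0 < 1 - 1 / (1 + ε) := by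
    have : 1 / (1 + ε) < 1 := by
      rw [div_lt_one (by linarith)]
      linarith
    linarith
  obtain ⟨K, hK⟩ : ∃ K : ℝ, 1 ≤ K ∧ (w₀ : ℝ) ≤ K ∧ (4032 : ℝ) ^ (1 + ε) ≤ K ∧
      C ≤ K ^ (1 - 1 / (1 + ε)) := by
    have t1 := (tendsto_rpow_atTop h1).eventually_ge_atTop C
    obtain ⟨K, hK⟩ := ((t1.and (eventually_ge_atTop 1)).and
      ((eventually_ge_atTop (w₀ : ℝ)).and (eventually_ge_atTop ((4032 : ℝ) ^ (1 + ε))))).exists
    exact ⟨K, hK.1.2, hK.2.1, hK.2.2, hK.1.1⟩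
  obtain ⟨k1, k2, k3, k4⟩ := hK
  refine ⟨K, k1, ?_⟩
  intro α hα hα1
  have hα2 : 1 ≤ α ^ (-(1 + ε)) := Real.one_le_rpow_of_pos_of_le_one_of_nonpos hα hα1 (by linarith)
  have hKα : K ≤ K * α ^ (-(1 + ε)) := le_mul_of_one_le_right (by linarith) hα2
  obtain ⟨w, hw⟩ : ∃ w, w = ⌈K * α ^ (-(1 + ε))⌉₊ := ⟨_, rfl⟩
  have hw1 : K * α ^ (-(1 + ε)) ≤ w := by rw [hw]; exact Nat.le_ceil _
  have hw2 : (w : ℝ) ≤ K * α ^ (-(1 + ε)) + 1 := by
    rw [hw]
    exact (Nat.ceil_lt_add_one (by positivity)).le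
  have hKw : K ≤ w := hKα.trans hw1
  have hw0 : (0 : ℝ) < w := by linarith
  refine ⟨w, ?_, ?_, ?_, ?_⟩
  · exact_mod_cast k2.trans hKw
  · linarith
  · exact k4.trans (Real.rpow_le_rpow (by linarith) hKw h1.le)
  · have h2 : (4032 / α) ^ (1 + ε) ≤ w := by
      rw [Real.div_rpow (by norm_num) hα.le, div_eq_mul_inv, ← Real.rpow_neg hα.le]
      exact (mul_le_mul_of_nonneg_right k3 (by positivity)).trans hw1
    have h3 : 4032 / α ≤ (w : ℝ) ^ (1 / (1 + ε)) := by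
      have h4 := Real.rpow_le_rpow (by positivity) h2 (show 0 ≤ 1 / (1 + ε) by positivity)
      rwa [← Real.rpow_mul (by positivity), mul_one_div_cancel (by linarith), Real.rpow_one] at h4
    rw [Real.rpow_neg hw0.le, inv_le_comm₀ (by positivity) (by positivity), inv_div]
    exact h3

open Classical in
/-- the pairs in `A` whose difference is free of small prime factors, in terms of the density -/
theorem unif (f : ι → ℤ[X]) (hf : Sys f) (h0 : ∀ i, IsUnit ((f i).eval 0)) :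
    ∃ κ : ℝ, 0 < κ ∧ ∀ ε : ℝ, 0 < ε → ∃ (C : ℝ) (N₀ : ℕ), ∀ N : ℕ, N₀ ≤ N →
      ∀ (A : Finset ℕ) (α : ℝ), A ⊆ Icc 1 N → 0 < α → Real.log N ^ (-(1 - ε)) ≤ α → α * N ≤ A.card →
      Real.exp (-(C * α ^ (-(1 + ε)))) * N ^ 2 / Real.log N ^ (Fintype.card ι) ≤
        (((A ×ˢ A).filter (fun a => Gd f ((N : ℝ) ^ κ) ((a.2 : ℤ) - a.1))).card : ℝ) := by
  obtain ⟨B, w₀, C, hC, hcl⟩ := class_lower f hf h0
  obtain ⟨G, hG⟩ := few_units f hf
  obtain ⟨v, Cv, hv, _, hV⟩ := V_bounds f hf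
  obtain ⟨k, hk⟩ : ∃ k, k = Fintype.card ι := ⟨_, rfl⟩
  rw [← hk] at hV ⊢
  obtain ⟨E, hE⟩ : ∃ E, E = 4 * B + 6 := ⟨_, rfl⟩
  rw [← hE] at hcl
  have hE0 : (0 : ℝ) < E := by
    rw [hE]
    positivity
  obtain ⟨κ, hκ⟩ : ∃ κ : ℝ, κ = 1 / (8 * E) := ⟨_, rfl⟩
  have hκ0 : 0 < κ := by rw [hκ]; positivity
  have hκ1 : κ ≤ 1 := by
    rw [hκ, div_le_one (by positivity)]
    have : (1 : ℝ) ≤ E := by
      rw [hE]
      exact_mod_cast (by omega : 1 ≤ 4 * B + 6)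
    linarith
  have hV' : ∀ y : ℕ, 3 ≤ y → v / Real.log y ^ k ≤ Vq (Q f) y := fun y hy => (hV y hy).1
  refine ⟨κ, hκ0, ?_⟩
  -- it is enough to treat `ε ≤ 1/2`
  suffices hs : ∀ ε : ℝ, 0 < ε → ε ≤ 1 / 2 → ∃ (C : ℝ) (N₀ : ℕ), 0 ≤ C ∧ ∀ N : ℕ, N₀ ≤ N →
      ∀ (A : Finset ℕ) (α : ℝ), A ⊆ Icc 1 N → 0 < α → Real.log N ^ (-(1 - ε)) ≤ α → α * N ≤ A.card →
      α ≤ 1 ∧ Real.exp (-(C * α ^ (-(1 + ε)))) * N ^ 2 / Real.log N ^ k ≤
        (((A ×ˢ A).filter (fun a => Gd f ((N : ℝ) ^ κ) ((a.2 : ℤ) - a.1))).card : ℝ) by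
    intro ε hε
    obtain ⟨e, he⟩ : ∃ e : ℝ, e = min ε (1 / 2) := ⟨_, rfl⟩
    obtain ⟨C', N₀, hC', h1⟩ := hs e (by rw [he]; exact lt_min hε (by norm_num))
      (by rw [he]; exact min_le_right _ _)
    refine ⟨C', max N₀ 3, ?_⟩
    intro N hN A α hA hα hαL hcard
    have hee : e ≤ ε := by rw [he]; exact min_le_left _ _
    have hL1 : 1 ≤ Real.log N := by
      have h2 : (3 : ℝ) ≤ N := by exact_mod_cast (le_max_right N₀ 3).trans hN
      have h3 : Real.exp 1 ≤ N := by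
        have := Real.exp_one_lt_d9
        linarith
      rw [Real.le_log_iff_exp_le (by linarith)]
      exact h3
    have h4 : Real.log N ^ (-(1 - e)) ≤ α :=
      le_trans (Real.rpow_le_rpow_of_exponent_le hL1 (by linarith)) hαL
    obtain ⟨h5, h6⟩ := h1 N ((le_max_left _ _).trans hN) A α hA hα h4 hcard
    refine le_trans ?_ h6
    have h7 : α ^ (-(1 + e)) ≤ α ^ (-(1 + ε)) :=
      Real.rpow_le_rpow_of_exponent_ge hα h5 (by linarith)
    have h8 : C' * α ^ (-(1 + e)) ≤ C' * α ^ (-(1 + ε)) := mul_le_mul_of_nonneg_left h7 hC'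
    have h9 : Real.exp (-(C' * α ^ (-(1 + ε)))) ≤ Real.exp (-(C' * α ^ (-(1 + e)))) := by
      apply Real.exp_le_exp.2
      linarith
    gcongr
  intro ε hε hε1
  obtain ⟨K, hK1, hKw⟩ := choose_w w₀ C ε hε hε1
  obtain ⟨C₀, hC₀⟩ : ∃ C₀ : ℝ, C₀ = max 0 (Real.log (32 / v)) := ⟨_, rfl⟩
  have hC₀0 : 0 ≤ C₀ := by rw [hC₀]; exact le_max_left _ _
  have hC₀1 : Real.exp (-C₀) ≤ v / 32 := by
    have h1 : Real.log (32 / v) ≤ C₀ := by rw [hC₀]; exact le_max_right _ _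
    calc Real.exp (-C₀) ≤ Real.exp (-Real.log (32 / v)) := Real.exp_le_exp.2 (by linarith)
      _ = v / 32 := by
          rw [Real.exp_neg, Real.exp_log (by positivity), inv_div]
  have t3 : Tendsto (fun N : ℕ => (N : ℝ) ^ κ) atTop atTop :=
    (tendsto_rpow_atTop hκ0).comp tendsto_natCast_atTop_atTop
  have t1 : Tendsto (fun N : ℕ => (Real.log N) ^ (ε ^ 2)) atTop atTop :=
    (tendsto_rpow_atTop (by positivity)).comp tendsto_log_nat
  have t4 := tendsto_rpow_div_log_pow (3 / 4) (by norm_num) (k + 2)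
  have hev := ((((t1.eventually_ge_atTop (16 * K)).and (t3.eventually_ge_atTop 3)).and
    (t4.eventually_ge_atTop (32 * G / v))).and (eventually_ge_atTop 16)).and
    (tendsto_log_nat.eventually_ge_atTop 1)
  obtain ⟨N₀, hN₀⟩ := eventually_atTop.1 hev
  refine ⟨4 * K + 2 + C₀, N₀, by linarith, ?_⟩
  intro N hN A α hA hα hαL hcard
  obtain ⟨⟨⟨⟨g1, g2⟩, g3⟩, g4⟩, g5⟩ := hN₀ N hN
  have hN0 : (0 : ℝ) < N := by exact_mod_cast (by omega : 0 < N)
  have hAN : (A.card : ℝ) ≤ N := by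
    have := card_le_card hA
    rw [Nat.card_Icc, Nat.add_sub_cancel] at this
    exact_mod_cast this
  have hα1 : α ≤ 1 := by
    have := hcard.trans hAN
    by_contra hcon
    push Not at hcon
    nlinarith
  refine ⟨hα1, ?_⟩
  obtain ⟨w, w1, w2, w3, w4⟩ := hKw α hα hα1
  obtain ⟨L, hL⟩ : ∃ L, L = Real.log N := ⟨_, rfl⟩
  rw [← hL] at g1 g3 g5 hαL
  have hL0 : 0 < L := by linarith
  obtain ⟨τ, hτ⟩ : ∃ τ, τ = α ^ (-(1 + ε)) := ⟨_, rfl⟩
  rw [← hτ] at w2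
  have hτ1 : 1 ≤ τ := by
    rw [hτ]
    exact Real.one_le_rpow_of_pos_of_le_one_of_nonpos hα hα1 (by linarith)
  have hτL : τ ≤ L ^ (1 - ε ^ 2) := by
    calc τ = α ^ (-(1 + ε)) := hτ
      _ ≤ (L ^ (-(1 - ε))) ^ (-(1 + ε)) :=
          Real.rpow_le_rpow_of_nonpos (by positivity) hαL (by linarith)
      _ = L ^ (1 - ε ^ 2) := by
          rw [← Real.rpow_mul hL0.le]
          congr 1
          ring
  have hwL : (w : ℝ) ≤ Real.log N / 8 := by
    rw [← hL]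
    have h1 : L ^ (1 - ε ^ 2) * L ^ (ε ^ 2) = L := by
      rw [← Real.rpow_add hL0, sub_add_cancel, Real.rpow_one]
    have h2 : 0 < L ^ (1 - ε ^ 2) := by positivity
    have h3 : L ^ (1 - ε ^ 2) * (16 * K) ≤ L := by
      calc L ^ (1 - ε ^ 2) * (16 * K) ≤ L ^ (1 - ε ^ 2) * L ^ (ε ^ 2) :=
            mul_le_mul_of_nonneg_left g1 h2.le
        _ = L := h1
    have h4 : 2 * K * τ ≤ 2 * K * L ^ (1 - ε ^ 2) := mul_le_mul_of_nonneg_left hτL (by linarith)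
    linarith
  have hσ2 : 1 / 2 ≤ 1 / (1 + ε) := by
    rw [div_le_div_iff₀ (by norm_num) (by linarith)]
    linarith
  have hσ3 : 1 / (1 + ε) ≤ 1 := by
    rw [div_le_one (by linarith)]
    linarith
  obtain ⟨z, z1, z2, z3⟩ := unif_rg f w₀ E k C v κ hcl hv hE0 hκ hκ0 hκ1 hV' N w A α (1 / (1 + ε))
    hα hA hcard g4 g2 w1 hwL hσ2 hσ3 w3 w4
  rw [← hL] at z3 hwL ⊢
  have h4w : (4 : ℝ) ^ w ≤ Real.exp (2 * w) := by
    have h2 : (4 : ℝ) ≤ Real.exp 2 := by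
      have := Real.exp_one_gt_d9
      have h3 : Real.exp 2 = Real.exp 1 * Real.exp 1 := by
        rw [← Real.exp_add]
        norm_num
      rw [h3]
      nlinarith
    calc (4 : ℝ) ^ w ≤ (Real.exp 2) ^ w := pow_le_pow_left₀ (by norm_num) h2 w
      _ = Real.exp (w * 2) := by rw [← Real.exp_nat_mul]
      _ = Real.exp (2 * w) := by rw [mul_comm]
  have h4N : (4 : ℝ) ^ w ≤ (N : ℝ) ^ (1 / 4 : ℝ) := by
    refine h4w.trans ?_
    rw [Real.rpow_def_of_pos hN0, ← hL]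
    apply Real.exp_le_exp.2
    linarith
  -- the exceptional pairs
  have hexc : (G : ℝ) * A.card ≤ v / L ^ k * (α ^ 2 * N ^ 2 / (32 * 4 ^ w)) := by
    rw [div_le_iff₀ hv] at g3
    have h1 : 1 ≤ L ^ 2 * α ^ 2 := by
      have h2 : L⁻¹ ≤ α := by
        calc L⁻¹ = L ^ (-1 : ℝ) := by rw [Real.rpow_neg_one]
          _ ≤ L ^ (-(1 - ε)) := Real.rpow_le_rpow_of_exponent_le g5 (by linarith)
          _ ≤ α := hαL
      have h3 : 1 ≤ L * α := by
        rw [inv_le_iff_one_le_mul₀ hL0] at h2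
        linarith
      nlinarith
    have h5 : (N : ℝ) ^ (3 / 4 : ℝ) * 4 ^ w ≤ N := by
      calc (N : ℝ) ^ (3 / 4 : ℝ) * 4 ^ w ≤ (N : ℝ) ^ (3 / 4 : ℝ) * (N : ℝ) ^ (1 / 4 : ℝ) :=
            mul_le_mul_of_nonneg_left h4N (by positivity)
        _ = N := by
            rw [← Real.rpow_add hN0]
            norm_num
    have h6 : (N : ℝ) ^ (3 / 4 : ℝ) ≤ N / 4 ^ w := by
      rw [le_div_iff₀ (by positivity)]
      exact h5
    calc (G : ℝ) * A.card ≤ G * N := mul_le_mul_of_nonneg_left hAN (by positivity)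
      _ = (32 * G) * N / 32 := by ring
      _ ≤ ((N : ℝ) ^ (3 / 4 : ℝ) / L ^ (k + 2) * v) * N / 32 := by
          have := mul_le_mul_of_nonneg_right g3 hN0.le
          linarith
      _ ≤ ((N : ℝ) / 4 ^ w / L ^ (k + 2) * v) * N / 32 * (L ^ 2 * α ^ 2) := by
          have h7 : ((N : ℝ) ^ (3 / 4 : ℝ) / L ^ (k + 2) * v) * N / 32 ≤
              ((N : ℝ) / 4 ^ w / L ^ (k + 2) * v) * N / 32 := by gcongr
          have h8 : 0 ≤ ((N : ℝ) / 4 ^ w / L ^ (k + 2) * v) * N / 32 := by positivity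
          calc ((N : ℝ) ^ (3 / 4 : ℝ) / L ^ (k + 2) * v) * N / 32 ≤
                ((N : ℝ) / 4 ^ w / L ^ (k + 2) * v) * N / 32 * 1 := by rw [mul_one]; exact h7
            _ ≤ _ := mul_le_mul_of_nonneg_left h1 h8
      _ = v / L ^ k * (α ^ 2 * N ^ 2 / (32 * 4 ^ w)) := by
          rw [pow_add]
          field_simp
  have hG' := hG A
  have hG'' : (((A ×ˢ A).filter (fun a => ∃ i, (f i).eval ((a.2 : ℤ) - a.1) = 1 ∨
    (f i).eval ((a.2 : ℤ) - a.1) = -1)).card : ℝ) ≤ G * A.card := by exact_mod_cast hG'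
  have hfin : ((A ×ˢ A).filter (fun a => Rg f z a.1 a.2)).card ≤
      ((A ×ˢ A).filter (fun a => Gd f ((N : ℝ) ^ κ) ((a.2 : ℤ) - a.1))).card +
      ((A ×ˢ A).filter (fun a => ∃ i, (f i).eval ((a.2 : ℤ) - a.1) = 1 ∨
        (f i).eval ((a.2 : ℤ) - a.1) = -1)).card := by
    refine le_trans (card_le_card ?_) (card_union_le _ _)
    intro x hx
    rw [mem_filter] at hx
    rw [mem_union, mem_filter, mem_filter]
    by_cases h : ∃ i, (f i).eval ((x.2 : ℤ) - x.1) = 1 ∨ (f i).eval ((x.2 : ℤ) - x.1) = -1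
    · right; exact ⟨hx.1, h⟩
    · left; exact ⟨hx.1, gd_of f z x.1 x.2 (by omega) _ z2 hx.2 h⟩
  have hfin' : (((A ×ˢ A).filter (fun a => Rg f z a.1 a.2)).card : ℝ) ≤
      (((A ×ˢ A).filter (fun a => Gd f ((N : ℝ) ^ κ) ((a.2 : ℤ) - a.1))).card : ℝ) +
      (((A ×ˢ A).filter (fun a => ∃ i, (f i).eval ((a.2 : ℤ) - a.1) = 1 ∨
        (f i).eval ((a.2 : ℤ) - a.1) = -1)).card : ℝ) := by exact_mod_cast hfin
  have e1 : v / L ^ k * (α ^ 2 * N ^ 2 / (16 * 4 ^ w)) = v / L ^ k * (α ^ 2 * N ^ 2 / (32 * 4 ^ w)) +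
      v / L ^ k * (α ^ 2 * N ^ 2 / (32 * 4 ^ w)) := by ring
  have hlow : v / L ^ k * (α ^ 2 * N ^ 2 / (32 * 4 ^ w)) ≤
      (((A ×ˢ A).filter (fun a => Gd f ((N : ℝ) ^ κ) ((a.2 : ℤ) - a.1))).card : ℝ) := by linarith
  refine le_trans ?_ hlow
  rw [← hτ]
  -- the constant
  have hα2 : Real.exp (-(2 * τ)) ≤ α ^ 2 := by
    have h1 : α⁻¹ ≤ τ := by
      calc α⁻¹ = α ^ (-1 : ℝ) := by rw [Real.rpow_neg_one]
        _ ≤ α ^ (-(1 + ε)) := Real.rpow_le_rpow_of_exponent_ge hα hα1 (by linarith)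
        _ = τ := hτ.symm
    have h2 : α⁻¹ ≤ Real.exp τ := by
      have := Real.add_one_le_exp τ
      linarith
    have h3 : (Real.exp τ)⁻¹ ≤ α := by
      rw [inv_le_comm₀ (Real.exp_pos _) hα]
      exact h2
    calc Real.exp (-(2 * τ)) = ((Real.exp τ)⁻¹) ^ 2 := by
          rw [← Real.exp_neg, ← Real.exp_nat_mul]
          congr 1
          push_cast
          ring
      _ ≤ α ^ 2 := pow_le_pow_left₀ (by positivity) h3 2
  have h4w' : Real.exp (-(4 * K * τ)) ≤ ((4 : ℝ) ^ w)⁻¹ := by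
    rw [Real.exp_neg]
    apply inv_anti₀ (by positivity)
    refine h4w.trans (Real.exp_le_exp.2 ?_)
    linarith
  have hv' : Real.exp (-(C₀ * τ)) ≤ v / 32 := by
    refine le_trans (Real.exp_le_exp.2 ?_) hC₀1
    have := mul_le_mul_of_nonneg_left hτ1 hC₀0
    linarith
  have hprod : Real.exp (-((4 * K + 2 + C₀) * τ)) ≤ v / 32 * α ^ 2 * ((4 : ℝ) ^ w)⁻¹ := by
    calc Real.exp (-((4 * K + 2 + C₀) * τ)) =
          Real.exp (-(C₀ * τ)) * Real.exp (-(2 * τ)) * Real.exp (-(4 * K * τ)) := by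
          rw [← Real.exp_add, ← Real.exp_add]
          congr 1
          ring
      _ ≤ _ := by gcongr
  calc Real.exp (-((4 * K + 2 + C₀) * τ)) * N ^ 2 / L ^ k
      ≤ (v / 32 * α ^ 2 * ((4 : ℝ) ^ w)⁻¹) * N ^ 2 / L ^ k := by gcongr
    _ = v / L ^ k * (α ^ 2 * N ^ 2 / (32 * 4 ^ w)) := by
        field_simp

end Pool.Agent.H14.SK
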