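import Pool.Agent.H14.SK.Two
import Pool.Agent.H14.SK.Unif
import Pool.Agent.H14.MS.Mert

/-!
# Positive differences satisfying arbitrary sieve conditions: a uniform quantitative statement (helper14)
-/

set_option autoImplicit false
set_option linter.unusedSectionVars false
set_option linter.deprecated false

namespace Pool.Agent.H14.SK

open Finset Filter Topology
open Pool.Agent.H14.MS (TM TM_per rho_TM_le rho_TM_zero fac_nonneg VP VP_ge rho_le_self)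

open Classical in
/-- the sifting product over the primes in `(u, z]` -/
noncomputable def PV (T : ℕ → ℤ → Prop) (u z : ℕ) : ℝ :=
  ∏ p ∈ (Ioc u z).filter Nat.Prime, (1 - (rho T p : ℝ) / p)

open Classical in
lemma PV_nonneg (T : ℕ → ℤ → Prop) (u z : ℕ) : 0 ≤ PV T u z :=
  prod_nonneg fun p hp => fac_nonneg T p (mem_filter.1 hp).2

open Classical in
lemma PV_anti (T : ℕ → ℤ → Prop) (u z u' z' : ℕ) (h1 : u ≤ u') (h2 : z' ≤ z) : PV T u z ≤ PV T u' z' := by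
  unfold PV
  have hsub : (Ioc u' z').filter Nat.Prime ⊆ (Ioc u z).filter Nat.Prime := by
    intro p hp
    rw [mem_filter, mem_Ioc] at hp ⊢
    exact ⟨⟨by omega, by omega⟩, hp.2⟩
  rw [← prod_sdiff hsub]
  have h3 : ∏ p ∈ (Ioc u z).filter Nat.Prime \ (Ioc u' z').filter Nat.Prime, (1 - (rho T p : ℝ) / p) ≤ 1 := by
    apply prod_le_one
    · intro p hp
      exact fac_nonneg T p (mem_filter.1 (mem_sdiff.1 hp).1).2
    · intro p _
      have : (0 : ℝ) ≤ (rho T p : ℝ) / p := by positivity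
      linarith
  calc _ ≤ 1 * ∏ p ∈ (Ioc u' z').filter Nat.Prime, (1 - (rho T p : ℝ) / p) :=
        mul_le_mul_of_nonneg_right h3 (prod_nonneg fun p hp => fac_nonneg T p (mem_filter.1 hp).2)
    _ = _ := one_mul _

open Classical in
lemma PV_TM (T : ℕ → ℤ → Prop) (hT : ∀ p : ℕ, ∀ n m : ℤ, (p : ℤ) ∣ n - m → (T p n ↔ T p m)) (w z : ℕ) :
    PV T w z ≤ ∏ p ∈ (Ioc w z).filter Nat.Prime, (1 - (rho (TM T (primorial w)) p : ℝ) / p) := by
  unfold PV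
  apply Finset.prod_le_prod
  · intro p hp
    exact fac_nonneg T p (mem_filter.1 hp).2
  · intro p hp
    rw [mem_filter, mem_Ioc] at hp
    have h1 : rho (TM T (primorial w)) p ≤ rho T p := by
      apply rho_TM_le T hT _ p hp.2
      intro h
      have := (Nat.Prime.dvd_primorial_iff hp.2).1 h
      omega
    have h2 : (rho (TM T (primorial w)) p : ℝ) ≤ rho T p := by exact_mod_cast h1
    have h3 := div_le_div_of_nonneg_right h2 (show (0 : ℝ) ≤ p by positivity)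
    linarith

open Classical in
theorem class2 (g : ℕ) : ∃ (B w₀ : ℕ) (C : ℝ), 0 < C ∧ 2 * g ≤ w₀ ∧ ∀ T : ℕ → ℤ → Prop,
    (∀ p : ℕ, ∀ n m : ℤ, (p : ℤ) ∣ n - m → (T p n ↔ T p m)) → (∀ p : ℕ, p.Prime → rho T p ≤ g) →
    ∀ (w z N : ℕ) (A₁ A₂ : Finset ℕ) (σ : ℝ) (r : ℕ), w₀ ≤ w → 1 ≤ z →
      (∀ p : ℕ, p.Prime → p ≤ w → ¬ T p 0) →
      A₁ ⊆ Icc 1 N → A₂ ⊆ Icc 1 N → (∀ a ∈ A₁, a % primorial w = r) → (∀ a ∈ A₂, a % primorial w = r) →
      A₂.card = A₁.card → 4 * (z ^ (4 * B + 6)) ^ 2 ≤ N / primorial w + 1 → 1 / 2 ≤ σ → σ ≤ 1 →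
      C ≤ (w : ℝ) ^ (1 - σ) →
      252 * ((N / primorial w + 1 : ℕ) : ℝ) * (w : ℝ) ^ (-σ) ≤ A₁.card →
      (1 / 2 * PV T w z) * (A₁.card *
        (A₁.card - 252 * ((N / primorial w + 1 : ℕ) : ℝ) * (w : ℝ) ^ (-σ))) ≤
      (((A₁ ×ˢ A₂).filter (fun a => ∀ p : ℕ, p.Prime → p ≤ z → ¬ T p ((a.2 : ℤ) - a.1))).card : ℝ) := by
  obtain ⟨B, C, hC, hmain⟩ := pairs_main2 g
  refine ⟨B, max 3 (2 * g), C, hC, le_max_right _ _, ?_⟩
  intro T hT hρ w z N A₁ A₂ σ r hw hz h0 hA₁ hA₂ hmod₁ hmod₂ hc hz2 hσ hσ1 hCw hcard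
  obtain ⟨W, hW⟩ : ∃ W, W = primorial w := ⟨_, rfl⟩
  have hPT := PV_TM T hT w z
  rw [← hW] at hz2 hcard hmod₁ hmod₂ hPT ⊢
  have hW0 : 0 < W := by rw [hW]; exact primorial_pos w
  have hinj : ∀ A : Finset ℕ, (∀ a ∈ A, a % W = r) → Set.InjOn (fun a => a / W + 1) (A : Set ℕ) := by
    intro A hA a ha b hb hab
    simp only [Nat.add_right_cancel_iff] at hab
    have e1 := Nat.div_add_mod a W
    have e2 := Nat.div_add_mod b W
    rw [hA a ha] at e1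
    rw [hA b hb] at e2
    rw [← e1, ← e2, hab]
  have himg : ∀ A : Finset ℕ, A ⊆ Icc 1 N → A.image (fun a => a / W + 1) ⊆ Icc 1 (N / W + 1) := by
    intro A hA x hx
    rw [mem_image] at hx
    obtain ⟨a, ha, rfl⟩ := hx
    rw [mem_Icc]
    exact ⟨Nat.le_add_left 1 _, Nat.add_le_add_right (Nat.div_le_div_right (mem_Icc.1 (hA ha)).2) 1⟩
  obtain ⟨B₁, hB₁⟩ : ∃ B₁, B₁ = A₁.image (fun a => a / W + 1) := ⟨_, rfl⟩
  obtain ⟨B₂, hB₂⟩ : ∃ B₂, B₂ = A₂.image (fun a => a / W + 1) := ⟨_, rfl⟩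
  have hB₁c : B₁.card = A₁.card := by rw [hB₁]; exact card_image_of_injOn (hinj A₁ hmod₁)
  have hB₂c : B₂.card = A₂.card := by rw [hB₂]; exact card_image_of_injOn (hinj A₂ hmod₂)
  have hB₁M : B₁ ⊆ Icc 1 (N / W + 1) := by rw [hB₁]; exact himg A₁ hA₁
  have hB₂M : B₂ ⊆ Icc 1 (N / W + 1) := by rw [hB₂]; exact himg A₂ hA₂
  have hρ' : ∀ p : ℕ, p.Prime → rho (TM T W) p ≤ g := by
    intro p hp
    by_cases hpW : p ∣ W
    · rw [rho_TM_zero T hT W p hpW (h0 p hp (by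
        rw [hW] at hpW
        exact (Nat.Prime.dvd_primorial_iff hp).1 hpW))]
      exact Nat.zero_le _
    · exact (rho_TM_le T hT W p hp hpW).trans (hρ p hp)
  have h1 := hmain (TM T W) (TM_per T hT W) hρ' w z (N / W + 1) B₁ B₂ σ
    ((le_max_left _ _).trans hw) ((le_max_right _ _).trans hw) hz hB₁M hB₂M (by rw [hB₁c, hB₂c, hc])
    hz2 hσ hσ1 hCw (by rw [hB₁c]; exact hcard)
  rw [hB₁c] at h1
  have h2 : ((B₁ ×ˢ B₂).filter (fun a => Sft (TM T W) w z ((a.2 : ℤ) - a.1))).card ≤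
      ((A₁ ×ˢ A₂).filter (fun a => ∀ p : ℕ, p.Prime → p ≤ z → ¬ T p ((a.2 : ℤ) - a.1))).card := by
    apply card_le_card_of_injOn (fun a => (W * (a.1 - 1) + r, W * (a.2 - 1) + r))
    · rintro ⟨x, y⟩ hxy
      simp only [coe_filter, Set.mem_setOf_eq, mem_product] at hxy ⊢
      obtain ⟨⟨hx, hy⟩, hs⟩ := hxy
      rw [hB₁, mem_image] at hx
      rw [hB₂, mem_image] at hy
      obtain ⟨a, ha, rfl⟩ := hx
      obtain ⟨b, hb, rfl⟩ := hy
      have e1 := Nat.div_add_mod a W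
      have e2 := Nat.div_add_mod b W
      rw [hmod₁ a ha] at e1
      rw [hmod₂ b hb] at e2
      simp only [Nat.add_sub_cancel]
      rw [e1, e2]
      refine ⟨⟨ha, hb⟩, ?_⟩
      intro p hp hpz
      have hdiff : (b : ℤ) - a = (W : ℤ) * (((b / W + 1 : ℕ) : ℤ) - ((a / W + 1 : ℕ) : ℤ)) := by
        have e1' : (W : ℤ) * ((a / W : ℕ) : ℤ) + r = a := by exact_mod_cast e1
        have e2' : (W : ℤ) * ((b / W : ℕ) : ℤ) + r = b := by exact_mod_cast e2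
        rw [Nat.cast_add, Nat.cast_add, Nat.cast_one]
        linear_combination e1' - e2'
      by_cases hpw : p ≤ w
      · intro h4
        apply h0 p hp hpw
        refine (hT p _ _ ?_).1 h4
        rw [sub_zero, hdiff]
        apply Dvd.dvd.mul_right
        have h3 : p ∣ W := by
          rw [hW]
          exact (Nat.Prime.dvd_primorial_iff hp).2 hpw
        exact_mod_cast h3
      · intro h4
        apply hs p hp (by omega) hpz
        unfold TM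
        rw [← hdiff]
        exact h4
    · rintro ⟨x, y⟩ hxy ⟨x', y'⟩ hxy' h
      simp only [coe_filter, Set.mem_setOf_eq, mem_product] at hxy hxy'
      simp only [Prod.mk.injEq, Nat.add_right_cancel_iff, Nat.mul_right_inj hW0.ne'] at h
      have q1 := (mem_Icc.1 (hB₁M hxy.1.1)).1
      have q2 := (mem_Icc.1 (hB₂M hxy.1.2)).1
      have q3 := (mem_Icc.1 (hB₁M hxy'.1.1)).1
      have q4 := (mem_Icc.1 (hB₂M hxy'.1.2)).1
      simp only [Prod.mk.injEq]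
      omega
  have h3 : (1 / 2 * PV T w z) * ((A₁.card : ℝ) *
      (A₁.card - 252 * ((N / W + 1 : ℕ) : ℝ) * (w : ℝ) ^ (-σ))) ≤
      (1 / 2 * ∏ p ∈ (Ioc w z).filter Nat.Prime, (1 - (rho (TM T W) p : ℝ) / p)) *
        (A₁.card * (A₁.card - 252 * ((N / W + 1 : ℕ) : ℝ) * (w : ℝ) ^ (-σ))) := by
    apply mul_le_mul_of_nonneg_right
    · linarith
    · apply mul_nonneg (Nat.cast_nonneg _)
      linarith
  refine h3.trans (h1.trans ?_)
  exact_mod_cast h2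

/-- the first `k` elements of a set -/
lemma exists_lower (S : Finset ℕ) (k : ℕ) (hk : k ≤ S.card) :
    ∃ S₁ ⊆ S, S₁.card = k ∧ ∀ a ∈ S₁, ∀ b ∈ S \ S₁, a < b := by
  induction k with
  | zero => exact ⟨∅, by simp, by simp, by simp⟩
  | succ k ih =>
    obtain ⟨S₁, h1, h2, h3⟩ := ih (by omega)
    have hne : (S \ S₁).Nonempty := by
      rw [← card_pos, card_sdiff_of_subset h1]
      omega
    obtain ⟨m, hm⟩ : ∃ m, m = (S \ S₁).min' hne := ⟨_, rfl⟩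
    have hm1 : m ∈ S \ S₁ := by rw [hm]; exact min'_mem _ _
    have hm2 := mem_sdiff.1 hm1
    refine ⟨insert m S₁, ?_, ?_, ?_⟩
    · intro x hx
      rw [mem_insert] at hx
      rcases hx with rfl | hx
      · exact hm2.1
      · exact h1 hx
    · rw [card_insert_of_notMem hm2.2, h2]
    · intro a ha b hb
      have hb0 := Finset.mem_sdiff.1 hb
      have hbs := hb0.1
      have hb1 : b ≠ m ∧ b ∉ S₁ := by
        have := hb0.2
        rw [mem_insert, not_or] at this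
        exact this
      have hb' : b ∈ S \ S₁ := Finset.mem_sdiff.2 ⟨hbs, hb1.2⟩
      rw [mem_insert] at ha
      rcases ha with rfl | ha
      · have h5 : a ≤ b := by rw [hm]; exact min'_le _ _ hb'
        have h6 := hb1.1
        omega
      · exact h3 a ha b hb'

/-- two sets of half the size, one to the left of the other -/
lemma exists_halves (S : Finset ℕ) :
    ∃ S₁ ⊆ S, ∃ S₂ ⊆ S, S₁.card = S.card / 2 ∧ S₂.card = S₁.card ∧ ∀ a ∈ S₁, ∀ b ∈ S₂, a < b := by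
  obtain ⟨S₁, h1, h2, h3⟩ := exists_lower S (S.card / 2) (Nat.div_le_self _ _)
  obtain ⟨S₂, h4, h5⟩ := exists_subset_card_eq (s := S \ S₁) (n := S.card / 2) (by
    rw [card_sdiff_of_subset h1]
    omega)
  exact ⟨S₁, h1, S₂, h4.trans sdiff_subset, h2, by omega, fun a ha b hb => h3 a ha b (h4 hb)⟩

/-- the sieving level `z = ⌊N ^ κ⌋` -/
lemma zfacts2 (κ : ℝ) (E : ℕ) (hE0 : (0 : ℝ) < E) (hκ : κ = 1 / (8 * E)) (hκ1 : κ ≤ 1) :
    ∀ N W : ℕ, 16 ≤ N → 0 < W → (W : ℝ) ≤ (N : ℝ) ^ (1 / 4 : ℝ) → 3 ≤ (N : ℝ) ^ κ →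
      ∃ z : ℕ, 3 ≤ z ∧ z ≤ N ∧ (N : ℝ) ^ κ < z + 1 ∧ 4 * (z ^ E) ^ 2 ≤ N / W + 1 := by
  intro N W hN hW hWN hN3
  have hN0 : (0 : ℝ) < N := by exact_mod_cast (by omega : 0 < N)
  have hN1 : (1 : ℝ) < N := by exact_mod_cast (by omega : 1 < N)
  refine ⟨⌊(N : ℝ) ^ κ⌋₊, ?_, ?_, Nat.lt_floor_add_one _, ?_⟩
  · apply Nat.le_floor
    exact_mod_cast hN3
  · have h2 : ((⌊(N : ℝ) ^ κ⌋₊ : ℕ) : ℝ) ≤ N := by
      calc ((⌊(N : ℝ) ^ κ⌋₊ : ℕ) : ℝ) ≤ (N : ℝ) ^ κ := Nat.floor_le (by positivity)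
        _ ≤ (N : ℝ) ^ (1 : ℝ) := Real.rpow_le_rpow_of_exponent_le hN1.le hκ1
        _ = N := Real.rpow_one _
    exact_mod_cast h2
  · have h2 : (((⌊(N : ℝ) ^ κ⌋₊ : ℕ) : ℝ) ^ E) ^ 2 ≤ (N : ℝ) ^ (1 / 4 : ℝ) := by
      have h1 : ((⌊(N : ℝ) ^ κ⌋₊ : ℕ) : ℝ) ≤ (N : ℝ) ^ κ := Nat.floor_le (by positivity)
      calc (((⌊(N : ℝ) ^ κ⌋₊ : ℕ) : ℝ) ^ E) ^ 2 ≤ (((N : ℝ) ^ κ) ^ E) ^ 2 := by gcongr
        _ = (N : ℝ) ^ (1 / 4 : ℝ) := by
            rw [← pow_mul, ← Real.rpow_natCast, ← Real.rpow_mul hN0.le]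
            congr 1
            rw [hκ]
            push_cast
            field_simp
            norm_num
    have h3 : (4 : ℝ) ≤ (N : ℝ) ^ (1 / 2 : ℝ) := by
      calc (4 : ℝ) = (16 : ℝ) ^ (1 / 2 : ℝ) := by
            rw [show (16 : ℝ) = 4 ^ (2 : ℝ) by norm_num, ← Real.rpow_mul (by norm_num)]
            norm_num
        _ ≤ (N : ℝ) ^ (1 / 2 : ℝ) := by
            apply Real.rpow_le_rpow (by norm_num) _ (by norm_num)
            exact_mod_cast hN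
    have h4 : (N : ℝ) ^ (3 / 4 : ℝ) ≤ N / W := by
      rw [le_div_iff₀ (by exact_mod_cast hW)]
      calc (N : ℝ) ^ (3 / 4 : ℝ) * W ≤ (N : ℝ) ^ (3 / 4 : ℝ) * (N : ℝ) ^ (1 / 4 : ℝ) :=
            mul_le_mul_of_nonneg_left hWN (by positivity)
        _ = N := by
            rw [← Real.rpow_add hN0]
            norm_num
    have h5 : (N : ℝ) / W < ((N / W + 1 : ℕ) : ℝ) := by
      rw [div_lt_iff₀ (by exact_mod_cast hW)]
      have h6 : N < (N / W + 1) * W := by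
        have := Nat.div_add_mod N W
        have h7 := Nat.mod_lt N hW
        nlinarith
      exact_mod_cast h6
    have h8 : (4 : ℝ) * (((⌊(N : ℝ) ^ κ⌋₊ : ℕ) : ℝ) ^ E) ^ 2 ≤ ((N / W + 1 : ℕ) : ℝ) := by
      calc (4 : ℝ) * (((⌊(N : ℝ) ^ κ⌋₊ : ℕ) : ℝ) ^ E) ^ 2 ≤
            (N : ℝ) ^ (1 / 2 : ℝ) * (N : ℝ) ^ (1 / 4 : ℝ) :=
            mul_le_mul h3 h2 (by positivity) (by positivity)
        _ = (N : ℝ) ^ (3 / 4 : ℝ) := by
            rw [← Real.rpow_add hN0]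
            norm_num
        _ ≤ _ := h4.trans h5.le
    exact_mod_cast h8

/-- the pairs with good positive difference -/
def GP (T : ℕ → ℤ → Prop) (z : ℕ) (a : ℕ × ℕ) : Prop :=
  a.1 < a.2 ∧ ∀ p : ℕ, p.Prime → p ≤ z → ¬ T p ((a.2 : ℤ) - a.1)

lemma four_pow_le (w : ℕ) : (4 : ℝ) ^ w ≤ Real.exp (2 * w) := by
  have h2 : (4 : ℝ) ≤ Real.exp 2 := by
    have := Real.exp_one_gt_d9
    have h3 : Real.exp 2 = Real.exp 1 * Real.exp 1 := by
      rw [← Real.exp_add]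
      norm_num
    rw [h3]
    nlinarith
  calc (4 : ℝ) ^ w ≤ (Real.exp 2) ^ w := pow_le_pow_left₀ (by norm_num) h2 w
    _ = Real.exp (w * 2) := by rw [← Real.exp_nat_mul]
    _ = Real.exp (2 * w) := by rw [mul_comm]

open Classical in
/-- the pairs in `A` whose difference is positive and sifted -/
lemma unif_rg2 (w₀ E : ℕ) (C κ : ℝ) (T : ℕ → ℤ → Prop)
    (hcl : ∀ (w z N : ℕ) (A₁ A₂ : Finset ℕ) (σ : ℝ) (r : ℕ), w₀ ≤ w → 1 ≤ z →
      (∀ p : ℕ, p.Prime → p ≤ w → ¬ T p 0) →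
      A₁ ⊆ Icc 1 N → A₂ ⊆ Icc 1 N → (∀ a ∈ A₁, a % primorial w = r) → (∀ a ∈ A₂, a % primorial w = r) →
      A₂.card = A₁.card → 4 * (z ^ E) ^ 2 ≤ N / primorial w + 1 → 1 / 2 ≤ σ → σ ≤ 1 →
      C ≤ (w : ℝ) ^ (1 - σ) →
      252 * ((N / primorial w + 1 : ℕ) : ℝ) * (w : ℝ) ^ (-σ) ≤ A₁.card →
      (1 / 2 * PV T w z) * (A₁.card *
        (A₁.card - 252 * ((N / primorial w + 1 : ℕ) : ℝ) * (w : ℝ) ^ (-σ))) ≤
      (((A₁ ×ˢ A₂).filter (fun a => ∀ p : ℕ, p.Prime → p ≤ z → ¬ T p ((a.2 : ℤ) - a.1))).card : ℝ))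
    (hE0 : (0 : ℝ) < E) (hκ : κ = 1 / (8 * E)) (hκ1 : κ ≤ 1)
    (N w : ℕ) (A : Finset ℕ) (α σ : ℝ) (hα : 0 < α) (hA : A ⊆ Icc 1 N) (hcard : α * N ≤ A.card)
    (g4 : 16 ≤ N) (g2 : 3 ≤ (N : ℝ) ^ κ) (hw1 : w₀ ≤ w) (hwL : (w : ℝ) ≤ Real.log N / 8)
    (hbig : 8 * 4 ^ w ≤ α * N) (h0 : ∀ p : ℕ, p.Prime → p ≤ w → ¬ T p 0)
    (hσ : 1 / 2 ≤ σ) (hσ1 : σ ≤ 1) (hCw : C ≤ (w : ℝ) ^ (1 - σ)) (hwσ : (w : ℝ) ^ (-σ) ≤ α / 4032) :
    ∃ z : ℕ, 3 ≤ z ∧ z ≤ N ∧ (N : ℝ) ^ κ < z + 1 ∧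
      PV T w z * (α ^ 2 * N ^ 2 / (256 * 4 ^ w)) ≤ (((A ×ˢ A).filter (fun a => GP T z a)).card : ℝ) := by
  obtain ⟨L, hL⟩ : ∃ L, L = Real.log N := ⟨_, rfl⟩
  rw [← hL] at hwL
  have hN0 : (0 : ℝ) < N := by exact_mod_cast (by omega : 0 < N)
  have hL0 : 0 < L := by rw [hL]; exact Real.log_pos (by exact_mod_cast (by omega : 1 < N))
  obtain ⟨W, hW⟩ : ∃ W, W = primorial w := ⟨_, rfl⟩
  have hW0 : 0 < W := by rw [hW]; exact primorial_pos w
  have hW0r : (0 : ℝ) < W := by exact_mod_cast hW0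
  have hW4 : (W : ℝ) ≤ 4 ^ w := by
    rw [hW]
    exact_mod_cast primorial_le_four_pow w
  have g1 : (W : ℝ) ≤ (N : ℝ) ^ (1 / 4 : ℝ) := by
    refine hW4.trans ((four_pow_le w).trans ?_)
    calc Real.exp (2 * w) ≤ Real.exp (L * (1 / 4)) := by
          apply Real.exp_le_exp.2
          linarith
      _ = (N : ℝ) ^ (1 / 4 : ℝ) := by rw [Real.rpow_def_of_pos hN0, hL]
  have g5 : W ≤ N := by
    have h1 : (W : ℝ) ≤ N := by
      calc (W : ℝ) ≤ (N : ℝ) ^ (1 / 4 : ℝ) := g1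
        _ ≤ (N : ℝ) ^ (1 : ℝ) := Real.rpow_le_rpow_of_exponent_le
            (by exact_mod_cast (by omega : 1 ≤ N)) (by norm_num)
        _ = N := Real.rpow_one _
    exact_mod_cast h1
  obtain ⟨z, z1, z2, z3, z4⟩ := zfacts2 κ E hE0 hκ hκ1 N W g4 hW0 g1 g2
  refine ⟨z, z1, z2, z3, ?_⟩
  have hV0 : 0 ≤ PV T w z := PV_nonneg T w z
  obtain ⟨nr, hnr⟩ : ∃ nr : ℕ → ℝ, nr = fun r => ((Ac A W r).card : ℝ) := ⟨_, rfl⟩
  have hnr0 : ∀ r, 0 ≤ nr r := fun r => by rw [hnr]; positivity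
  obtain ⟨R, hR⟩ : ∃ R, R = (range W).filter (fun r => α * N / (2 * W) ≤ nr r) := ⟨_, rfl⟩
  have hsum : ∑ r ∈ range W, nr r = A.card := by
    rw [hnr, ← Nat.cast_sum, sum_Ac A W hW0]
  have hsumR : α * N / 2 ≤ ∑ r ∈ R, nr r := by
    have h1 : ∑ r ∈ range W, nr r = ∑ r ∈ R, nr r +
        ∑ r ∈ (range W).filter (fun r => ¬ α * N / (2 * W) ≤ nr r), nr r := by
      rw [hR, sum_filter_add_sum_filter_not]
    have h2 : ∑ r ∈ (range W).filter (fun r => ¬ α * N / (2 * W) ≤ nr r), nr r ≤ α * N / 2 := by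
      calc ∑ r ∈ (range W).filter (fun r => ¬ α * N / (2 * W) ≤ nr r), nr r
          ≤ ∑ r ∈ (range W).filter (fun r => ¬ α * N / (2 * W) ≤ nr r), α * N / (2 * W) := by
            apply sum_le_sum
            intro r hr
            exact (not_le.1 (mem_filter.1 hr).2).le
        _ ≤ ∑ r ∈ range W, α * N / (2 * W) :=
            sum_le_sum_of_subset_of_nonneg (filter_subset _ _) fun _ _ _ => by positivity
        _ = α * N / 2 := by
            rw [sum_const, card_range, nsmul_eq_mul]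
            field_simp
    rw [hsum] at h1
    linarith
  have hsq : (α * N / 2) ^ 2 ≤ W * ∑ r ∈ R, nr r ^ 2 := by
    have h1 := sq_sum_le_card_mul_sum_sq (s := R) (f := nr)
    have h2 : (R.card : ℝ) ≤ W := by
      have : R.card ≤ W := by
        rw [hR]
        exact (card_filter_le _ _).trans (card_range W).le
      exact_mod_cast this
    have h3 : 0 ≤ ∑ r ∈ R, nr r ^ 2 := sum_nonneg fun _ _ => by positivity
    calc (α * N / 2) ^ 2 ≤ (∑ r ∈ R, nr r) ^ 2 := by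
          apply pow_le_pow_left₀ (by positivity) hsumR
      _ ≤ R.card * ∑ r ∈ R, nr r ^ 2 := h1
      _ ≤ W * ∑ r ∈ R, nr r ^ 2 := mul_le_mul_of_nonneg_right h2 h3
  have hcls : ∀ r ∈ R, PV T w z * nr r ^ 2 / 64 ≤
      (((Ac A W r ×ˢ Ac A W r).filter (fun a => GP T z a)).card : ℝ) := by
    intro r hr
    rw [hR, mem_filter] at hr
    obtain ⟨S₁, hS₁, S₂, hS₂, hc1, hc2, hlt⟩ := exists_halves (Ac A W r)
    have hn4 : 4 ≤ nr r := by
      refine le_trans ?_ hr.2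
      rw [le_div_iff₀ (by positivity)]
      have : (W : ℝ) * 8 ≤ 4 ^ w * 8 := by gcongr
      linarith
    have hk : 3 / 8 * nr r ≤ S₁.card := by
      have h4 : nr r = ((Ac A W r).card : ℝ) := by rw [hnr]
      have h5 : (Ac A W r).card ≤ 2 * S₁.card + 1 := by omega
      have h6 : ((Ac A W r).card : ℝ) ≤ 2 * S₁.card + 1 := by exact_mod_cast h5
      rw [← h4] at h6
      linarith
    have hsm : 252 * ((N / W + 1 : ℕ) : ℝ) * (w : ℝ) ^ (-σ) ≤ nr r / 4 := by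
      have h1 := hMle N W hW0 g5
      have h2 : (0 : ℝ) ≤ N / W := by positivity
      calc 252 * ((N / W + 1 : ℕ) : ℝ) * (w : ℝ) ^ (-σ)
          ≤ 252 * (2 * (N / W)) * (α / 4032) := by
            apply mul_le_mul _ hwσ (by positivity) (by positivity)
            linarith
        _ = α * N / (2 * W) / 4 := by
            field_simp
            norm_num
        _ ≤ nr r / 4 := by linarith [hr.2]
    have hsubA : ∀ S ⊆ Ac A W r, S ⊆ Icc 1 N := fun S hS x hx => hA (mem_filter.1 (hS hx)).1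
    have hmodA : ∀ S ⊆ Ac A W r, ∀ a ∈ S, a % W = r := fun S hS x hx => (mem_filter.1 (hS hx)).2
    have hpairs := hcl w z N S₁ S₂ σ r hw1 (by omega) h0 (hsubA S₁ hS₁) (hsubA S₂ hS₂)
      (by rw [← hW]; exact hmodA S₁ hS₁) (by rw [← hW]; exact hmodA S₂ hS₂) hc2
      (by rw [← hW]; exact z4) hσ hσ1 hCw (by
        rw [← hW]
        have h3 := hnr0 r
        linarith)
    rw [← hW] at hpairs
    have hle : (((S₁ ×ˢ S₂).filter (fun a => ∀ p : ℕ, p.Prime → p ≤ z → ¬ T p ((a.2 : ℤ) - a.1))).card : ℝ) ≤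
        (((Ac A W r ×ˢ Ac A W r).filter (fun a => GP T z a)).card : ℝ) := by
      apply Nat.cast_le.2
      apply card_le_card
      intro x hx
      rw [mem_filter, mem_product] at hx
      rw [mem_filter, mem_product]
      exact ⟨⟨hS₁ hx.1.1, hS₂ hx.1.2⟩, hlt _ hx.1.1 _ hx.1.2, hx.2⟩
    refine le_trans ?_ (hpairs.trans hle)
    have h3 := hnr0 r
    have h5 : nr r / 8 ≤ S₁.card - 252 * ((N / W + 1 : ℕ) : ℝ) * (w : ℝ) ^ (-σ) := by linarith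
    have h6 : 3 / 8 * nr r * (nr r / 8) ≤ S₁.card *
        (S₁.card - 252 * ((N / W + 1 : ℕ) : ℝ) * (w : ℝ) ^ (-σ)) := by
      apply mul_le_mul hk h5 (by positivity) (by positivity)
    have h7 := mul_le_mul_of_nonneg_left h6 (show 0 ≤ 1 / 2 * PV T w z by positivity)
    refine le_trans ?_ h7
    have h8 : 0 ≤ PV T w z * nr r ^ 2 := by positivity
    have h9 : 1 / 2 * PV T w z * (3 / 8 * nr r * (nr r / 8)) = 3 / 128 * (PV T w z * nr r ^ 2) := by ring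
    rw [h9]
    linarith
  have htot : ∑ r ∈ R, (((Ac A W r ×ˢ Ac A W r).filter (fun a => GP T z a)).card : ℝ) ≤
      (((A ×ˢ A).filter (fun a => GP T z a)).card : ℝ) := by
    rw [← Nat.cast_sum, Nat.cast_le, ← card_biUnion]
    · apply card_le_card
      intro x hx
      rw [mem_biUnion] at hx
      obtain ⟨r, _, hx⟩ := hx
      rw [mem_filter, mem_product] at hx ⊢
      exact ⟨⟨(mem_filter.1 hx.1.1).1, (mem_filter.1 hx.1.2).1⟩, hx.2⟩
    · intro r _ r' _ hrr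
      show Disjoint _ _
      rw [Finset.disjoint_left]
      intro x hx hx'
      rw [mem_filter, mem_product] at hx hx'
      exact hrr ((mem_filter.1 hx.1.1).2.symm.trans (mem_filter.1 hx'.1.1).2)
  refine le_trans ?_ ((sum_le_sum hcls).trans htot)
  have h1 : ∑ r ∈ R, PV T w z * nr r ^ 2 / 64 = PV T w z / 64 * ∑ r ∈ R, nr r ^ 2 := by
    rw [mul_sum]
    apply sum_congr rfl
    intro r _
    ring
  rw [h1]
  have h2 : α ^ 2 * N ^ 2 / (4 * 4 ^ w) ≤ ∑ r ∈ R, nr r ^ 2 := by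
    rw [div_le_iff₀ (by positivity)]
    have h3 : 0 ≤ ∑ r ∈ R, nr r ^ 2 := sum_nonneg fun _ _ => by positivity
    have h4 : (W : ℝ) * ∑ r ∈ R, nr r ^ 2 ≤ 4 ^ w * ∑ r ∈ R, nr r ^ 2 :=
      mul_le_mul_of_nonneg_right hW4 h3
    nlinarith
  calc PV T w z * (α ^ 2 * N ^ 2 / (256 * 4 ^ w)) = PV T w z / 64 * (α ^ 2 * N ^ 2 / (4 * 4 ^ w)) := by
        ring
    _ ≤ PV T w z / 64 * ∑ r ∈ R, nr r ^ 2 := by
        apply mul_le_mul_of_nonneg_left h2 (by positivity)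

open Classical in
/-- **Positive differences satisfying sieve conditions, in sets of density `(log N) ^ (-1 + ε)`.** -/
theorem unif_abs (g : ℕ) :
    ∃ κ : ℝ, 0 < κ ∧ ∀ ε : ℝ, 0 < ε → ∃ (C : ℝ) (N₀ : ℕ), 0 < C ∧ ∀ N : ℕ, N₀ ≤ N → ∀ T : ℕ → ℤ → Prop,
      (∀ p : ℕ, ∀ n m : ℤ, (p : ℤ) ∣ n - m → (T p n ↔ T p m)) → (∀ p : ℕ, p.Prime → rho T p ≤ g) →
      ∀ (A : Finset ℕ) (α : ℝ), A ⊆ Icc 1 N → 0 < α → Real.log N ^ (-(1 - ε)) ≤ α → α * N ≤ A.card →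
      (∀ p : ℕ, p.Prime → (p : ℝ) ≤ C * α ^ (-(1 + ε)) → ¬ T p 0) →
      Real.exp (-(C * α ^ (-(1 + ε)))) * N ^ 2 * PV T (2 * g) N ≤
        (((A ×ˢ A).filter (fun a => a.1 < a.2 ∧
          ∀ p : ℕ, p.Prime → (p : ℝ) ≤ (N : ℝ) ^ κ → ¬ T p ((a.2 : ℤ) - a.1))).card : ℝ) := by
  obtain ⟨B, w₀, C, hC, hgw, hcl0⟩ := class2 g
  obtain ⟨E, hE⟩ : ∃ E, E = 4 * B + 6 := ⟨_, rfl⟩
  rw [← hE] at hcl0
  have hE0 : (0 : ℝ) < E := by
    rw [hE]
    positivity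
  obtain ⟨κ, hκ⟩ : ∃ κ : ℝ, κ = 1 / (8 * E) := ⟨_, rfl⟩
  have hκ0 : 0 < κ := by rw [hκ]; positivity
  have hκ1 : κ ≤ 1 := by
    rw [hκ, div_le_one (by positivity)]
    have : (1 : ℝ) ≤ E := by
      rw [hE]
      exact_mod_cast (by omega : 1 ≤ 4 * B + 6)
    linarith
  refine ⟨κ, hκ0, ?_⟩
  suffices hs : ∀ ε : ℝ, 0 < ε → ε ≤ 1 / 2 → ∃ (C : ℝ) (N₀ : ℕ), 0 < C ∧ ∀ N : ℕ, N₀ ≤ N →
      ∀ T : ℕ → ℤ → Prop,
      (∀ p : ℕ, ∀ n m : ℤ, (p : ℤ) ∣ n - m → (T p n ↔ T p m)) → (∀ p : ℕ, p.Prime → rho T p ≤ g) →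
      ∀ (A : Finset ℕ) (α : ℝ), A ⊆ Icc 1 N → 0 < α → Real.log N ^ (-(1 - ε)) ≤ α → α * N ≤ A.card →
      α ≤ 1 ∧ ((∀ p : ℕ, p.Prime → (p : ℝ) ≤ C * α ^ (-(1 + ε)) → ¬ T p 0) →
      Real.exp (-(C * α ^ (-(1 + ε)))) * N ^ 2 * PV T (2 * g) N ≤
        (((A ×ˢ A).filter (fun a => a.1 < a.2 ∧
          ∀ p : ℕ, p.Prime → (p : ℝ) ≤ (N : ℝ) ^ κ → ¬ T p ((a.2 : ℤ) - a.1))).card : ℝ)) by
    intro ε hε
    obtain ⟨e, he⟩ : ∃ e : ℝ, e = min ε (1 / 2) := ⟨_, rfl⟩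
    obtain ⟨C', N₀, hC', h1⟩ := hs e (by rw [he]; exact lt_min hε (by norm_num))
      (by rw [he]; exact min_le_right _ _)
    refine ⟨C', max N₀ 3, hC', ?_⟩
    intro N hN T hT hρ A α hA hα hαL hcard hT0
    have hee : e ≤ ε := by rw [he]; exact min_le_left _ _
    have hL1 : 1 ≤ Real.log N := by
      have h2 : (3 : ℝ) ≤ N := by exact_mod_cast (le_max_right N₀ 3).trans hN
      have h3 : Real.exp 1 ≤ N := by
        have := Real.exp_one_lt_d9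
        linarith
      rw [Real.le_log_iff_exp_le (by linarith)]
      exact h3
    have h4 : Real.log N ^ (-(1 - e)) ≤ α :=
      le_trans (Real.rpow_le_rpow_of_exponent_le hL1 (by linarith)) hαL
    obtain ⟨h5, h6⟩ := h1 N ((le_max_left _ _).trans hN) T hT hρ A α hA hα h4 hcard
    have h7 : α ^ (-(1 + e)) ≤ α ^ (-(1 + ε)) :=
      Real.rpow_le_rpow_of_exponent_ge hα h5 (by linarith)
    have h8 : C' * α ^ (-(1 + e)) ≤ C' * α ^ (-(1 + ε)) := mul_le_mul_of_nonneg_left h7 hC'.le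
    refine le_trans ?_ (h6 fun p hp hpe => hT0 p hp (hpe.trans h8))
    have h9 : Real.exp (-(C' * α ^ (-(1 + ε)))) ≤ Real.exp (-(C' * α ^ (-(1 + e)))) := by
      apply Real.exp_le_exp.2
      linarith
    have h10 := PV_nonneg T (2 * g) N
    gcongr
  intro ε hε hε1
  obtain ⟨K, hK1, hKw⟩ := choose_w w₀ C ε hε hε1
  have t3 : Tendsto (fun N : ℕ => (N : ℝ) ^ κ) atTop atTop :=
    (tendsto_rpow_atTop hκ0).comp tendsto_natCast_atTop_atTop
  have t1 : Tendsto (fun N : ℕ => (Real.log N) ^ (ε ^ 2)) atTop atTop :=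
    (tendsto_rpow_atTop (by positivity)).comp tendsto_log_nat
  have t4 := tendsto_rpow_div_log_pow (3 / 4) (by norm_num) 1
  have hev := ((((t1.eventually_ge_atTop (16 * K)).and (t3.eventually_ge_atTop 3)).and
    (t4.eventually_ge_atTop 8)).and (eventually_ge_atTop 16)).and
    (tendsto_log_nat.eventually_ge_atTop 1)
  obtain ⟨N₀, hN₀⟩ := eventually_atTop.1 hev
  refine ⟨4 * K + 8, N₀, by linarith, ?_⟩
  intro N hN T hT hρ A α hA hα hαL hcard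
  obtain ⟨⟨⟨⟨g1, g2⟩, g3⟩, g4⟩, g5⟩ := hN₀ N hN
  have hN0 : (0 : ℝ) < N := by exact_mod_cast (by omega : 0 < N)
  have hAN : (A.card : ℝ) ≤ N := by
    have := card_le_card hA
    rw [Nat.card_Icc, Nat.add_sub_cancel] at this
    exact_mod_cast this
  have hα1 : α ≤ 1 := by
    have := hcard.trans hAN
    by_contra hcon
    push Not at hcon
    nlinarith
  refine ⟨hα1, ?_⟩
  intro hT0
  obtain ⟨w, w1, w2, w3, w4⟩ := hKw α hα hα1
  obtain ⟨L, hL⟩ : ∃ L, L = Real.log N := ⟨_, rfl⟩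
  rw [← hL] at g1 g3 g5 hαL
  have hL0 : 0 < L := by linarith
  obtain ⟨τ, hτ⟩ : ∃ τ, τ = α ^ (-(1 + ε)) := ⟨_, rfl⟩
  rw [← hτ] at w2 hT0 ⊢
  have hτ1 : 1 ≤ τ := by
    rw [hτ]
    exact Real.one_le_rpow_of_pos_of_le_one_of_nonpos hα hα1 (by linarith)
  have hτL : τ ≤ L ^ (1 - ε ^ 2) := by
    calc τ = α ^ (-(1 + ε)) := hτ
      _ ≤ (L ^ (-(1 - ε))) ^ (-(1 + ε)) :=
          Real.rpow_le_rpow_of_nonpos (by positivity) hαL (by linarith)
      _ = L ^ (1 - ε ^ 2) := by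
          rw [← Real.rpow_mul hL0.le]
          congr 1
          ring
  have hwL : (w : ℝ) ≤ Real.log N / 8 := by
    rw [← hL]
    have h1 : L ^ (1 - ε ^ 2) * L ^ (ε ^ 2) = L := by
      rw [← Real.rpow_add hL0, sub_add_cancel, Real.rpow_one]
    have h2 : 0 < L ^ (1 - ε ^ 2) := by positivity
    have h3 : L ^ (1 - ε ^ 2) * (16 * K) ≤ L := by
      calc L ^ (1 - ε ^ 2) * (16 * K) ≤ L ^ (1 - ε ^ 2) * L ^ (ε ^ 2) :=
            mul_le_mul_of_nonneg_left g1 h2.le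
        _ = L := h1
    have h4 : 2 * K * τ ≤ 2 * K * L ^ (1 - ε ^ 2) := mul_le_mul_of_nonneg_left hτL (by linarith)
    linarith
  have hσ2 : 1 / 2 ≤ 1 / (1 + ε) := by
    rw [div_le_div_iff₀ (by norm_num) (by linarith)]
    linarith
  have hσ3 : 1 / (1 + ε) ≤ 1 := by
    rw [div_le_one (by linarith)]
    linarith
  have h4N : (4 : ℝ) ^ w ≤ (N : ℝ) ^ (1 / 4 : ℝ) := by
    refine (four_pow_le w).trans ?_
    rw [Real.rpow_def_of_pos hN0, ← hL]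
    rw [← hL] at hwL
    apply Real.exp_le_exp.2
    linarith
  have hbig : 8 * 4 ^ w ≤ α * N := by
    have h1 : 1 / L ≤ α := by
      calc 1 / L = L ^ (-1 : ℝ) := by rw [Real.rpow_neg_one, one_div]
        _ ≤ L ^ (-(1 - ε)) := Real.rpow_le_rpow_of_exponent_le g5 (by linarith)
        _ ≤ α := hαL
    have h2 : (N : ℝ) ^ (3 / 4 : ℝ) * (N : ℝ) ^ (1 / 4 : ℝ) = N := by
      rw [← Real.rpow_add hN0]
      norm_num
    rw [pow_one, le_div_iff₀ hL0] at g3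
    calc 8 * (4 : ℝ) ^ w ≤ 8 * (N : ℝ) ^ (1 / 4 : ℝ) := by gcongr
      _ = (8 * L) * (N : ℝ) ^ (1 / 4 : ℝ) * (1 / L) := by field_simp
      _ ≤ (N : ℝ) ^ (3 / 4 : ℝ) * (N : ℝ) ^ (1 / 4 : ℝ) * (1 / L) := by gcongr
      _ = (1 / L) * N := by rw [h2, mul_comm]
      _ ≤ α * N := by gcongr
  have hwC : (w : ℝ) ≤ (4 * K + 8) * τ := by nlinarith
  have h0 : ∀ p : ℕ, p.Prime → p ≤ w → ¬ T p 0 := by
    intro p hp hpw
    apply hT0 p hp
    have : (p : ℝ) ≤ w := by exact_mod_cast hpw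
    linarith
  obtain ⟨z, z1, z2, z3, z4⟩ := unif_rg2 w₀ E C κ T (hcl0 T hT hρ) hE0 hκ hκ1 N w A α (1 / (1 + ε))
    hα hA hcard g4 g2 w1 hwL hbig h0 hσ2 hσ3 w3 w4
  have hPV := PV_anti T (2 * g) N w z (hgw.trans w1) z2
  have hPV0 := PV_nonneg T (2 * g) N
  have hfin : ((A ×ˢ A).filter (fun a => GP T z a)).card ≤
      ((A ×ˢ A).filter (fun a => a.1 < a.2 ∧
          ∀ p : ℕ, p.Prime → (p : ℝ) ≤ (N : ℝ) ^ κ → ¬ T p ((a.2 : ℤ) - a.1))).card := by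
    apply card_le_card
    intro x hx
    rw [mem_filter] at hx ⊢
    refine ⟨hx.1, hx.2.1, ?_⟩
    intro p hp hpN
    apply hx.2.2 p hp
    have : (p : ℝ) < z + 1 := lt_of_le_of_lt hpN z3
    have : p < z + 1 := by exact_mod_cast this
    omega
  have hfin' : (((A ×ˢ A).filter (fun a => GP T z a)).card : ℝ) ≤
      (((A ×ˢ A).filter (fun a => a.1 < a.2 ∧
          ∀ p : ℕ, p.Prime → (p : ℝ) ≤ (N : ℝ) ^ κ → ¬ T p ((a.2 : ℤ) - a.1))).card : ℝ) := by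
    exact_mod_cast hfin
  refine le_trans ?_ (z4.trans hfin')
  -- the constant
  have hα2 : Real.exp (-(2 * τ)) ≤ α ^ 2 := by
    have h1 : α⁻¹ ≤ τ := by
      calc α⁻¹ = α ^ (-1 : ℝ) := by rw [Real.rpow_neg_one]
        _ ≤ α ^ (-(1 + ε)) := Real.rpow_le_rpow_of_exponent_ge hα hα1 (by linarith)
        _ = τ := hτ.symm
    have h2 : α⁻¹ ≤ Real.exp τ := by
      have := Real.add_one_le_exp τ
      linarith
    have h3 : (Real.exp τ)⁻¹ ≤ α := by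
      rw [inv_le_comm₀ (Real.exp_pos _) hα]
      exact h2
    calc Real.exp (-(2 * τ)) = ((Real.exp τ)⁻¹) ^ 2 := by
          rw [← Real.exp_neg, ← Real.exp_nat_mul]
          congr 1
          push_cast
          ring
      _ ≤ α ^ 2 := pow_le_pow_left₀ (by positivity) h3 2
  have h4w' : Real.exp (-(4 * K * τ)) ≤ ((4 : ℝ) ^ w)⁻¹ := by
    rw [Real.exp_neg]
    apply inv_anti₀ (by positivity)
    refine (four_pow_le w).trans (Real.exp_le_exp.2 ?_)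
    linarith
  have hv' : Real.exp (-(6 * τ)) ≤ 1 / 256 := by
    have h1 : Real.exp (-(6 * τ)) ≤ Real.exp (-6) := Real.exp_le_exp.2 (by linarith)
    refine h1.trans ?_
    have h2 : (256 : ℝ) ≤ Real.exp 6 := by
      have h3 := Real.exp_one_gt_d9
      have h4 : Real.exp 6 = Real.exp 1 ^ 6 := by
        rw [← Real.exp_nat_mul]
        norm_num
      rw [h4]
      calc (256 : ℝ) ≤ 2.7 ^ 6 := by norm_num
        _ ≤ Real.exp 1 ^ 6 := by
            apply pow_le_pow_left₀ (by norm_num)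
            linarith
    rw [Real.exp_neg, one_div]
    exact inv_anti₀ (by norm_num) h2
  have hprod : Real.exp (-((4 * K + 8) * τ)) ≤ 1 / 256 * α ^ 2 * ((4 : ℝ) ^ w)⁻¹ := by
    calc Real.exp (-((4 * K + 8) * τ)) =
          Real.exp (-(6 * τ)) * Real.exp (-(2 * τ)) * Real.exp (-(4 * K * τ)) := by
          rw [← Real.exp_add, ← Real.exp_add]
          congr 1
          ring
      _ ≤ _ := by gcongr
  calc Real.exp (-((4 * K + 8) * τ)) * N ^ 2 * PV T (2 * g) N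
      ≤ (1 / 256 * α ^ 2 * ((4 : ℝ) ^ w)⁻¹) * N ^ 2 * PV T w z := by gcongr
    _ = PV T w z * (α ^ 2 * N ^ 2 / (256 * 4 ^ w)) := by
        field_simp

end Pool.Agent.H14.SK
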