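import Mathlib

/-!
# Expansions of truncated inclusion-exclusion sums (helper14)

Functions of the indicators `x p`, `p` in a finite set of primes, as combinations of the products of the
balanced variables `x p - u p`.
-/

set_option autoImplicit false

namespace Pool.Agent.H14.SK

open Finset

/-- the transform of a coefficient function `c` on the subsets of `P` -/
noncomputable def Gt (P : Finset ℕ) (c : Finset ℕ → ℝ) (u : ℕ → ℝ) (s : Finset ℕ) : ℝ :=
  ∑ m ∈ (P \ s).powerset, c (s ∪ m) * ∏ p ∈ m, u p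

lemma sum_powerset_split (P : Finset ℕ) (h : Finset ℕ → Finset ℕ → ℝ) :
    ∑ d ∈ P.powerset, ∑ s ∈ d.powerset, h s (d \ s) =
      ∑ s ∈ P.powerset, ∑ m ∈ (P \ s).powerset, h s m := by
  rw [Finset.sum_sigma', Finset.sum_sigma']
  refine Finset.sum_bij' (fun x _ => ⟨x.2, x.1 \ x.2⟩) (fun x _ => ⟨x.1 ∪ x.2, x.1⟩) ?_ ?_ ?_ ?_ ?_
  · rintro ⟨d, s⟩ h1
    simp only [mem_sigma, mem_powerset] at h1 ⊢
    exact ⟨h1.2.trans h1.1, sdiff_subset_sdiff h1.1 subset_rfl⟩
  · rintro ⟨s, m⟩ h1
    simp only [mem_sigma, mem_powerset] at h1 ⊢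
    exact ⟨union_subset h1.1 (h1.2.trans sdiff_subset), subset_union_left⟩
  · rintro ⟨d, s⟩ h1
    simp only [mem_sigma, mem_powerset] at h1
    simp only [Sigma.mk.injEq, heq_eq_eq]
    exact ⟨union_sdiff_of_subset h1.2, trivial⟩
  · rintro ⟨s, m⟩ h1
    simp only [mem_sigma, mem_powerset] at h1
    simp only [Sigma.mk.injEq, heq_eq_eq]
    refine ⟨trivial, ?_⟩
    rw [union_sdiff_left]
    exact sdiff_eq_self_of_disjoint (disjoint_of_subset_left h1.2 sdiff_disjoint)
  · rintro ⟨d, s⟩ _
    rfl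

/-- the expansion -/
lemma expand (P : Finset ℕ) (c : Finset ℕ → ℝ) (u x : ℕ → ℝ) :
    ∑ d ∈ P.powerset, c d * ∏ p ∈ d, x p =
      ∑ s ∈ P.powerset, Gt P c u s * ∏ p ∈ s, (x p - u p) := by
  have h1 : ∀ d ∈ P.powerset, c d * ∏ p ∈ d, x p =
      ∑ s ∈ d.powerset, c (s ∪ (d \ s)) * ((∏ p ∈ s, (x p - u p)) * ∏ p ∈ d \ s, u p) := by
    intro d _
    have h2 : ∏ p ∈ d, x p = ∏ p ∈ d, ((x p - u p) + u p) := by
      apply prod_congr rfl
      intro p _
      ring
    rw [h2, Finset.prod_add, mul_sum]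
    apply sum_congr rfl
    intro s hs
    rw [mem_powerset] at hs
    rw [union_sdiff_of_subset hs]
  rw [sum_congr rfl h1,
    sum_powerset_split P (fun s m => c (s ∪ m) * ((∏ p ∈ s, (x p - u p)) * ∏ p ∈ m, u p))]
  apply sum_congr rfl
  intro s _
  unfold Gt
  rw [sum_mul]
  apply sum_congr rfl
  intro m _
  ring

/-- products of expansions over disjoint sets -/
lemma prod_expand (X Y : Finset ℕ) (hXY : Disjoint X Y) (α β : Finset ℕ → ℝ) (v : ℕ → ℝ) :
    (∑ a ∈ X.powerset, α a * ∏ p ∈ a, v p) * (∑ b ∈ Y.powerset, β b * ∏ p ∈ b, v p) =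
      ∑ q ∈ (X ∪ Y).powerset, α (q ∩ X) * β (q ∩ Y) * ∏ p ∈ q, v p := by
  rw [sum_mul_sum, ← sum_product']
  refine Finset.sum_bij' (fun x _ => x.1 ∪ x.2) (fun q _ => (q ∩ X, q ∩ Y)) ?_ ?_ ?_ ?_ ?_
  · rintro ⟨a, b⟩ h
    simp only [mem_product, mem_powerset] at h ⊢
    exact union_subset_union h.1 h.2
  · intro q _
    simp only [mem_product, mem_powerset]
    exact ⟨inter_subset_right, inter_subset_right⟩
  · rintro ⟨a, b⟩ h
    simp only [mem_product, mem_powerset] at h
    have h1 : Disjoint b X := disjoint_of_subset_left h.2 hXY.symm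
    have h2 : Disjoint a Y := disjoint_of_subset_left h.1 hXY
    simp only [Prod.mk.injEq]
    rw [union_inter_distrib_right, union_inter_distrib_right, disjoint_iff_inter_eq_empty.1 h1,
      disjoint_iff_inter_eq_empty.1 h2, union_empty, empty_union, inter_eq_left.2 h.1,
      inter_eq_left.2 h.2]
    exact ⟨rfl, rfl⟩
  · intro q h
    rw [mem_powerset] at h
    simp only
    rw [← inter_union_distrib_left, inter_eq_left.2 h]
  · rintro ⟨a, b⟩ h
    simp only [mem_product, mem_powerset] at h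
    have h1 : Disjoint b X := disjoint_of_subset_left h.2 hXY.symm
    have h2 : Disjoint a Y := disjoint_of_subset_left h.1 hXY
    have h3 : Disjoint a b := disjoint_of_subset_left h.1 (disjoint_of_subset_right h.2 hXY)
    have e1 : (a ∪ b) ∩ X = a := by
      rw [union_inter_distrib_right, disjoint_iff_inter_eq_empty.1 h1, union_empty,
        inter_eq_left.2 h.1]
    have e2 : (a ∪ b) ∩ Y = b := by
      rw [union_inter_distrib_right, disjoint_iff_inter_eq_empty.1 h2, empty_union,
        inter_eq_left.2 h.2]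
    simp only
    rw [e1, e2, prod_union h3]
    ring

/-! ### truncated sums -/

/-- the coefficients of the truncated sum -/
noncomputable def ac (b : ℕ) (d : Finset ℕ) : ℝ := if d.card ≤ b then (-1) ^ d.card else 0

/-- the coefficients of the elementary symmetric polynomial of degree `b + 1` -/
noncomputable def ec (b : ℕ) (d : Finset ℕ) : ℝ := if d.card = b + 1 then 1 else 0

/-- the truncated sum -/
noncomputable def SS (P : Finset ℕ) (b : ℕ) (x : ℕ → ℝ) : ℝ :=
  ∑ d ∈ P.powerset, ac b d * ∏ p ∈ d, x p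

/-- the elementary symmetric polynomial -/
noncomputable def ES (P : Finset ℕ) (b : ℕ) (x : ℕ → ℝ) : ℝ :=
  ∑ d ∈ P.powerset, ec b d * ∏ p ∈ d, x p

lemma SS_succ (P : Finset ℕ) (b : ℕ) (x : ℕ → ℝ) :
    SS P (b + 1) x = SS P b x + (-1) ^ (b + 1) * ES P b x := by
  unfold SS ES
  rw [mul_sum, ← sum_add_distrib]
  apply sum_congr rfl
  intro d _
  unfold ac ec
  rcases lt_trichotomy d.card (b + 1) with h | h | h
  · rw [if_pos (by omega), if_pos (by omega), if_neg (by omega)]
    ring
  · rw [if_pos (by omega), if_neg (by omega), if_pos h, h]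
    ring
  · rw [if_neg (by omega), if_neg (by omega), if_neg (by omega)]
    ring

lemma SS_insert (P : Finset ℕ) (p : ℕ) (hp : p ∉ P) (b : ℕ) (x : ℕ → ℝ) :
    SS (insert p P) (b + 1) x = SS P (b + 1) x - x p * SS P b x := by
  unfold SS
  rw [sum_powerset_insert hp, mul_sum, sub_eq_add_neg, ← sum_neg_distrib]
  congr 1
  apply sum_congr rfl
  intro d hd
  have hpd : p ∉ d := fun h => hp (mem_powerset.1 hd h)
  rw [prod_insert hpd]
  unfold ac
  rw [card_insert_of_notMem hpd]
  by_cases h : d.card ≤ b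
  · rw [if_pos (by omega), if_pos h, pow_succ]
    ring
  · rw [if_neg (by omega), if_neg h]
    ring

lemma SS_zero (P : Finset ℕ) (x : ℕ → ℝ) : SS P 0 x = 1 := by
  unfold SS
  rw [sum_eq_single ∅]
  · simp [ac]
  · intro d _ hd
    have : ¬ d.card ≤ 0 := by
      have := card_pos.2 (nonempty_iff_ne_empty.2 hd)
      omega
    unfold ac
    rw [if_neg this, zero_mul]
  · intro h
    exact absurd (empty_mem_powerset P) h

/-- Bonferroni's inequalities -/
lemma bonf (P : Finset ℕ) (x : ℕ → ℝ) (h0 : ∀ p ∈ P, 0 ≤ x p) (h1 : ∀ p ∈ P, x p ≤ 1) (b : ℕ) :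
    (Even b → ∏ p ∈ P, (1 - x p) ≤ SS P b x) ∧ (Odd b → SS P b x ≤ ∏ p ∈ P, (1 - x p)) := by
  classical
  induction P using Finset.induction_on generalizing b with
  | empty =>
    have : SS ∅ b x = 1 := by
      unfold SS ac
      simp
    rw [this]
    simp
  | insert p P hp ih =>
    have ih' := fun b => ih (fun q hq => h0 q (mem_insert_of_mem hq))
      (fun q hq => h1 q (mem_insert_of_mem hq)) b
    have hx0 := h0 p (mem_insert_self _ _)
    have hx1 := h1 p (mem_insert_self _ _)
    have hprod : 0 ≤ ∏ q ∈ P, (1 - x q) := prod_nonneg fun q hq => by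
      have := h1 q (mem_insert_of_mem hq)
      linarith
    rw [prod_insert hp]
    rcases b with _ | b
    · constructor
      · intro _
        rw [SS_zero]
        have h2 : ∏ q ∈ P, (1 - x q) ≤ 1 := prod_le_one
          (fun q hq => by
            have := h1 q (mem_insert_of_mem hq)
            linarith)
          (fun q hq => by
            have := h0 q (mem_insert_of_mem hq)
            linarith)
        nlinarith
      · intro h
        exact absurd h (by decide)
    · rw [SS_insert P p hp]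
      constructor
      · intro h
        have hb : Odd b := by
          rcases Nat.even_or_odd b with h' | h'
          · exact absurd h (by rw [Nat.not_even_iff_odd]; exact h'.add_one)
          · exact h'
        have h3 := (ih' (b + 1)).1 h
        have h4 := (ih' b).2 hb
        nlinarith [mul_le_mul_of_nonneg_left h4 hx0]
      · intro h
        have hb : Even b := by
          rcases Nat.even_or_odd b with h' | h'
          · exact h'
          · exact absurd h (by rw [Nat.not_odd_iff_even]; exact h'.add_one)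
        have h3 := (ih' (b + 1)).2 h
        have h4 := (ih' b).1 hb
        nlinarith [mul_le_mul_of_nonneg_left h4 hx0]

lemma ES_nonneg (P : Finset ℕ) (b : ℕ) (x : ℕ → ℝ) (h0 : ∀ p ∈ P, 0 ≤ x p) : 0 ≤ ES P b x := by
  unfold ES
  apply sum_nonneg
  intro d hd
  apply mul_nonneg
  · unfold ec
    split_ifs <;> norm_num
  · exact prod_nonneg fun p hp => h0 p (mem_powerset.1 hd hp)

/-- the error of the truncation -/
lemma SS_sub_le (P : Finset ℕ) (x : ℕ → ℝ) (h0 : ∀ p ∈ P, 0 ≤ x p) (h1 : ∀ p ∈ P, x p ≤ 1) (b : ℕ)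
    (hb : Even b) : SS P b x - ∏ p ∈ P, (1 - x p) ≤ ES P b x := by
  have h2 := (bonf P x h0 h1 (b + 1)).2 hb.add_one
  rw [SS_succ, (hb.add_one).neg_one_pow] at h2
  linarith

lemma ES_le (P : Finset ℕ) (b : ℕ) (x : ℕ → ℝ) (h0 : ∀ p ∈ P, 0 ≤ x p) :
    ES P b x ≤ (1 / 2) ^ (b + 1) * Real.exp (2 * ∑ p ∈ P, x p) := by
  have h1 : ES P b x ≤ (1 / 2) ^ (b + 1) * ∏ p ∈ P, (1 + 2 * x p) := by
    have e : ∏ p ∈ P, (1 + 2 * x p) = ∑ d ∈ P.powerset, 2 ^ d.card * ∏ p ∈ d, x p := by
      have : ∏ p ∈ P, (1 + 2 * x p) = ∏ p ∈ P, (2 * x p + 1) := by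
        apply prod_congr rfl
        intro p _
        ring
      rw [this, Finset.prod_add]
      apply sum_congr rfl
      intro d _
      rw [prod_const_one, mul_one, prod_mul_distrib, prod_const]
    rw [e, mul_sum]
    unfold ES
    apply sum_le_sum
    intro d hd
    have h2 : 0 ≤ ∏ p ∈ d, x p := prod_nonneg fun p hp => h0 p (mem_powerset.1 hd hp)
    unfold ec
    split_ifs with h
    · rw [h, ← mul_assoc, ← mul_pow]
      norm_num
    · rw [zero_mul]
      positivity
  refine h1.trans ?_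
  apply mul_le_mul_of_nonneg_left _ (by positivity)
  rw [mul_sum, Real.exp_sum]
  apply prod_le_prod
  · intro p hp
    have := h0 p hp
    linarith
  · intro p _
    have := Real.add_one_le_exp (2 * x p)
    linarith

/-- absolute bound for a transform -/
lemma abs_Gt_le (P : Finset ℕ) (c : Finset ℕ → ℝ) (hc : ∀ d, |c d| ≤ 1) (u : ℕ → ℝ)
    (h0 : ∀ p ∈ P, 0 ≤ u p) (s : Finset ℕ) : |Gt P c u s| ≤ Real.exp (∑ p ∈ P, u p) := by
  unfold Gt
  calc |∑ m ∈ (P \ s).powerset, c (s ∪ m) * ∏ p ∈ m, u p|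
      ≤ ∑ m ∈ (P \ s).powerset, |c (s ∪ m) * ∏ p ∈ m, u p| := abs_sum_le_sum_abs _ _
    _ ≤ ∑ m ∈ (P \ s).powerset, ∏ p ∈ m, u p := by
        apply sum_le_sum
        intro m hm
        have h2 : 0 ≤ ∏ p ∈ m, u p := prod_nonneg fun p hp =>
          h0 p (mem_sdiff.1 (mem_powerset.1 hm hp)).1
        rw [abs_mul, abs_of_nonneg h2]
        have := hc (s ∪ m)
        nlinarith
    _ ≤ ∑ m ∈ P.powerset, ∏ p ∈ m, u p := by
        apply sum_le_sum_of_subset_of_nonneg (powerset_mono.2 sdiff_subset)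
        intro m hm _
        exact prod_nonneg fun p hp => h0 p (mem_powerset.1 hm hp)
    _ = ∏ p ∈ P, (u p + 1) := by
        rw [Finset.prod_add]
        apply sum_congr rfl
        intro m _
        rw [prod_const_one, mul_one]
    _ ≤ Real.exp (∑ p ∈ P, u p) := by
        rw [Real.exp_sum]
        apply prod_le_prod
        · intro p hp
          have := h0 p hp
          linarith
        · intro p _
          exact Real.add_one_le_exp _

lemma abs_ac (b : ℕ) (d : Finset ℕ) : |ac b d| ≤ 1 := by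
  unfold ac
  split_ifs
  · rw [abs_pow, abs_neg, abs_one, one_pow]
  · simp

lemma abs_ec (b : ℕ) (d : Finset ℕ) : |ec b d| ≤ 1 := by
  unfold ec
  split_ifs <;> simp

lemma Gt_empty (P : Finset ℕ) (c : Finset ℕ → ℝ) (u : ℕ → ℝ) :
    Gt P c u ∅ = ∑ d ∈ P.powerset, c d * ∏ p ∈ d, u p := by
  unfold Gt
  rw [sdiff_empty]
  apply sum_congr rfl
  intro m _
  rw [empty_union]

lemma Gt_ac_eq_zero (P : Finset ℕ) (b : ℕ) (u : ℕ → ℝ) (s : Finset ℕ) (h : b < s.card) :
    Gt P (ac b) u s = 0 := by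
  unfold Gt
  apply sum_eq_zero
  intro m _
  have : ¬ (s ∪ m).card ≤ b := by
    have := card_le_card (subset_union_left (s₁ := s) (s₂ := m))
    omega
  unfold ac
  rw [if_neg this, zero_mul]

lemma Gt_ec_eq_zero (P : Finset ℕ) (b : ℕ) (u : ℕ → ℝ) (s : Finset ℕ) (h : b + 1 < s.card) :
    Gt P (ec b) u s = 0 := by
  unfold Gt
  apply sum_eq_zero
  intro m _
  have : ¬ (s ∪ m).card = b + 1 := by
    have := card_le_card (subset_union_left (s₁ := s) (s₂ := m))
    omega
  unfold ec
  rw [if_neg this, zero_mul]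

end Pool.Agent.H14.SK
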