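import Pool.Agent.H14.SK.Alg

/-!
# The lower bound sieve of Brun and Hooley and its expansion (helper14)
-/

set_option autoImplicit false

namespace Pool.Agent.H14.SK

open Finset

/-- the union of the first `t` blocks -/
def PP (P : ℕ → Finset ℕ) (t : ℕ) : Finset ℕ := (range t).biUnion P

lemma PP_succ (P : ℕ → Finset ℕ) (t : ℕ) : PP P (t + 1) = PP P t ∪ P t := by
  unfold PP
  rw [range_add_one, biUnion_insert, union_comm]

lemma PP_disj (P : ℕ → Finset ℕ) (hP : ∀ i j, i ≠ j → Disjoint (P i) (P j)) (t : ℕ) :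
    Disjoint (PP P t) (P t) := by
  unfold PP
  rw [disjoint_biUnion_left]
  intro i hi
  rw [mem_range] at hi
  exact hP i t (by omega)

/-- the upper bound sieve -/
noncomputable def KK (P : ℕ → Finset ℕ) (b : ℕ → ℕ) (x : ℕ → ℝ) : ℕ → ℝ
  | 0 => 1
  | t + 1 => KK P b x t * SS (P t) (b t) x

/-- the lower bound sieve -/
noncomputable def LL (P : ℕ → Finset ℕ) (b : ℕ → ℕ) (x : ℕ → ℝ) : ℕ → ℝ
  | 0 => 1
  | t + 1 => LL P b x t * SS (P t) (b t) x - KK P b x t * ES (P t) (b t) x

/-- the coefficients of the upper bound sieve -/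
noncomputable def gK (P : ℕ → Finset ℕ) (b : ℕ → ℕ) (u : ℕ → ℝ) : ℕ → Finset ℕ → ℝ
  | 0 => fun _ => 1
  | t + 1 => fun q => gK P b u t (q ∩ PP P t) * Gt (P t) (ac (b t)) u (q ∩ P t)

/-- the coefficients of the lower bound sieve -/
noncomputable def gL (P : ℕ → Finset ℕ) (b : ℕ → ℕ) (u : ℕ → ℝ) : ℕ → Finset ℕ → ℝ
  | 0 => fun _ => 1
  | t + 1 => fun q => gL P b u t (q ∩ PP P t) * Gt (P t) (ac (b t)) u (q ∩ P t) -
      gK P b u t (q ∩ PP P t) * Gt (P t) (ec (b t)) u (q ∩ P t)

section

variable {P : ℕ → Finset ℕ} {b : ℕ → ℕ}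

lemma gK_succ (u : ℕ → ℝ) (t : ℕ) (q : Finset ℕ) : gK P b u (t + 1) q =
    gK P b u t (q ∩ PP P t) * Gt (P t) (ac (b t)) u (q ∩ P t) := rfl

lemma gL_succ (u : ℕ → ℝ) (t : ℕ) (q : Finset ℕ) : gL P b u (t + 1) q =
    gL P b u t (q ∩ PP P t) * Gt (P t) (ac (b t)) u (q ∩ P t) -
      gK P b u t (q ∩ PP P t) * Gt (P t) (ec (b t)) u (q ∩ P t) := rfl

lemma KK_expand (hP : ∀ i j, i ≠ j → Disjoint (P i) (P j)) (x u : ℕ → ℝ) (t : ℕ) :
    KK P b x t = ∑ q ∈ (PP P t).powerset, gK P b u t q * ∏ p ∈ q, (x p - u p) := by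
  induction t with
  | zero => simp [KK, gK, PP]
  | succ t ih =>
    have h1 : SS (P t) (b t) x =
        ∑ s ∈ (P t).powerset, Gt (P t) (ac (b t)) u s * ∏ p ∈ s, (x p - u p) := expand _ _ _ _
    rw [KK, ih, h1, prod_expand _ _ (PP_disj P hP t), PP_succ]
    rfl

lemma LL_expand (hP : ∀ i j, i ≠ j → Disjoint (P i) (P j)) (x u : ℕ → ℝ) (t : ℕ) :
    LL P b x t = ∑ q ∈ (PP P t).powerset, gL P b u t q * ∏ p ∈ q, (x p - u p) := by
  induction t with
  | zero => simp [LL, gL, PP]
  | succ t ih =>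
    have h1 : SS (P t) (b t) x =
        ∑ s ∈ (P t).powerset, Gt (P t) (ac (b t)) u s * ∏ p ∈ s, (x p - u p) := expand _ _ _ _
    have h2 : ES (P t) (b t) x =
        ∑ s ∈ (P t).powerset, Gt (P t) (ec (b t)) u s * ∏ p ∈ s, (x p - u p) := expand _ _ _ _
    rw [LL, ih, h1, h2, KK_expand hP x u t, prod_expand _ _ (PP_disj P hP t),
      prod_expand _ _ (PP_disj P hP t), PP_succ, ← sum_sub_distrib]
    apply sum_congr rfl
    intro q _
    simp only [gL]
    ring

/-- the pointwise inequalities -/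
lemma LL_le (hb : ∀ j, Even (b j)) (x : ℕ → ℝ) (t : ℕ) (h0 : ∀ p ∈ PP P t, x p = 0 ∨ x p = 1) :
    LL P b x t ≤ ∏ j ∈ range t, ∏ p ∈ P j, (1 - x p) ∧
      ∏ j ∈ range t, ∏ p ∈ P j, (1 - x p) ≤ KK P b x t := by
  induction t with
  | zero => simp [LL, KK]
  | succ t ih =>
    have h0' : ∀ p ∈ PP P t, x p = 0 ∨ x p = 1 := fun p hp => h0 p (by
      rw [PP_succ]
      exact mem_union_left _ hp)
    have h0'' : ∀ p ∈ P t, x p = 0 ∨ x p = 1 := fun p hp => h0 p (by
      rw [PP_succ]
      exact mem_union_right _ hp)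
    obtain ⟨h1, h2⟩ := ih h0'
    have hx0 : ∀ p ∈ P t, 0 ≤ x p := fun p hp => by
      rcases h0'' p hp with h | h <;> simp [h]
    have hx1 : ∀ p ∈ P t, x p ≤ 1 := fun p hp => by
      rcases h0'' p hp with h | h <;> simp [h]
    have h3 := (bonf (P t) x hx0 hx1 (b t)).1 (hb t)
    have h4 := SS_sub_le (P t) x hx0 hx1 (b t) (hb t)
    have h5 := ES_nonneg (P t) (b t) x hx0
    have h6 : 0 ≤ ∏ j ∈ range t, ∏ p ∈ P j, (1 - x p) := by
      apply prod_nonneg
      intro j hj
      apply prod_nonneg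
      intro p hp
      rcases h0' p (mem_biUnion.2 ⟨j, hj, hp⟩) with h | h <;> simp [h]
    have h7 : 0 ≤ ∏ p ∈ P t, (1 - x p) := by
      apply prod_nonneg
      intro p hp
      have := hx1 p hp
      linarith
    rw [prod_range_succ, LL, KK]
    set X := ∏ j ∈ range t, ∏ p ∈ P j, (1 - x p)
    set y := ∏ p ∈ P t, (1 - x p)
    constructor
    · have a1 : LL P b x t * SS (P t) (b t) x ≤ X * SS (P t) (b t) x :=
        mul_le_mul_of_nonneg_right h1 (by linarith)
      have a2 : X * SS (P t) (b t) x ≤ X * (y + ES (P t) (b t) x) :=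
        mul_le_mul_of_nonneg_left (by linarith) h6
      have a3 : X * ES (P t) (b t) x ≤ KK P b x t * ES (P t) (b t) x :=
        mul_le_mul_of_nonneg_right h2 h5
      linarith
    · exact mul_le_mul h2 h3 h7 (h6.trans h2)

/-- a coefficient that does not vanish has few prime factors in every block -/
lemma gK_support (u : ℕ → ℝ) (t : ℕ) (q : Finset ℕ) (h : gK P b u t q ≠ 0) :
    ∀ j < t, (q ∩ P j).card ≤ b j + 1 := by
  induction t generalizing q with
  | zero => intro j hj; omega
  | succ t ih =>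
    rw [gK_succ] at h
    have h1 := left_ne_zero_of_mul h
    have h2 := right_ne_zero_of_mul h
    intro j hj
    rcases Nat.lt_succ_iff_lt_or_eq.1 hj with h3 | h3
    · have h4 := ih _ h1 j h3
      have h5 : q ∩ PP P t ∩ P j = q ∩ P j := by
        rw [inter_assoc]
        congr 1
        apply inter_eq_right.2
        exact subset_biUnion_of_mem P (mem_range.2 h3)
      rwa [h5] at h4
    · subst h3
      by_contra h4
      exact h2 (Gt_ac_eq_zero _ _ _ _ (by omega))

lemma gL_support (u : ℕ → ℝ) (t : ℕ) (q : Finset ℕ) (h : gL P b u t q ≠ 0) :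
    ∀ j < t, (q ∩ P j).card ≤ b j + 1 := by
  induction t generalizing q with
  | zero => intro j hj; omega
  | succ t ih =>
    rw [gL_succ] at h
    have h0 : gL P b u t (q ∩ PP P t) * Gt (P t) (ac (b t)) u (q ∩ P t) ≠ 0 ∨
        gK P b u t (q ∩ PP P t) * Gt (P t) (ec (b t)) u (q ∩ P t) ≠ 0 := by
      by_contra hcon
      push Not at hcon
      apply h
      rw [hcon.1, hcon.2, sub_zero]
    have h1 : ∀ j < t, (q ∩ PP P t ∩ P j).card ≤ b j + 1 := by
      rcases h0 with h0 | h0
      · exact ih _ (left_ne_zero_of_mul h0)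
      · exact gK_support u t _ (left_ne_zero_of_mul h0)
    intro j hj
    rcases Nat.lt_succ_iff_lt_or_eq.1 hj with h3 | h3
    · have h4 := h1 j h3
      have h5 : q ∩ PP P t ∩ P j = q ∩ P j := by
        rw [inter_assoc]
        congr 1
        apply inter_eq_right.2
        exact subset_biUnion_of_mem P (mem_range.2 h3)
      rwa [h5] at h4
    · subst h3
      rcases h0 with h0 | h0
      · by_contra h4
        exact right_ne_zero_of_mul h0 (Gt_ac_eq_zero _ _ _ _ (by omega))
      · by_contra h4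
        exact right_ne_zero_of_mul h0 (Gt_ec_eq_zero _ _ _ _ (by omega))

/-- the bounds for the coefficients: `S` bounds the sums of `u` over the blocks -/
lemma bounds (hP : ∀ i j, i ≠ j → Disjoint (P i) (P j)) (hb : ∀ j, Even (b j)) (u : ℕ → ℝ) (t : ℕ)
    (h0 : ∀ p ∈ PP P t, 0 ≤ u p) (h1 : ∀ p ∈ PP P t, u p ≤ 1) (S v C : ℝ)
    (hS : ∀ j < t, ∑ p ∈ P j, u p ≤ S) (hv : 0 < v) (hv1 : ∀ j < t, v ≤ ∏ p ∈ P j, (1 - u p))
    (hC1 : 1 ≤ C) (hC : 2 * Real.exp S ≤ v * C) (e : ℕ → ℝ)
    (he : ∀ j < t, ES (P j) (b j) u ≤ v * e j) (he0 : ∀ j, 0 ≤ e j) :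
    (∏ j ∈ range t, ∏ p ∈ P j, (1 - u p) ≤ gK P b u t ∅ ∧ 0 < gK P b u t ∅) ∧
    (∀ q ⊆ PP P t, |gK P b u t q| ≤ gK P b u t ∅ * C ^ q.card) ∧
    gK P b u t ∅ * (1 - ∑ j ∈ range t, e j) ≤ gL P b u t ∅ ∧
    (∀ q ⊆ PP P t, |gL P b u t q| ≤
      gK P b u t ∅ * C ^ q.card * (1 + ∑ j ∈ range t, e j)) := by
  induction t with
  | zero =>
    refine ⟨by simp [gK], ?_, by simp [gK, gL], ?_⟩
    · intro q hq
      have : q = ∅ := by
        have := subset_empty.1 (by simpa [PP] using hq)
        exact this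
      subst this
      simp [gK]
    · intro q hq
      have : q = ∅ := by
        have := subset_empty.1 (by simpa [PP] using hq)
        exact this
      subst this
      simp [gK, gL]
  | succ t ih =>
    have hsub1 : PP P t ⊆ PP P (t + 1) := by
      rw [PP_succ]
      exact subset_union_left
    have hsub2 : P t ⊆ PP P (t + 1) := by
      rw [PP_succ]
      exact subset_union_right
    obtain ⟨⟨i1, i2⟩, i3, i4, i5⟩ := ih (fun p hp => h0 p (hsub1 hp)) (fun p hp => h1 p (hsub1 hp))
      (fun j hj => hS j (by omega)) (fun j hj => hv1 j (by omega)) (fun j hj => he j (by omega))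
    have hu0 : ∀ p ∈ P t, 0 ≤ u p := fun p hp => h0 p (hsub2 hp)
    have hu1 : ∀ p ∈ P t, u p ≤ 1 := fun p hp => h1 p (hsub2 hp)
    obtain ⟨K, hK⟩ : ∃ K, K = gK P b u t ∅ := ⟨_, rfl⟩
    obtain ⟨s, hs⟩ : ∃ s, s = ∑ j ∈ range t, e j := ⟨_, rfl⟩
    have hs0 : 0 ≤ s := by
      rw [hs]
      exact sum_nonneg fun j _ => he0 j
    rw [← hK] at i1 i2 i3 i4 i5
    rw [← hs] at i4 i5
    -- the block
    obtain ⟨A, hA⟩ : ∃ A, A = SS (P t) (b t) u := ⟨_, rfl⟩
    have hA1 : ∏ p ∈ P t, (1 - u p) ≤ A := by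
      rw [hA]
      exact (bonf (P t) u hu0 hu1 (b t)).1 (hb t)
    have hAv : v ≤ A := (hv1 t (by omega)).trans hA1
    have hA0 : 0 < A := lt_of_lt_of_le hv hAv
    have hGA : Gt (P t) (ac (b t)) u ∅ = A := by
      rw [Gt_empty, hA]
      rfl
    have hGE : Gt (P t) (ec (b t)) u ∅ = ES (P t) (b t) u := by
      rw [Gt_empty]
      rfl
    have hE0 := ES_nonneg (P t) (b t) u hu0
    have hE1 : ES (P t) (b t) u ≤ A * e t :=
      (he t (by omega)).trans (mul_le_mul_of_nonneg_right hAv (he0 t))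
    have hSt := hS t (by omega)
    have hGa : ∀ r, |Gt (P t) (ac (b t)) u r| ≤ Real.exp S := fun r =>
      (abs_Gt_le _ _ (abs_ac _) u hu0 r).trans (Real.exp_le_exp.2 hSt)
    have hGe : ∀ r, |Gt (P t) (ec (b t)) u r| ≤ Real.exp S := fun r =>
      (abs_Gt_le _ _ (abs_ec _) u hu0 r).trans (Real.exp_le_exp.2 hSt)
    have hexp : 2 * Real.exp S ≤ A * C := hC.trans (mul_le_mul_of_nonneg_right hAv (by linarith))
    have hexp0 : 0 < Real.exp S := Real.exp_pos _
    -- the value at the empty set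
    have g1 : gK P b u (t + 1) ∅ = K * A := by
      rw [gK_succ, empty_inter, empty_inter, hGA, ← hK]
    have g2 : gL P b u (t + 1) ∅ = gL P b u t ∅ * A - K * ES (P t) (b t) u := by
      rw [gL_succ, empty_inter, empty_inter, hGA, hGE, ← hK]
    have hprod0 : 0 ≤ ∏ p ∈ P t, (1 - u p) := prod_nonneg fun p hp => by
      have := hu1 p hp
      linarith
    rw [g1, sum_range_succ, ← hs]
    refine ⟨⟨?_, by positivity⟩, ?_, ?_, ?_⟩
    · rw [prod_range_succ]
      exact mul_le_mul i1 hA1 hprod0 i2.le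
    · intro q hq
      obtain ⟨q1, hq1⟩ : ∃ q1, q1 = q ∩ PP P t := ⟨_, rfl⟩
      obtain ⟨q2, hq2⟩ : ∃ q2, q2 = q ∩ P t := ⟨_, rfl⟩
      have hcard : q.card = q1.card + q2.card := by
        rw [hq1, hq2, ← card_union_of_disjoint, ← inter_union_distrib_left, ← PP_succ,
          inter_eq_left.2 hq]
        exact disjoint_of_subset_left inter_subset_right
          (disjoint_of_subset_right inter_subset_right (PP_disj P hP t))
      have e1 : gK P b u (t + 1) q = gK P b u t q1 * Gt (P t) (ac (b t)) u q2 := by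
        rw [gK_succ, hq1, hq2]
      rw [e1, abs_mul, hcard, pow_add]
      have j1 := i3 q1 (by rw [hq1]; exact inter_subset_right)
      have hCq1 : 0 < C ^ q1.card := by positivity
      rcases eq_or_ne q2 ∅ with h | h
      · rw [h, hGA, card_empty, pow_zero, abs_of_pos hA0]
        calc |gK P b u t q1| * A ≤ K * C ^ q1.card * A := mul_le_mul_of_nonneg_right j1 hA0.le
          _ = _ := by ring
      · have h2 : 1 ≤ q2.card := card_pos.2 (nonempty_iff_ne_empty.2 h)
        have h3 : C ≤ C ^ q2.card := by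
          calc C = C ^ 1 := (pow_one C).symm
            _ ≤ C ^ q2.card := pow_le_pow_right₀ hC1 h2
        calc |gK P b u t q1| * |Gt (P t) (ac (b t)) u q2| ≤ (K * C ^ q1.card) * Real.exp S :=
              mul_le_mul j1 (hGa q2) (abs_nonneg _) (by positivity)
          _ ≤ (K * C ^ q1.card) * (A * C) := by
              apply mul_le_mul_of_nonneg_left _ (by positivity)
              linarith
          _ ≤ (K * C ^ q1.card) * (A * C ^ q2.card) := by
              apply mul_le_mul_of_nonneg_left _ (by positivity)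
              exact mul_le_mul_of_nonneg_left h3 hA0.le
          _ = _ := by ring
    · rw [g2]
      have a1 : K * (1 - s) * A ≤ gL P b u t ∅ * A := mul_le_mul_of_nonneg_right i4 hA0.le
      have a2 : K * ES (P t) (b t) u ≤ K * (A * e t) := mul_le_mul_of_nonneg_left hE1 i2.le
      linarith
    · intro q hq
      obtain ⟨q1, hq1⟩ : ∃ q1, q1 = q ∩ PP P t := ⟨_, rfl⟩
      obtain ⟨q2, hq2⟩ : ∃ q2, q2 = q ∩ P t := ⟨_, rfl⟩
      have hcard : q.card = q1.card + q2.card := by
        rw [hq1, hq2, ← card_union_of_disjoint, ← inter_union_distrib_left, ← PP_succ,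
          inter_eq_left.2 hq]
        exact disjoint_of_subset_left inter_subset_right
          (disjoint_of_subset_right inter_subset_right (PP_disj P hP t))
      have e1 : gL P b u (t + 1) q = gL P b u t q1 * Gt (P t) (ac (b t)) u q2 -
          gK P b u t q1 * Gt (P t) (ec (b t)) u q2 := by
        rw [gL_succ, hq1, hq2]
      rw [e1, hcard, pow_add]
      refine (abs_sub _ _).trans ?_
      rw [abs_mul, abs_mul]
      have j1 := i3 q1 (by rw [hq1]; exact inter_subset_right)
      have j2 := i5 q1 (by rw [hq1]; exact inter_subset_right)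
      have hCq1 : 0 < C ^ q1.card := by positivity
      have het := he0 t
      rcases eq_or_ne q2 ∅ with h | h
      · rw [h, hGA, hGE, card_empty, pow_zero, abs_of_pos hA0, abs_of_nonneg hE0]
        calc |gL P b u t q1| * A + |gK P b u t q1| * ES (P t) (b t) u
            ≤ K * C ^ q1.card * (1 + s) * A + K * C ^ q1.card * (A * e t) := by
              apply add_le_add
              · exact mul_le_mul_of_nonneg_right j2 hA0.le
              · exact mul_le_mul j1 hE1 hE0 (by positivity)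
          _ = _ := by ring
      · have h2 : 1 ≤ q2.card := card_pos.2 (nonempty_iff_ne_empty.2 h)
        have h3 : C ≤ C ^ q2.card := by
          calc C = C ^ 1 := (pow_one C).symm
            _ ≤ C ^ q2.card := pow_le_pow_right₀ hC1 h2
        calc |gL P b u t q1| * |Gt (P t) (ac (b t)) u q2| +
              |gK P b u t q1| * |Gt (P t) (ec (b t)) u q2|
            ≤ K * C ^ q1.card * (1 + s) * Real.exp S + K * C ^ q1.card * Real.exp S := by
              apply add_le_add
              · exact mul_le_mul j2 (hGa q2) (abs_nonneg _) (by positivity)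
              · exact mul_le_mul j1 (hGe q2) (abs_nonneg _) (by positivity)
          _ ≤ K * C ^ q1.card * (1 + s) * (2 * Real.exp S) := by
              have : 0 ≤ K * C ^ q1.card * (s * Real.exp S) := by positivity
              nlinarith
          _ ≤ K * C ^ q1.card * (1 + s) * (A * C ^ q2.card) := by
              apply mul_le_mul_of_nonneg_left _ (by positivity)
              exact hexp.trans (mul_le_mul_of_nonneg_left h3 hA0.le)
          _ ≤ _ := by
              have : 0 ≤ K * C ^ q1.card * (A * C ^ q2.card) * e t := by positivity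
              nlinarith

end

end Pool.Agent.H14.SK
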