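import Pool.Agent.H14.SK.Sieve
import Pool.Graph.R_seed8.W123.RU.PolyV

/-!
# Pairs in a residue class with sifted difference, for systems of polynomials (helper14)
-/

set_option autoImplicit false
set_option linter.unusedSectionVars false
set_option linter.deprecated false

namespace Pool.Agent.H14.SK

open Finset Polynomial
open Pool.Agent.H373R2.T7 Pool.Agent.W123.RP Pool.Agent.W123.RU.Poly

variable {ι : Type} [Fintype ι]

/-- the sifting condition for the differences divided by `W` -/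
def TW (f : ι → ℤ[X]) (W p : ℕ) (n : ℤ) : Prop := ∃ i, (p : ℤ) ∣ (f i).eval ((W : ℤ) * n)

/-- no value of the system at the difference has a prime factor `≤ z` -/
def Rg (f : ι → ℤ[X]) (z a b : ℕ) : Prop :=
  ∀ p : ℕ, p.Prime → p ≤ z → ∀ i, ¬ (p : ℤ) ∣ (f i).eval ((b : ℤ) - a)

lemma dvd_eval_iff (f : ℤ[X]) (p : ℕ) (n m : ℤ) (h : (p : ℤ) ∣ n - m) :
    (p : ℤ) ∣ f.eval n ↔ (p : ℤ) ∣ f.eval m := by
  have h1 : n - m ∣ f.eval n - f.eval m := Polynomial.sub_dvd_eval_sub n m f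
  have h2 := h.trans h1
  constructor
  · intro h3
    have := dvd_sub h3 h2
    rwa [sub_sub_cancel] at this
  · intro h3
    have := dvd_add h2 h3
    rwa [sub_add_cancel] at this

lemma TW_per (f : ι → ℤ[X]) (W p : ℕ) (n m : ℤ) (h : (p : ℤ) ∣ n - m) : TW f W p n ↔ TW f W p m := by
  unfold TW
  apply exists_congr
  intro i
  apply dvd_eval_iff
  have e : (W : ℤ) * n - W * m = W * (n - m) := by ring
  rw [e]
  exact h.mul_left _

lemma not_dvd_of_unit (f : ℤ[X]) (h0 : IsUnit (f.eval 0)) (p : ℕ) (hp : p.Prime) (n : ℤ) (h : (p : ℤ) ∣ n) :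
    ¬ (p : ℤ) ∣ f.eval n := by
  intro h1
  have h2 := (dvd_eval_iff f p n 0 (by rwa [sub_zero])).1 h1
  have h3 := isUnit_of_dvd_unit h2 h0
  exact (Nat.prime_iff_prime_int.1 hp).not_unit h3

open Classical in
lemma rho_TW (f : ι → ℤ[X]) (h0 : ∀ i, IsUnit ((f i).eval 0)) (W p : ℕ) (hp : p.Prime) :
    rho (TW f W) p ≤ nuB (Q f) p := by
  by_cases hpW : p ∣ W
  · have : rho (TW f W) p = 0 := by
      unfold rho
      rw [card_eq_zero, filter_eq_empty_iff]
      rintro r _ ⟨i, hi⟩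
      refine not_dvd_of_unit (f i) (h0 i) p hp _ ?_ hi
      exact (Int.natCast_dvd_natCast.2 hpW).mul_right _
    omega
  · unfold rho nuB
    apply card_le_card_of_injOn (fun r => (W * r) % p)
    · intro r hr
      simp only [coe_filter, Set.mem_setOf_eq, mem_range] at hr ⊢
      refine ⟨Nat.mod_lt _ hp.pos, ?_⟩
      obtain ⟨i, hi⟩ := hr.2
      refine ⟨i, ?_⟩
      refine (dvd_eval_iff (f i) p _ _ ?_).1 hi
      have h1 : (((W * r) % p : ℕ) : ℤ) = ((W : ℤ) * r) % p := by push_cast; rfl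
      rw [h1]
      exact Int.dvd_self_sub_emod
    · intro r hr r' hr' h
      simp only [coe_filter, Set.mem_setOf_eq, mem_range] at hr hr'
      have hco : Nat.Coprime p W := (Nat.Prime.coprime_iff_not_dvd hp).2 hpW
      have h2 : r ≡ r' [MOD p] := Nat.ModEq.cancel_left_of_coprime hco h
      exact Nat.ModEq.eq_of_lt_of_lt h2 hr.1 hr'.1

open Classical in
lemma prod_ge_Vq (f : ι → ℤ[X]) (h0 : ∀ i, IsUnit ((f i).eval 0)) (W w z : ℕ) :
    Vq (Q f) z ≤ ∏ p ∈ (Ioc w z).filter Nat.Prime, (1 - (rho (TW f W) p : ℝ) / p) := by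
  unfold Vq
  have hsub : (Ioc w z).filter Nat.Prime ⊆ pz z := by
    intro p hp
    rw [mem_filter, mem_Ioc] at hp
    exact mem_pz.2 ⟨hp.1.2, hp.2⟩
  rw [← prod_sdiff hsub]
  have h1 : ∏ p ∈ pz z \ (Ioc w z).filter Nat.Prime, (1 - (nuB (Q f) p : ℝ) / p) ≤ 1 := by
    apply prod_le_one
    · intro p hp
      exact one_sub_nonneg _ p (mem_pz.1 (mem_sdiff.1 hp).1).2
    · intro p _
      have : (0 : ℝ) ≤ (nuB (Q f) p : ℝ) / p := by positivity
      linarith
  have h2 : ∏ p ∈ (Ioc w z).filter Nat.Prime, (1 - (nuB (Q f) p : ℝ) / p) ≤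
      ∏ p ∈ (Ioc w z).filter Nat.Prime, (1 - (rho (TW f W) p : ℝ) / p) := by
    apply prod_le_prod
    · intro p hp
      exact one_sub_nonneg _ p (mem_filter.1 hp).2
    · intro p hp
      have hpp := (mem_filter.1 hp).2
      have h3 : (rho (TW f W) p : ℝ) ≤ nuB (Q f) p := by exact_mod_cast rho_TW f h0 W p hpp
      have h4 : (rho (TW f W) p : ℝ) / p ≤ (nuB (Q f) p : ℝ) / p :=
        div_le_div_of_nonneg_right h3 (by positivity)
      linarith
  have h3 : 0 ≤ ∏ p ∈ (Ioc w z).filter Nat.Prime, (1 - (nuB (Q f) p : ℝ) / p) :=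
    prod_nonneg fun p hp => one_sub_nonneg _ p (mem_filter.1 hp).2
  calc _ ≤ 1 * ∏ p ∈ (Ioc w z).filter Nat.Prime, (1 - (nuB (Q f) p : ℝ) / p) :=
        mul_le_mul_of_nonneg_right h1 h3
    _ ≤ _ := by rw [one_mul]; exact h2

open Classical in
/-- the elements of `A` in a residue class -/
noncomputable def Ac (A : Finset ℕ) (W r : ℕ) : Finset ℕ := A.filter (fun a => a % W = r)

open Classical in
theorem class_lower (f : ι → ℤ[X]) (hf : Sys f) (h0 : ∀ i, IsUnit ((f i).eval 0)) :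
    ∃ (B w₀ : ℕ) (C : ℝ), 0 < C ∧ ∀ (w z N : ℕ) (A : Finset ℕ) (σ : ℝ) (r : ℕ), w₀ ≤ w → 1 ≤ z →
      A ⊆ Icc 1 N → 4 * (z ^ (4 * B + 6)) ^ 2 ≤ N / primorial w + 1 → 1 / 2 ≤ σ → σ ≤ 1 →
      C ≤ (w : ℝ) ^ (1 - σ) →
      252 * ((N / primorial w + 1 : ℕ) : ℝ) * (w : ℝ) ^ (-σ) ≤ (Ac A (primorial w) r).card →
      (1 / 2 * Vq (Q f) z) * ((Ac A (primorial w) r).card *
        ((Ac A (primorial w) r).card - 252 * ((N / primorial w + 1 : ℕ) : ℝ) * (w : ℝ) ^ (-σ))) ≤
      (((Ac A (primorial w) r ×ˢ Ac A (primorial w) r).filter (fun a => Rg f z a.1 a.2)).card : ℝ) := by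
  obtain ⟨g, hg1, hg⟩ := exists_c f hf
  obtain ⟨B, C, hC, hmain⟩ := pairs_main g
  refine ⟨B, max 3 (2 * g), C, hC, ?_⟩
  intro w z N A σ r hw hz hA hz2 hσ hσ1 hCw hcard
  obtain ⟨W, hW⟩ : ∃ W, W = primorial w := ⟨_, rfl⟩
  rw [← hW] at hz2 hcard ⊢
  have hW0 : 0 < W := by rw [hW]; exact primorial_pos w
  obtain ⟨A1, hA1⟩ : ∃ A1, A1 = Ac A W r := ⟨_, rfl⟩
  rw [← hA1] at hcard ⊢
  have hmod : ∀ a ∈ A1, a % W = r := by
    intro a ha
    rw [hA1] at ha
    unfold Ac at ha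
    exact (mem_filter.1 ha).2
  have hAN : ∀ a ∈ A1, a ≤ N := by
    intro a ha
    rw [hA1] at ha
    unfold Ac at ha
    exact (mem_Icc.1 (hA (mem_filter.1 ha).1)).2
  have hinj : Set.InjOn (fun a => a / W + 1) (A1 : Set ℕ) := by
    intro a ha b hb hab
    simp only [Nat.add_right_cancel_iff] at hab
    have e1 := Nat.div_add_mod a W
    have e2 := Nat.div_add_mod b W
    rw [hmod a ha] at e1
    rw [hmod b hb] at e2
    rw [← e1, ← e2, hab]
  obtain ⟨A', hA'⟩ : ∃ A', A' = A1.image (fun a => a / W + 1) := ⟨_, rfl⟩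
  have hA'c : A'.card = A1.card := by rw [hA']; exact card_image_of_injOn hinj
  have hA'M : A' ⊆ Icc 1 (N / W + 1) := by
    intro x hx
    rw [hA', mem_image] at hx
    obtain ⟨a, ha, rfl⟩ := hx
    rw [mem_Icc]
    exact ⟨Nat.le_add_left 1 _, Nat.add_le_add_right (Nat.div_le_div_right (hAN a ha)) 1⟩
  have h1 := hmain (TW f W) (fun p n m h => TW_per f W p n m h)
    (fun p hp => (rho_TW f h0 W p hp).trans (hg.few p hp)) w z (N / W + 1) A' σ
    ((le_max_left _ _).trans hw) ((le_max_right _ _).trans hw) hz hA'M hz2 hσ hσ1 hCw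
    (by rw [hA'c]; exact hcard)
  rw [hA'c] at h1
  have h2 : ((A' ×ˢ A').filter (fun a => Sft (TW f W) w z ((a.2 : ℤ) - a.1))).card ≤
      ((A1 ×ˢ A1).filter (fun a => Rg f z a.1 a.2)).card := by
    apply card_le_card_of_injOn (fun a => (W * (a.1 - 1) + r, W * (a.2 - 1) + r))
    · rintro ⟨x, y⟩ hxy
      simp only [coe_filter, Set.mem_setOf_eq, mem_product] at hxy ⊢
      obtain ⟨⟨hx, hy⟩, hs⟩ := hxy
      rw [hA', mem_image] at hx hy
      obtain ⟨a, ha, rfl⟩ := hx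
      obtain ⟨b, hb, rfl⟩ := hy
      have e1 := Nat.div_add_mod a W
      have e2 := Nat.div_add_mod b W
      rw [hmod a ha] at e1
      rw [hmod b hb] at e2
      simp only [Nat.add_sub_cancel]
      rw [e1, e2]
      refine ⟨⟨ha, hb⟩, ?_⟩
      intro p hp hpz i
      have hdiff : (b : ℤ) - a = (W : ℤ) * (((b / W + 1 : ℕ) : ℤ) - ((a / W + 1 : ℕ) : ℤ)) := by
        have e1' : (W : ℤ) * ((a / W : ℕ) : ℤ) + r = a := by exact_mod_cast e1
        have e2' : (W : ℤ) * ((b / W : ℕ) : ℤ) + r = b := by exact_mod_cast e2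
        rw [Nat.cast_add, Nat.cast_add, Nat.cast_one]
        linear_combination e1' - e2'
      by_cases hpw : p ≤ w
      · apply not_dvd_of_unit (f i) (h0 i) p hp
        rw [hdiff]
        apply Dvd.dvd.mul_right
        have h3 : p ∣ W := by
          rw [hW]
          exact (Nat.Prime.dvd_primorial_iff hp).2 hpw
        exact_mod_cast h3
      · intro h4
        apply hs p hp (by omega) hpz
        refine ⟨i, ?_⟩
        rw [← hdiff]
        exact h4
    · rintro ⟨x, y⟩ hxy ⟨x', y'⟩ hxy' h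
      simp only [coe_filter, Set.mem_setOf_eq, mem_product] at hxy hxy'
      simp only [Prod.mk.injEq, Nat.add_right_cancel_iff, Nat.mul_right_inj hW0.ne'] at h
      have q1 := (mem_Icc.1 (hA'M hxy.1.1)).1
      have q2 := (mem_Icc.1 (hA'M hxy.1.2)).1
      have q3 := (mem_Icc.1 (hA'M hxy'.1.1)).1
      have q4 := (mem_Icc.1 (hA'M hxy'.1.2)).1
      simp only [Prod.mk.injEq]
      omega
  have h3 : (1 / 2 * Vq (Q f) z) * ((A1.card : ℝ) *
      (A1.card - 252 * ((N / W + 1 : ℕ) : ℝ) * (w : ℝ) ^ (-σ))) ≤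
      (1 / 2 * ∏ p ∈ (Ioc w z).filter Nat.Prime, (1 - (rho (TW f W) p : ℝ) / p)) *
        (A1.card * (A1.card - 252 * ((N / W + 1 : ℕ) : ℝ) * (w : ℝ) ^ (-σ))) := by
    apply mul_le_mul_of_nonneg_right
    · have := prod_ge_Vq f h0 W w z
      linarith
    · apply mul_nonneg (Nat.cast_nonneg _)
      linarith
  refine h3.trans (h1.trans ?_)
  exact_mod_cast h2

end Pool.Agent.H14.SK
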