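import Pool.Agent.H14.SK.Sieve

/-!
# The coefficients of the lower bound sieve (helper14)
-/

set_option autoImplicit false
set_option linter.unusedSectionVars false
set_option linter.deprecated false

namespace Pool.Agent.H14.SK

open Finset

open Classical in
/-- **The lower bound sieve with its balanced expansion.** -/
theorem sieve_exists (g : ℕ) : ∃ (B : ℕ) (C : ℝ), 1 ≤ C ∧ ∀ (T : ℕ → ℤ → Prop) [∀ p n, Decidable (T p n)],
    (∀ p : ℕ, p.Prime → rho T p ≤ g) → ∀ (w z : ℕ), 3 ≤ w → 2 * g ≤ w → 1 ≤ z →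
    ∃ c : Finset ℕ → ℝ, 0 < c ∅ ∧
      (∏ p ∈ (Ioc w z).filter Nat.Prime, (1 - (rho T p : ℝ) / p)) / 2 ≤ c ∅ ∧
      (∀ q ⊆ (Ioc w z).filter Nat.Prime, |c q| ≤ 3 * c ∅ * C ^ q.card) ∧
      (∀ q ⊆ (Ioc w z).filter Nat.Prime, c q ≠ 0 → Pr q ≤ z ^ (4 * B + 6)) ∧
      (∀ n : ℤ, ∑ q ∈ ((Ioc w z).filter Nat.Prime).powerset,
        c q * ∏ p ∈ q, ((if T p n then (1 : ℝ) else 0) - (rho T p : ℝ) / p) ≤
        if Sft T w z n then 1 else 0) := by
  obtain ⟨C0, hC0, hblock⟩ := block_sum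
  obtain ⟨S, hS⟩ : ∃ S : ℝ, S = g * C0 := ⟨_, rfl⟩
  have hS0 : 0 ≤ S := by rw [hS]; positivity
  obtain ⟨v, hv⟩ : ∃ v : ℝ, v = Real.exp (-(2 * S)) := ⟨_, rfl⟩
  have hv0 : 0 < v := by rw [hv]; positivity
  obtain ⟨B, hB⟩ : ∃ B : ℕ, 2 * (1 / 2 : ℝ) ^ (2 * B) * Real.exp (2 * S) ≤ v := by
    obtain ⟨B, hB⟩ := exists_pow_lt_of_lt_one (show 0 < v / (2 * Real.exp (2 * S)) by positivity)
      (show (1 / 2 : ℝ) < 1 by norm_num)
    refine ⟨B, ?_⟩
    have h1 : (1 / 2 : ℝ) ^ (2 * B) ≤ (1 / 2 : ℝ) ^ B :=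
      pow_le_pow_of_le_one (by norm_num) (by norm_num) (by omega)
    have h2 := h1.trans hB.le
    rw [le_div_iff₀ (by positivity)] at h2
    linarith
  obtain ⟨C, hC⟩ : ∃ C : ℝ, C = 2 * Real.exp (3 * S) := ⟨_, rfl⟩
  have hC1 : 1 ≤ C := by
    rw [hC]
    have := Real.one_le_exp (show 0 ≤ 3 * S by positivity)
    linarith
  refine ⟨B, C, hC1, ?_⟩
  intro T _ hg w z hw hgw hz
  set u : ℕ → ℝ := fun p => (rho T p : ℝ) / p with hu
  have hprime : ∀ p ∈ PP (PB w z) z, p.Prime := by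
    intro p hp
    rw [PB_cover, mem_filter] at hp
    exact hp.2
  have hwp : ∀ p ∈ PP (PB w z) z, w < p := by
    intro p hp
    rw [PB_cover, mem_filter, mem_Ioc] at hp
    exact hp.1.1
  have hu0 : ∀ p, 0 ≤ u p := fun p => by simp only [hu]; positivity
  have hug : ∀ p : ℕ, p.Prime → u p ≤ g * (1 / (p : ℝ)) := by
    intro p hp
    simp only [hu]
    rw [mul_one_div]
    apply div_le_div_of_nonneg_right _ (by positivity)
    exact_mod_cast hg p hp
  have hug2 : ∀ p : ℕ, p.Prime → w < p → u p ≤ 1 / 2 := by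
    intro p hp hpw
    refine (hug p hp).trans ?_
    have hp0 : (0 : ℝ) < p := by exact_mod_cast hp.pos
    rw [mul_one_div, div_le_iff₀ hp0]
    have h1 : (2 * g : ℝ) ≤ p := by exact_mod_cast (by omega : 2 * g ≤ p)
    linarith
  have hmem : ∀ j < z, ∀ p ∈ PB w z j, p ∈ PP (PB w z) z := fun j hj p hp =>
    mem_biUnion.2 ⟨j, mem_range.2 hj, hp⟩
  have hsumS : ∀ j < z, ∑ p ∈ PB w z j, u p ≤ S := by
    intro j hj
    calc ∑ p ∈ PB w z j, u p ≤ ∑ p ∈ PB w z j, g * (1 / (p : ℝ)) :=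
          sum_le_sum fun p hp => hug p (hprime p (hmem j hj p hp))
      _ = g * ∑ p ∈ PB w z j, 1 / (p : ℝ) := by rw [mul_sum]
      _ ≤ S := by
          rw [hS]
          exact mul_le_mul_of_nonneg_left (hblock w z j hw) (by positivity)
  have hexp : ∀ x : ℝ, 0 ≤ x → x ≤ 1 / 2 → Real.exp (-(2 * x)) ≤ 1 - x := by
    intro x hx0 hx1
    have h1 : Real.exp (-(2 * x)) * Real.exp (2 * x) = 1 := by
      rw [← Real.exp_add, neg_add_cancel, Real.exp_zero]
    have h2 := Real.add_one_le_exp (2 * x)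
    have h3 : 0 < Real.exp (-(2 * x)) := Real.exp_pos _
    have h4 : Real.exp (-(2 * x)) * (2 * x + 1) ≤ 1 := by
      calc _ ≤ Real.exp (-(2 * x)) * Real.exp (2 * x) := mul_le_mul_of_nonneg_left h2 h3.le
        _ = 1 := h1
    have h5 : 1 ≤ (1 - x) * (2 * x + 1) := by nlinarith
    by_contra hcon
    push Not at hcon
    have h6 : (1 - x) * (2 * x + 1) < Real.exp (-(2 * x)) * (2 * x + 1) :=
      mul_lt_mul_of_pos_right hcon (by linarith)
    linarith
  have hbd := bounds (P := PB w z) (b := fun j => 2 * (B + j)) (PB_disj w z) (fun j => even_two_mul _) u z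
    (fun p _ => hu0 p) (fun p hp => (hug2 p (hprime p hp) (hwp p hp)).trans (by norm_num)) S v C
    hsumS hv0 (by
      intro j hj
      calc v ≤ Real.exp (∑ p ∈ PB w z j, (-(2 * u p))) := by
            rw [hv]
            apply Real.exp_le_exp.2
            rw [sum_neg_distrib, ← mul_sum]
            have := hsumS j hj
            linarith
        _ = ∏ p ∈ PB w z j, Real.exp (-(2 * u p)) := Real.exp_sum _ _
        _ ≤ ∏ p ∈ PB w z j, (1 - u p) := by
            apply prod_le_prod (fun _ _ => (Real.exp_pos _).le)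
            intro p hp
            have hp' := hmem j hj p hp
            exact hexp _ (hu0 p) (hug2 p (hprime p hp') (hwp p hp')))
    hC1 (by
      rw [hv, hC]
      have : Real.exp (-(2 * S)) * (2 * Real.exp (3 * S)) = 2 * (Real.exp (-(2 * S)) * Real.exp (3 * S)) := by
        ring
      rw [this, ← Real.exp_add]
      apply le_of_eq
      congr 2
      ring)
    (fun j => (1 / 2) ^ (j + 2)) (by
      intro j hj
      refine (ES_le _ _ u fun p _ => hu0 p).trans ?_
      have h1 : Real.exp (2 * ∑ p ∈ PB w z j, u p) ≤ Real.exp (2 * S) := by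
        apply Real.exp_le_exp.2
        have := hsumS j hj
        linarith
      have h2 : ((1 : ℝ) / 2) ^ (2 * (B + j) + 1) = (1 / 2) ^ (2 * B) * (1 / 2) ^ (2 * j + 1) := by
        rw [← pow_add]
        congr 1
        ring
      have h3 : ((1 : ℝ) / 2) ^ (2 * j + 1) ≤ 2 * (1 / 2) ^ (j + 2) := by
        have h4 : ((1 : ℝ) / 2) ^ (2 * j + 1) ≤ (1 / 2) ^ (j + 1) :=
          pow_le_pow_of_le_one (by norm_num) (by norm_num) (by omega)
        have h5 : (2 : ℝ) * (1 / 2) ^ (j + 2) = (1 / 2) ^ (j + 1) := by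
          rw [pow_succ (1 / 2 : ℝ) (j + 1)]
          ring
        rw [h5]
        exact h4
      calc ((1 : ℝ) / 2) ^ (2 * (B + j) + 1) * Real.exp (2 * ∑ p ∈ PB w z j, u p)
          ≤ ((1 / 2) ^ (2 * B) * (2 * (1 / 2) ^ (j + 2))) * Real.exp (2 * S) := by
            rw [h2]
            apply mul_le_mul _ h1 (Real.exp_pos _).le (by positivity)
            exact mul_le_mul_of_nonneg_left h3 (by positivity)
        _ = (2 * (1 / 2 : ℝ) ^ (2 * B) * Real.exp (2 * S)) * (1 / 2) ^ (j + 2) := by ring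
        _ ≤ v * (1 / 2) ^ (j + 2) := mul_le_mul_of_nonneg_right hB (by positivity))
    (fun j => by positivity)
  obtain ⟨⟨b1, b2⟩, _, b4, b5⟩ := hbd
  have he : ∑ j ∈ range z, ((1 : ℝ) / 2) ^ (j + 2) ≤ 1 / 2 := by
    have h1 : ∑ j ∈ range z, ((1 : ℝ) / 2) ^ (j + 2) = 1 / 4 * ∑ j ∈ range z, (1 / 2) ^ j := by
      rw [mul_sum]
      apply sum_congr rfl
      intro j _
      rw [pow_add]
      ring
    have h2 : ∑ j ∈ range z, ((1 : ℝ) / 2) ^ j ≤ 2 := by
      have := (summable_geometric_of_lt_one (show (0 : ℝ) ≤ 1 / 2 by norm_num)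
        (by norm_num)).sum_le_tsum (range z) (fun i _ => by positivity)
      rw [tsum_geometric_of_lt_one (by norm_num) (by norm_num)] at this
      norm_num at this ⊢
      exact this
    rw [h1]
    linarith
  obtain ⟨K, hK⟩ : ∃ K, K = gK (PB w z) (fun j => 2 * (B + j)) u z ∅ := ⟨_, rfl⟩
  rw [← hK] at b1 b2 b4 b5

  have hprod : ∏ p ∈ (Ioc w z).filter Nat.Prime, (1 - (rho T p : ℝ) / p) ≤ K := by
    refine le_trans (le_of_eq ?_) b1
    rw [← PB_cover]
    unfold PP
    rw [prod_biUnion]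
    intro i _ j _ hij
    exact PB_disj w z i j hij
  have hK2 : K / 2 ≤ gL (PB w z) (fun j => 2 * (B + j)) u z ∅ := by
    refine le_trans ?_ b4
    have : 0 ≤ K := b2.le
    nlinarith
  refine ⟨gL (PB w z) (fun j => 2 * (B + j)) u z, by linarith, by linarith, ?_, ?_, ?_⟩
  · intro q hq
    rw [← PB_cover] at hq
    refine (b5 q hq).trans ?_
    have h1 : 0 ≤ C ^ q.card := by positivity
    calc K * C ^ q.card * (1 + ∑ j ∈ range z, ((1 : ℝ) / 2) ^ (j + 2)) ≤ K * C ^ q.card * (3 / 2) :=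
          mul_le_mul_of_nonneg_left (by linarith) (by positivity)
      _ = (3 * (K / 2)) * C ^ q.card := by ring
      _ ≤ _ := mul_le_mul_of_nonneg_right (by linarith) h1
  · intro q hq hne
    rw [← PB_cover] at hq
    exact level w z B z hz q hq (gL_support u z q hne)
  · intro n
    rw [← PB_cover, ← LL_expand (PB_disj w z)]
    have h1 := (LL_le (P := PB w z) (b := fun j => 2 * (B + j)) (fun j => even_two_mul _)
      (fun p => if T p n then 1 else 0) z (fun p _ => by
        by_cases h : T p n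
        · right; simp [h]
        · left; simp [h])).1
    refine h1.trans ?_
    by_cases h : Sft T w z n
    · rw [if_pos h]
      apply prod_le_one
      · intro j _
        apply prod_nonneg
        intro p _
        split_ifs <;> norm_num
      · intro j _
        apply prod_le_one
        · intro p _
          split_ifs <;> norm_num
        · intro p _
          split_ifs <;> norm_num
    · rw [if_neg h]
      unfold Sft at h
      push Not at h
      obtain ⟨p, hp, hp1, hp2, hp3⟩ := h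
      have h2 : p ∈ PP (PB w z) z := by
        rw [PB_cover, mem_filter, mem_Ioc]
        exact ⟨⟨hp1, hp2⟩, hp⟩
      obtain ⟨j, hj, hpj⟩ := mem_biUnion.1 h2
      apply le_of_eq
      apply prod_eq_zero hj
      apply prod_eq_zero hpj
      simp [hp3]

end Pool.Agent.H14.SK
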