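import Pool.Agent.H14.SK.Brun
import Pool.Agent.H14.SK.Four

/-!
# Pairs with sifted differences (helper14)
-/

set_option autoImplicit false

namespace Pool.Agent.H14.SK

open Finset

lemma dyadic (A : Finset ℕ) (M D w : ℕ) (hA : A ⊆ Icc 1 M) (hD : 4 * D ^ 2 ≤ M) (hw : 1 ≤ w) (σ : ℝ)
    (hσ : 1 / 2 ≤ σ) (hσ1 : σ ≤ 1) (𝒬 : Finset (Finset ℕ))
    (hp : ∀ q ∈ 𝒬, ∀ p ∈ q, p.Prime) (hQ : ∀ q ∈ 𝒬, Pr q ≤ D) (hQw : ∀ q ∈ 𝒬, w ≤ Pr q) :
    ∑ q ∈ 𝒬, ((Pr q : ℕ) : ℝ) ^ (-σ) * EE A q ≤ 84 * M * A.card * (w : ℝ) ^ (-σ) := by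
  classical
  have hσ0 : 0 < σ := by linarith
  obtain ⟨r, hr⟩ : ∃ r : ℝ, r = (2 : ℝ) ^ (-σ) := ⟨_, rfl⟩
  have hr0 : 0 < r := by rw [hr]; positivity
  have hr1 : r ≤ 5 / 7 := by
    rw [hr]
    have h1 : (2 : ℝ) ^ (-σ) ≤ (2 : ℝ) ^ (-(1 / 2) : ℝ) :=
      Real.rpow_le_rpow_of_exponent_le (by norm_num) (by linarith)
    have h2 : (2 : ℝ) ^ (-(1 / 2) : ℝ) = (√2)⁻¹ := by
      rw [Real.rpow_neg (by norm_num), Real.sqrt_eq_rpow]
    rw [h2] at h1
    refine h1.trans ?_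
    have h3 : (7 / 5 : ℝ) ≤ √2 := by
      apply Real.le_sqrt_of_sq_le
      norm_num
    calc (√2)⁻¹ ≤ (7 / 5 : ℝ)⁻¹ := inv_anti₀ (by norm_num) h3
      _ = 5 / 7 := by norm_num
  have hM0 : (0 : ℝ) ≤ M := Nat.cast_nonneg _
  -- one dyadic block
  have hblock : ∀ i : ℕ, ∑ q ∈ 𝒬.filter (fun q => Nat.log 2 (Pr q) = i),
      ((Pr q : ℕ) : ℝ) ^ (-σ) * EE A q ≤ r ^ i * (12 * M * A.card) := by
    intro i
    rcases (𝒬.filter (fun q => Nat.log 2 (Pr q) = i)).eq_empty_or_nonempty with h | h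
    · rw [h, sum_empty]
      positivity
    have hi : 4 * (2 ^ i) ^ 2 ≤ M := by
      obtain ⟨q, hq⟩ := h
      rw [mem_filter] at hq
      have h1 : 2 ^ i ≤ Pr q := by
        rw [← hq.2]
        exact Nat.pow_log_le_self 2 (Pr_pos (hp q hq.1)).ne'
      have h2 := h1.trans (hQ q hq.1)
      exact (Nat.mul_le_mul_left 4 (Nat.pow_le_pow_left h2 2)).trans hD
    calc ∑ q ∈ 𝒬.filter (fun q => Nat.log 2 (Pr q) = i), ((Pr q : ℕ) : ℝ) ^ (-σ) * EE A q
        ≤ ∑ q ∈ 𝒬.filter (fun q => Nat.log 2 (Pr q) = i), r ^ i * EE A q := by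
          apply sum_le_sum
          intro q hq
          rw [mem_filter] at hq
          apply mul_le_mul_of_nonneg_right _ (EE_nonneg _ _)
          have h1 : 2 ^ i ≤ Pr q := by
            rw [← hq.2]
            exact Nat.pow_log_le_self 2 (Pr_pos (hp q hq.1)).ne'
          have h2 : ((2 : ℝ) ^ i) ≤ ((Pr q : ℕ) : ℝ) := by exact_mod_cast h1
          calc ((Pr q : ℕ) : ℝ) ^ (-σ) ≤ ((2 : ℝ) ^ i) ^ (-σ) :=
                Real.rpow_le_rpow_of_nonpos (by positivity) h2 (by linarith)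
            _ = r ^ i := by
                rw [hr, ← Real.rpow_natCast 2 i, ← Real.rpow_natCast ((2 : ℝ) ^ (-σ)) i,
                  ← Real.rpow_mul (by norm_num), ← Real.rpow_mul (by norm_num)]
                congr 1
                ring
      _ = r ^ i * ∑ q ∈ 𝒬.filter (fun q => Nat.log 2 (Pr q) = i), EE A q := by rw [mul_sum]
      _ ≤ r ^ i * (6 * ((M : ℝ) + ((2 ^ (i + 1) : ℕ) : ℝ) ^ 2) * A.card) := by
          apply mul_le_mul_of_nonneg_left _ (by positivity)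
          apply sum_EE A M _ hA
          · intro q hq
            exact hp q (mem_filter.1 hq).1
          · intro q hq
            rw [mem_filter] at hq
            have := Nat.lt_pow_succ_log_self (b := 2) (by norm_num) (Pr q)
            rw [hq.2] at this
            exact this.le
      _ ≤ r ^ i * (12 * M * A.card) := by
          apply mul_le_mul_of_nonneg_left _ (by positivity)
          have h3 : (((2 ^ (i + 1) : ℕ) : ℝ)) ^ 2 ≤ M := by
            have : (2 ^ (i + 1)) ^ 2 ≤ M := by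
              calc (2 ^ (i + 1)) ^ 2 = 4 * (2 ^ i) ^ 2 := by ring
                _ ≤ M := hi
            exact_mod_cast this
          have h4 : (0 : ℝ) ≤ A.card := Nat.cast_nonneg _
          nlinarith
  -- collect
  obtain ⟨i0, hi0⟩ : ∃ i0, i0 = Nat.log 2 w := ⟨_, rfl⟩
  obtain ⟨L, hL⟩ : ∃ L : ℕ, ∀ q ∈ 𝒬, Nat.log 2 (Pr q) < i0 + L := by
    refine ⟨𝒬.sup (fun q => Nat.log 2 (Pr q)) + 1, fun q hq => ?_⟩
    have h0 : Nat.log 2 (Pr q) ≤ 𝒬.sup (fun q => Nat.log 2 (Pr q)) :=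
      Finset.le_sup (f := fun q => Nat.log 2 (Pr q)) hq
    omega
  have hmaps : ∀ q ∈ 𝒬, Nat.log 2 (Pr q) ∈ Ico i0 (i0 + L) := by
    intro q hq
    rw [mem_Ico]
    refine ⟨?_, hL q hq⟩
    rw [hi0]
    exact Nat.log_mono_right (hQw q hq)
  rw [← sum_fiberwise_of_maps_to hmaps]
  calc ∑ i ∈ Ico i0 (i0 + L), ∑ q ∈ 𝒬.filter (fun q => Nat.log 2 (Pr q) = i),
        ((Pr q : ℕ) : ℝ) ^ (-σ) * EE A q
      ≤ ∑ i ∈ Ico i0 (i0 + L), r ^ i * (12 * M * A.card) := sum_le_sum fun i _ => hblock i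
    _ = (∑ i ∈ range L, r ^ i) * r ^ i0 * (12 * M * A.card) := by
        rw [sum_Ico_eq_sum_range, Nat.add_sub_cancel_left, sum_mul, sum_mul]
        apply sum_congr rfl
        intro i _
        rw [pow_add]
        ring
    _ ≤ (7 / 2) * (2 * (w : ℝ) ^ (-σ)) * (12 * M * A.card) := by
        apply mul_le_mul_of_nonneg_right _ (by positivity)
        apply mul_le_mul
        · have h5 : ∑ i ∈ range L, r ^ i ≤ ∑' i : ℕ, r ^ i :=
            (summable_geometric_of_lt_one hr0.le (by linarith)).sum_le_tsum _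
              (fun i _ => by positivity)
          rw [tsum_geometric_of_lt_one hr0.le (by linarith)] at h5
          refine h5.trans ?_
          rw [inv_le_comm₀ (by linarith) (by norm_num)]
          linarith
        · have h6 : (w : ℝ) / 2 ≤ (2 : ℝ) ^ i0 := by
            have := Nat.lt_pow_succ_log_self (b := 2) (by norm_num) w
            rw [← hi0] at this
            have h7 : (w : ℝ) < (2 : ℝ) ^ (i0 + 1) := by exact_mod_cast this
            rw [pow_succ] at h7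
            linarith
          have hw0 : (0 : ℝ) < w := by exact_mod_cast hw
          calc r ^ i0 = ((2 : ℝ) ^ i0) ^ (-σ) := by
                rw [hr, ← Real.rpow_natCast 2 i0, ← Real.rpow_natCast ((2 : ℝ) ^ (-σ)) i0,
                  ← Real.rpow_mul (by norm_num), ← Real.rpow_mul (by norm_num)]
                congr 1
                ring
            _ ≤ ((w : ℝ) / 2) ^ (-σ) :=
                Real.rpow_le_rpow_of_nonpos (by positivity) h6 (by linarith)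
            _ = (w : ℝ) ^ (-σ) * (2 : ℝ) ^ σ := by
                rw [Real.div_rpow hw0.le (by norm_num), Real.rpow_neg (by norm_num : (0 : ℝ) ≤ 2) σ]
                field_simp
            _ ≤ (w : ℝ) ^ (-σ) * 2 := by
                apply mul_le_mul_of_nonneg_left _ (by positivity)
                calc (2 : ℝ) ^ σ ≤ (2 : ℝ) ^ (1 : ℝ) :=
                      Real.rpow_le_rpow_of_exponent_le (by norm_num) hσ1
                  _ = 2 := Real.rpow_one 2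
            _ = 2 * (w : ℝ) ^ (-σ) := by ring
        · positivity
        · norm_num
    _ = _ := by ring

/-- the weighted count of the pairs -/
theorem pairs_lower (P : ℕ → Finset ℕ) (b : ℕ → ℕ) (t : ℕ)
    (hP : ∀ i j, i ≠ j → Disjoint (P i) (P j)) (hprime : ∀ p ∈ PP P t, p.Prime)
    (T : ℕ → ℤ → Prop) [∀ p n, Decidable (T p n)]
    (hT : ∀ p : ℕ, ∀ n m : ℤ, (p : ℤ) ∣ n - m → (T p n ↔ T p m))
    (G C : ℝ) (hG : 0 < G) (hC : 0 ≤ C)
    (hG0 : G ≤ gL P b (fun p => (rho T p : ℝ) / p) t ∅)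
    (hGq : ∀ q ⊆ PP P t, |gL P b (fun p => (rho T p : ℝ) / p) t q| ≤ 3 * G * C ^ q.card)
    (A : Finset ℕ) (M D w : ℕ) (hA : A ⊆ Icc 1 M) (hD : 4 * D ^ 2 ≤ M) (hw : 1 ≤ w)
    (hlevel : ∀ q ⊆ PP P t, gL P b (fun p => (rho T p : ℝ) / p) t q ≠ 0 → Pr q ≤ D)
    (hwp : ∀ p ∈ PP P t, w ≤ p) (σ : ℝ) (hσ : 1 / 2 ≤ σ) (hσ1 : σ ≤ 1)
    (hCσ : ∀ p ∈ PP P t, C * ((rho T p : ℝ) / p) ≤ (p : ℝ) ^ (-σ)) :
    G * A.card * (A.card - 252 * M * (w : ℝ) ^ (-σ)) ≤
      ∑ x ∈ A, ∑ y ∈ A, LL P b (fun p => if T p ((y : ℤ) - x) then 1 else 0) t := by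
  classical
  set u : ℕ → ℝ := fun p => (rho T p : ℝ) / p with hu
  have hu0 : ∀ p, 0 ≤ u p := fun p => by simp only [hu]; positivity
  have h1 : ∑ x ∈ A, ∑ y ∈ A, LL P b (fun p => if T p ((y : ℤ) - x) then 1 else 0) t =
      ∑ q ∈ (PP P t).powerset, gL P b u t q *
        ∑ x ∈ A, ∑ y ∈ A, ∏ p ∈ q, ((if T p ((y : ℤ) - x) then (1 : ℝ) else 0) - u p) := by
    have e1 : ∀ x ∈ A, ∀ y ∈ A, LL P b (fun p => if T p ((y : ℤ) - x) then 1 else 0) t =
        ∑ q ∈ (PP P t).powerset, gL P b u t q *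
          ∏ p ∈ q, ((if T p ((y : ℤ) - x) then (1 : ℝ) else 0) - u p) := fun x _ y _ =>
      LL_expand hP _ u t
    rw [sum_congr rfl fun x hx => sum_congr rfl fun y hy => e1 x hx y hy,
      sum_congr rfl fun x _ => sum_comm, sum_comm]
    apply sum_congr rfl
    intro q _
    rw [mul_sum]
    apply sum_congr rfl
    intro x _
    rw [mul_sum]
  rw [h1, ← add_sum_erase _ _ (empty_mem_powerset (PP P t))]
  have h2 : ∑ x ∈ A, ∑ y ∈ A, ∏ p ∈ (∅ : Finset ℕ), ((if T p ((y : ℤ) - x) then (1 : ℝ) else 0) - u p) =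
      (A.card : ℝ) * A.card := by
    simp
  rw [h2]
  -- the other terms
  obtain ⟨𝒬, h𝒬⟩ : ∃ 𝒬, 𝒬 = ((PP P t).powerset.erase ∅).filter (fun q => gL P b u t q ≠ 0) := ⟨_, rfl⟩
  have hq𝒬 : ∀ q ∈ 𝒬, q.Nonempty ∧ q ⊆ PP P t ∧ gL P b u t q ≠ 0 := by
    intro q hq
    rw [h𝒬, mem_filter, mem_erase, mem_powerset] at hq
    exact ⟨nonempty_iff_ne_empty.2 hq.1.1, hq.1.2, hq.2⟩
  have h3 : |∑ q ∈ (PP P t).powerset.erase ∅, gL P b u t q *
      ∑ x ∈ A, ∑ y ∈ A, ∏ p ∈ q, ((if T p ((y : ℤ) - x) then (1 : ℝ) else 0) - u p)| ≤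
      3 * G * ∑ q ∈ 𝒬, ((Pr q : ℕ) : ℝ) ^ (-σ) * EE A q := by
    have e2 : ∑ q ∈ (PP P t).powerset.erase ∅, gL P b u t q *
        ∑ x ∈ A, ∑ y ∈ A, ∏ p ∈ q, ((if T p ((y : ℤ) - x) then (1 : ℝ) else 0) - u p) =
        ∑ q ∈ 𝒬, gL P b u t q *
        ∑ x ∈ A, ∑ y ∈ A, ∏ p ∈ q, ((if T p ((y : ℤ) - x) then (1 : ℝ) else 0) - u p) := by
      rw [h𝒬, sum_filter_of_ne]
      intro q _ hne
      exact left_ne_zero_of_mul hne
    rw [e2, mul_sum]
    refine (abs_sum_le_sum_abs _ _).trans (sum_le_sum fun q hq => ?_)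
    obtain ⟨_, hq2, _⟩ := hq𝒬 q hq
    have hqp : ∀ p ∈ q, p.Prime := fun p hp => hprime p (hq2 hp)
    rw [abs_mul]
    have e3 := balanced T hT A hqp
    have e4 := hGq q hq2
    have e5 : C ^ q.card * ∏ p ∈ q, u p ≤ ((Pr q : ℕ) : ℝ) ^ (-σ) := by
      rw [← prod_const, ← prod_mul_distrib]
      calc ∏ p ∈ q, C * u p ≤ ∏ p ∈ q, (p : ℝ) ^ (-σ) :=
            prod_le_prod (fun p _ => mul_nonneg hC (hu0 p)) (fun p hp => hCσ p (hq2 hp))
        _ = (∏ p ∈ q, (p : ℝ)) ^ (-σ) := (Real.finsetProd_rpow q _ (fun p _ => by positivity) _)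
        _ = _ := by
            unfold Pr
            push_cast
            rfl
    have hprod0 : 0 ≤ ∏ p ∈ q, u p := prod_nonneg fun p _ => hu0 p
    calc |gL P b u t q| * |∑ x ∈ A, ∑ y ∈ A, ∏ p ∈ q,
          ((if T p ((y : ℤ) - x) then (1 : ℝ) else 0) - u p)|
        ≤ (3 * G * C ^ q.card) * ((∏ p ∈ q, u p) * EE A q) :=
          mul_le_mul e4 e3 (abs_nonneg _) (by positivity)
      _ = 3 * G * ((C ^ q.card * ∏ p ∈ q, u p) * EE A q) := by ring
      _ ≤ 3 * G * (((Pr q : ℕ) : ℝ) ^ (-σ) * EE A q) := by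
          apply mul_le_mul_of_nonneg_left _ (by positivity)
          exact mul_le_mul_of_nonneg_right e5 (EE_nonneg _ _)
  have h4 := dyadic A M D w hA hD hw σ hσ hσ1 𝒬 (fun q hq p hp => hprime p ((hq𝒬 q hq).2.1 hp))
    (fun q hq => hlevel q (hq𝒬 q hq).2.1 (hq𝒬 q hq).2.2) (by
      intro q hq
      obtain ⟨⟨p, hp⟩, hq2, _⟩ := hq𝒬 q hq
      refine (hwp p (hq2 hp)).trans ?_
      exact Nat.le_of_dvd (Pr_pos fun p hp => hprime p (hq2 hp)) (dvd_prod_of_mem (fun p => p) hp))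
  have h5 : 3 * G * ∑ q ∈ 𝒬, ((Pr q : ℕ) : ℝ) ^ (-σ) * EE A q ≤
      3 * G * (84 * M * A.card * (w : ℝ) ^ (-σ)) := mul_le_mul_of_nonneg_left h4 (by positivity)
  have h6 := (abs_le.1 (h3.trans h5)).1
  have h7 : G * ((A.card : ℝ) * A.card) ≤ gL P b u t ∅ * ((A.card : ℝ) * A.card) :=
    mul_le_mul_of_nonneg_right hG0 (by positivity)
  nlinarith

end Pool.Agent.H14.SK
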