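import Pool.Agent.H14.SK.AbsU

/-!
# Shifted differences, admissible systems of linear forms (helper14)
-/

set_option autoImplicit false
set_option linter.unusedSectionVars false
set_option linter.deprecated false

namespace Pool.Agent.H14.SK

open Finset
open Pool.Agent.H14.MS (VP VP_ge fac_nonneg)

/-- the shifted condition -/
def Sh (T : ℕ → ℤ → Prop) (h : ℤ) (p : ℕ) (n : ℤ) : Prop := T p (n + h)

lemma Sh_per (T : ℕ → ℤ → Prop) (hT : ∀ p : ℕ, ∀ n m : ℤ, (p : ℤ) ∣ n - m → (T p n ↔ T p m)) (h : ℤ) :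
    ∀ p : ℕ, ∀ n m : ℤ, (p : ℤ) ∣ n - m → (Sh T h p n ↔ Sh T h p m) := by
  intro p n m hd
  apply hT
  have : n + h - (m + h) = n - m := by ring
  rwa [this]

open Classical in
lemma rho_Sh_le (T : ℕ → ℤ → Prop) (hT : ∀ p : ℕ, ∀ n m : ℤ, (p : ℤ) ∣ n - m → (T p n ↔ T p m)) (h : ℤ)
    (p : ℕ) (hp : 0 < p) : rho (Sh T h) p ≤ rho T p := by
  unfold rho
  have hp0 : (0 : ℤ) < p := by exact_mod_cast hp
  apply card_le_card_of_injOn (fun r : ℕ => (((r : ℤ) + h) % p).toNat)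
  · intro r hr
    simp only [coe_filter, Set.mem_setOf_eq, mem_range] at hr ⊢
    have h1 : 0 ≤ ((r : ℤ) + h) % p := Int.emod_nonneg _ hp0.ne'
    have h2 : ((r : ℤ) + h) % p < p := Int.emod_lt_of_pos _ hp0
    refine ⟨by omega, ?_⟩
    refine (hT p _ _ ?_).1 hr.2
    rw [Int.toNat_of_nonneg h1]
    exact Int.dvd_self_sub_emod
  · intro r hr r' hr' he
    simp only [coe_filter, Set.mem_setOf_eq, mem_range] at hr hr'
    have h1 : 0 ≤ ((r : ℤ) + h) % p := Int.emod_nonneg _ hp0.ne'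
    have h1' : 0 ≤ ((r' : ℤ) + h) % p := Int.emod_nonneg _ hp0.ne'
    have h2 : ((r : ℤ) + h) % p = ((r' : ℤ) + h) % p := by
      have h3 := congrArg (fun n : ℕ => (n : ℤ)) he
      simp only at h3
      rwa [Int.toNat_of_nonneg h1, Int.toNat_of_nonneg h1'] at h3
    have h3 : (p : ℤ) ∣ ((r' : ℤ) + h) - ((r : ℤ) + h) := Int.ModEq.dvd h2
    have h4 : (p : ℤ) ∣ (r' : ℤ) - r := by
      have : ((r' : ℤ) + h) - ((r : ℤ) + h) = (r' : ℤ) - r := by ring
      rwa [this] at h3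
    have h5 := Int.eq_zero_of_abs_lt_dvd h4 (by
      rw [abs_lt]
      constructor <;> omega)
    omega

open Classical in
lemma rho_Sh (T : ℕ → ℤ → Prop) (hT : ∀ p : ℕ, ∀ n m : ℤ, (p : ℤ) ∣ n - m → (T p n ↔ T p m)) (h : ℤ)
    (p : ℕ) (hp : 0 < p) : rho (Sh T h) p = rho T p := by
  apply le_antisymm (rho_Sh_le T hT h p hp)
  have h1 := rho_Sh_le (Sh T h) (Sh_per T hT h) (-h) p hp
  have h2 : Sh (Sh T h) (-h) = T := by
    funext q n
    unfold Sh
    congr 1
    ring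
  rwa [h2] at h1

open Classical in
lemma PV_Sh (T : ℕ → ℤ → Prop) (hT : ∀ p : ℕ, ∀ n m : ℤ, (p : ℤ) ∣ n - m → (T p n ↔ T p m)) (h : ℤ)
    (u z : ℕ) : PV (Sh T h) u z = PV T u z := by
  unfold PV
  apply prod_congr rfl
  intro p hp
  rw [rho_Sh T hT h p (mem_filter.1 hp).2.pos]

/-- a bounded shift without local obstruction -/
lemma exists_shift (T : ℕ → ℤ → Prop) (hT : ∀ p : ℕ, ∀ n m : ℤ, (p : ℤ) ∣ n - m → (T p n ↔ T p m)) (w : ℕ)
    (h0 : ∀ p : ℕ, p.Prime → p ≤ w → ∃ n : ℤ, ¬ T p n) :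
    ∃ h : ℕ, h < primorial w ∧ ∀ p : ℕ, p.Prime → p ≤ w → ¬ T p h := by
  classical
  obtain ⟨q, hq⟩ : ∃ q, q = (range (w + 1)).filter Nat.Prime := ⟨_, rfl⟩
  have hqp : ∀ p ∈ q, p.Prime := by
    intro p hp
    rw [hq, mem_filter] at hp
    exact hp.2
  choose! ν hν using h0
  have hco : (q : Set ℕ).Pairwise (Function.onFun Nat.Coprime (fun p => p)) := by
    intro a ha b hb hab
    exact (Nat.coprime_primes (hqp a ha) (hqp b hb)).2 hab
  obtain ⟨k, hk⟩ := Nat.chineseRemainderOfFinset (fun p => ((ν p) % (p : ℤ)).toNat)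
    (fun p => p) q (fun p hp => (hqp p hp).pos.ne') hco
  refine ⟨k % primorial w, Nat.mod_lt _ (primorial_pos w), ?_⟩
  intro p hp hpw
  have hpq : p ∈ q := by
    rw [hq, mem_filter, mem_range]
    exact ⟨by omega, hp⟩
  have h1 := hk p hpq
  have hp0 : (0 : ℤ) < p := by exact_mod_cast hp.pos
  have h2 : k % primorial w ≡ k [MOD p] := by
    have h3 : k % primorial w ≡ k [MOD primorial w] := Nat.mod_modEq _ _
    exact h3.of_dvd ((Nat.Prime.dvd_primorial_iff hp).2 hpw)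
  have h4 := h2.trans h1
  have h5 : ((((ν p) % (p : ℤ)).toNat : ℕ) : ℤ) = ν p % p := Int.toNat_of_nonneg (Int.emod_nonneg _ hp0.ne')
  have h6 : (p : ℤ) ∣ ((((ν p) % (p : ℤ)).toNat : ℕ) : ℤ) - ((k % primorial w : ℕ) : ℤ) :=
    Nat.modEq_iff_dvd.1 h4
  rw [h5] at h6
  have h7 : (p : ℤ) ∣ ν p - ((k % primorial w : ℕ) : ℤ) := by
    have h8 : (p : ℤ) ∣ ν p - ν p % p := Int.dvd_self_sub_emod
    have := dvd_add h8 h6
    rwa [sub_add_sub_cancel] at this
  intro h9
  exact hν p hp hpw ((hT p _ _ h7).2 h9)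

open Classical in
/-- **Shifted positive differences satisfying sieve conditions, in sets of density `(log N) ^ (-1 + ε)`.** -/
theorem unif_shift (g : ℕ) :
    ∃ κ : ℝ, 0 < κ ∧ ∀ ε : ℝ, 0 < ε → ∃ (C : ℝ) (N₀ : ℕ), 0 < C ∧ ∀ N : ℕ, N₀ ≤ N → ∀ T : ℕ → ℤ → Prop,
      (∀ p : ℕ, ∀ n m : ℤ, (p : ℤ) ∣ n - m → (T p n ↔ T p m)) → (∀ p : ℕ, p.Prime → rho T p ≤ g) →
      (∀ p : ℕ, p.Prime → ∃ n : ℤ, ¬ T p n) →
      ∀ α : ℝ, 0 < α → Real.log N ^ (-(1 - ε)) ≤ α →
      ∃ h : ℕ, (h : ℝ) ≤ Real.exp (C * α ^ (-(1 + ε))) ∧ ∀ A : Finset ℕ, A ⊆ Icc 1 N → α * N ≤ A.card →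
      Real.exp (-(C * α ^ (-(1 + ε)))) * N ^ 2 * PV T (2 * g) N ≤
        (((A ×ˢ A).filter (fun a => a.1 < a.2 ∧
          ∀ p : ℕ, p.Prime → (p : ℝ) ≤ (N : ℝ) ^ κ → ¬ T p ((a.2 : ℤ) - a.1 + h))).card : ℝ) := by
  obtain ⟨κ, hκ, hU⟩ := unif_abs g
  refine ⟨κ, hκ, ?_⟩
  intro ε hε
  obtain ⟨C, N₀, hC, hN₀⟩ := hU ε hε
  refine ⟨2 * C, N₀, by linarith, ?_⟩
  intro N hN T hT hρ hadm α hα hαL
  have hτ : 0 ≤ C * α ^ (-(1 + ε)) := by positivity
  obtain ⟨h, h1, h2⟩ := exists_shift T hT ⌊C * α ^ (-(1 + ε))⌋₊ (fun p hp _ => hadm p hp)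
  refine ⟨h, ?_, ?_⟩
  · have h3 : (h : ℝ) ≤ (4 : ℝ) ^ ⌊C * α ^ (-(1 + ε))⌋₊ := by
      have : h ≤ 4 ^ ⌊C * α ^ (-(1 + ε))⌋₊ := h1.le.trans (primorial_le_four_pow _)
      exact_mod_cast this
    refine h3.trans ((four_pow_le _).trans (Real.exp_le_exp.2 ?_))
    have := Nat.floor_le hτ
    linarith
  · intro A hA hcard
    have h3 := hN₀ N hN (Sh T h) (Sh_per T hT h) (fun p hp => by rw [rho_Sh T hT h p hp.pos]; exact hρ p hp)
      A α hA hα hαL hcard (by
        intro p hp hpC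
        unfold Sh
        rw [zero_add]
        exact h2 p hp (Nat.le_floor hpC))
    rw [PV_Sh T hT] at h3
    refine le_trans ?_ h3
    have h4 : Real.exp (-(2 * C * α ^ (-(1 + ε)))) ≤ Real.exp (-(C * α ^ (-(1 + ε)))) := by
      apply Real.exp_le_exp.2
      linarith
    have h5 := PV_nonneg T (2 * g) N
    gcongr

/-- all prime factors of the integer `m` are larger than `y` and there are at most `r` of them -/
def AP (y : ℝ) (r : ℕ) (m : ℤ) : Prop :=
  (∀ p : ℕ, p.Prime → (p : ℤ) ∣ m → y < p) ∧ ArithmeticFunction.cardFactors m.natAbs ≤ r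

/-- a positive integer `m ≤ N ^ B` without prime factors up to `N ^ κ` has few prime factors -/
lemma omega_le (κ : ℝ) (hκ : 0 < κ) (N B m : ℕ) (hN : 2 ≤ N) (hm : m ≠ 0) (hmN : m ≤ N ^ B)
    (h : ∀ p : ℕ, p.Prime → p ∣ m → (N : ℝ) ^ κ < p) :
    (ArithmeticFunction.cardFactors m : ℝ) ≤ B / κ := by
  have hN0 : (0 : ℝ) < N := by exact_mod_cast (by omega : 0 < N)
  have hN1 : (1 : ℝ) < N := by exact_mod_cast (by omega : 1 < N)
  have hL : 0 < Real.log N := Real.log_pos hN1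
  have h1 : ((N : ℝ) ^ κ) ^ (m.primeFactorsList.length) ≤ (m : ℝ) := by
    have h2 : ((N : ℝ) ^ κ) ^ (m.primeFactorsList.length) ≤
        ((m.primeFactorsList.map (fun p : ℕ => (p : ℝ))).prod) := by
      have : ∀ l : List ℕ, (∀ p ∈ l, (N : ℝ) ^ κ ≤ p) →
          ((N : ℝ) ^ κ) ^ l.length ≤ (l.map (fun p : ℕ => (p : ℝ))).prod := by
        intro l
        induction l with
        | nil => intro _; simp
        | cons a l ih =>
          intro hl
          rw [List.length_cons, pow_succ, List.map_cons, List.prod_cons, mul_comm]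
          apply mul_le_mul (hl a (by simp)) (ih fun p hp => hl p (by simp [hp])) (by positivity)
            (by positivity)
      apply this
      intro p hp
      exact (h p (Nat.prime_of_mem_primeFactorsList hp) (Nat.dvd_of_mem_primeFactorsList hp)).le
    refine h2.trans ?_
    have h3 : (m.primeFactorsList.map (fun p : ℕ => (p : ℝ))).prod = ((m.primeFactorsList.prod : ℕ) : ℝ) := by
      rw [Nat.cast_list_prod]
    rw [h3, Nat.prod_primeFactorsList hm]
  rw [ArithmeticFunction.cardFactors_apply, le_div_iff₀ hκ]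
  have h4 : (m : ℝ) ≤ (N : ℝ) ^ B := by exact_mod_cast hmN
  have h5 := Real.log_le_log (by positivity) (h1.trans h4)
  rw [Real.log_pow, Real.log_pow, Real.log_rpow hN0] at h5
  have h6 : ((m.primeFactorsList.length : ℝ) * κ) * Real.log N ≤ B * Real.log N := by linarith
  exact le_of_mul_le_mul_right h6 hL

/-- the sieve condition of a system of linear forms -/
def LF {K : ℕ} (a b : Fin K → ℤ) (p : ℕ) (n : ℤ) : Prop := ∃ i, (p : ℤ) ∣ a i * n + b i

lemma LF_per {K : ℕ} (a b : Fin K → ℤ) :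
    ∀ p : ℕ, ∀ n m : ℤ, (p : ℤ) ∣ n - m → (LF a b p n ↔ LF a b p m) := by
  intro p n m h
  unfold LF
  apply exists_congr
  intro i
  have h1 : (p : ℤ) ∣ (a i * n + b i) - (a i * m + b i) := by
    have : (a i * n + b i) - (a i * m + b i) = a i * (n - m) := by ring
    rw [this]
    exact h.mul_left _
  constructor
  · intro h2
    have := dvd_sub h2 h1
    rwa [sub_sub_cancel] at this
  · intro h2
    have := dvd_add h1 h2
    rwa [sub_add_cancel] at this

open Classical in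
lemma LF_rho {K : ℕ} (a b : Fin K → ℤ) (p : ℕ) (hp : p.Prime) (hadm : ∃ n : ℤ, ¬ LF a b p n) :
    rho (LF a b) p ≤ K := by
  have hpi : Prime (p : ℤ) := Nat.prime_iff_prime_int.1 hp
  have h1 : (range p).filter (fun r : ℕ => LF a b p r) ⊆
      (univ : Finset (Fin K)).biUnion (fun i => (range p).filter (fun x : ℕ => (p : ℤ) ∣ a i * (x : ℤ) + b i)) := by
    intro r hr
    obtain ⟨h2, i, h3⟩ := mem_filter.1 hr
    rw [mem_biUnion]
    exact ⟨i, mem_univ _, mem_filter.2 ⟨h2, h3⟩⟩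
  unfold rho
  refine (card_le_card h1).trans (card_biUnion_le.trans ?_)
  calc ∑ i : Fin K, ((range p).filter (fun x : ℕ => (p : ℤ) ∣ a i * (x : ℤ) + b i)).card
      ≤ ∑ _i : Fin K, 1 := by
        apply sum_le_sum
        intro i _
        rw [card_le_one]
        intro x hx y hy
        rw [mem_filter, mem_range] at hx hy
        by_cases hpa : (p : ℤ) ∣ a i
        · exfalso
          have h2 : (p : ℤ) ∣ b i := by
            have := dvd_sub hx.2 (hpa.mul_right (x : ℤ))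
            rwa [add_sub_cancel_left] at this
          obtain ⟨n, hn⟩ := hadm
          exact hn ⟨i, dvd_add (hpa.mul_right n) h2⟩
        · have h2 : (p : ℤ) ∣ a i * ((x : ℤ) - y) := by
            have := dvd_sub hx.2 hy.2
            have e : a i * (x : ℤ) + b i - (a i * (y : ℤ) + b i) = a i * ((x : ℤ) - y) := by ring
            rwa [e] at this
          have h3 := (hpi.dvd_or_dvd h2).resolve_left hpa
          have h4 := Int.eq_zero_of_abs_lt_dvd h3 (by
            rw [abs_lt]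
            constructor <;> omega)
          omega
    _ = K := by simp

open Classical in
/-- **The shifted difference theorem for admissible systems of linear forms.** -/
theorem sys_shift (K : ℕ) : ∃ κ : ℝ, 0 < κ ∧ ∀ B : ℕ, ∃ r : ℕ, ∀ ε : ℝ, 0 < ε → ∃ (C : ℝ) (N₀ : ℕ), 0 < C ∧
    ∀ N : ℕ, N₀ ≤ N → ∀ a b : Fin K → ℤ, (∀ i, |a i| ≤ (N : ℤ) ^ B ∧ |b i| ≤ (N : ℤ) ^ B) →
    (∀ p : ℕ, p.Prime → ∃ n : ℤ, ¬ LF a b p n) →
    ∀ α : ℝ, 0 < α → α ≤ 1 → Real.log N ^ (-(1 - ε)) ≤ α →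
    ∃ h : ℕ, (h : ℝ) ≤ Real.exp (C * α ^ (-(1 + ε))) ∧ h ≤ N ∧ ∀ A : Finset ℕ, A ⊆ Icc 1 N → α * N ≤ A.card →
      Real.exp (-(C * α ^ (-(1 + ε)))) * N ^ 2 * PV (LF a b) (2 * K) N ≤
        (((A ×ˢ A).filter (fun x => x.1 < x.2 ∧
          ∀ i, AP ((N : ℝ) ^ κ) r (a i * ((x.2 : ℤ) - x.1 + h) + b i))).card : ℝ) := by
  obtain ⟨κ, hκ, hU⟩ := unif_shift K
  refine ⟨κ, hκ, ?_⟩
  intro B
  refine ⟨⌈((B + 3 : ℕ) : ℝ) / κ⌉₊, ?_⟩
  -- it is enough to treat small `ε`
  suffices hs : ∀ ε : ℝ, 0 < ε → ε ≤ 1 / 2 → ∃ (C : ℝ) (N₀ : ℕ), 0 < C ∧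
    ∀ N : ℕ, N₀ ≤ N → ∀ a b : Fin K → ℤ, (∀ i, |a i| ≤ (N : ℤ) ^ B ∧ |b i| ≤ (N : ℤ) ^ B) →
    (∀ p : ℕ, p.Prime → ∃ n : ℤ, ¬ LF a b p n) →
    ∀ α : ℝ, 0 < α → α ≤ 1 → Real.log N ^ (-(1 - ε)) ≤ α →
    ∃ h : ℕ, (h : ℝ) ≤ Real.exp (C * α ^ (-(1 + ε))) ∧ h ≤ N ∧ ∀ A : Finset ℕ, A ⊆ Icc 1 N → α * N ≤ A.card →
      Real.exp (-(C * α ^ (-(1 + ε)))) * N ^ 2 * PV (LF a b) (2 * K) N ≤
        (((A ×ˢ A).filter (fun x => x.1 < x.2 ∧
          ∀ i, AP ((N : ℝ) ^ κ) ⌈((B + 3 : ℕ) : ℝ) / κ⌉₊ (a i * ((x.2 : ℤ) - x.1 + h) + b i))).card : ℝ) by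
    intro ε hε
    obtain ⟨e, he⟩ : ∃ e : ℝ, e = min ε (1 / 2) := ⟨_, rfl⟩
    obtain ⟨C, N₀, hC, h1⟩ := hs e (by rw [he]; exact lt_min hε (by norm_num))
      (by rw [he]; exact min_le_right _ _)
    refine ⟨C, max N₀ 3, hC, ?_⟩
    intro N hN a b hab hadm α hα hα1 hαL
    have hee : e ≤ ε := by rw [he]; exact min_le_left _ _
    have hL1 : 1 ≤ Real.log N := by
      have h2 : (3 : ℝ) ≤ N := by exact_mod_cast (le_max_right N₀ 3).trans hN
      have h3 : Real.exp 1 ≤ N := by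
        have := Real.exp_one_lt_d9
        linarith
      rw [Real.le_log_iff_exp_le (by linarith)]
      exact h3
    have h4 : Real.log N ^ (-(1 - e)) ≤ α :=
      le_trans (Real.rpow_le_rpow_of_exponent_le hL1 (by linarith)) hαL
    obtain ⟨h, h5, h6, h7⟩ := h1 N ((le_max_left _ _).trans hN) a b hab hadm α hα hα1 h4
    have h8 : α ^ (-(1 + e)) ≤ α ^ (-(1 + ε)) :=
      Real.rpow_le_rpow_of_exponent_ge hα hα1 (by linarith)
    have h9 : C * α ^ (-(1 + e)) ≤ C * α ^ (-(1 + ε)) := mul_le_mul_of_nonneg_left h8 hC.le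
    refine ⟨h, h5.trans (Real.exp_le_exp.2 h9), h6, ?_⟩
    intro A hA hcard
    refine le_trans ?_ (h7 A hA hcard)
    have h10 : Real.exp (-(C * α ^ (-(1 + ε)))) ≤ Real.exp (-(C * α ^ (-(1 + e)))) := by
      apply Real.exp_le_exp.2
      linarith
    have h11 := PV_nonneg (LF a b) (2 * K) N
    gcongr
  intro ε hε hε1
  obtain ⟨C, N₁, hC, hN₁⟩ := hU ε hε
  obtain ⟨N₂, hN₂⟩ := Filter.eventually_atTop.1
    (((tendsto_rpow_atTop (show (0 : ℝ) < ε ^ 2 by positivity)).comp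
      tendsto_log_nat).eventually_ge_atTop C)
  obtain ⟨N₃, hN₃⟩ := Filter.eventually_atTop.1
    (((tendsto_rpow_atTop hκ).comp tendsto_natCast_atTop_atTop).eventually_ge_atTop (2 : ℝ))
  refine ⟨C, max (max N₁ N₂) (max N₃ 3), hC, ?_⟩
  intro N hN a b hab hadm α hα hα1 hαL
  have hN3 : 3 ≤ N := (le_max_right _ _).trans ((le_max_right _ _).trans hN)
  have hNκ : (2 : ℝ) ≤ (N : ℝ) ^ κ := hN₃ N ((le_max_left _ _).trans ((le_max_right _ _).trans hN))
  have hNr : (3 : ℝ) ≤ N := by exact_mod_cast hN3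
  have hL : 0 < Real.log N := Real.log_pos (by linarith)
  obtain ⟨h, h1, h2⟩ := hN₁ N ((le_max_left _ _).trans ((le_max_left _ _).trans hN)) (LF a b) (LF_per a b)
    (fun p hp => LF_rho a b p hp (hadm p hp)) hadm α hα hαL
  have hτL : C * α ^ (-(1 + ε)) ≤ Real.log N := by
    have t1 := hN₂ N ((le_max_right _ _).trans ((le_max_left _ _).trans hN))
    simp only [Function.comp] at t1
    have t2 : α ^ (-(1 + ε)) ≤ Real.log N ^ (1 - ε ^ 2) := by
      calc α ^ (-(1 + ε)) ≤ (Real.log N ^ (-(1 - ε))) ^ (-(1 + ε)) :=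
          Real.rpow_le_rpow_of_nonpos (by positivity) hαL (by linarith)
        _ = Real.log N ^ (1 - ε ^ 2) := by
          rw [← Real.rpow_mul hL.le]
          congr 1
          ring
    calc C * α ^ (-(1 + ε)) ≤ Real.log N ^ (ε ^ 2) * Real.log N ^ (1 - ε ^ 2) := by gcongr
      _ = Real.log N := by
        rw [← Real.rpow_add hL]
        norm_num
  have hhN : h ≤ N := by
    have : (h : ℝ) ≤ N := by
      calc (h : ℝ) ≤ Real.exp (C * α ^ (-(1 + ε))) := h1
        _ ≤ Real.exp (Real.log N) := Real.exp_le_exp.2 hτL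
        _ = N := Real.exp_log (by linarith)
    exact_mod_cast this
  refine ⟨h, h1, hhN, ?_⟩
  intro A hA hcard
  refine (h2 A hA hcard).trans ?_
  apply Nat.cast_le.2
  apply card_le_card
  intro x hx
  rw [mem_filter, mem_product] at hx
  obtain ⟨⟨hx1, hx2⟩, hlt, hx3⟩ := hx
  rw [mem_filter, mem_product]
  refine ⟨⟨hx1, hx2⟩, hlt, ?_⟩
  intro i
  have hxN : x.2 ≤ N := (mem_Icc.1 (hA hx2)).2
  have hr : ∀ p : ℕ, p.Prime → (p : ℤ) ∣ a i * ((x.2 : ℤ) - x.1 + h) + b i → (N : ℝ) ^ κ < p := by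
    intro p hp hd
    by_contra hle
    exact hx3 p hp (not_lt.1 hle) ⟨i, hd⟩
  refine ⟨hr, ?_⟩
  obtain ⟨v, hv⟩ : ∃ v, v = a i * ((x.2 : ℤ) - x.1 + h) + b i := ⟨_, rfl⟩
  rw [← hv] at hr ⊢
  have hv0 : v ≠ 0 := by
    intro h0
    have h4 := hr 2 Nat.prime_two (by rw [h0]; exact dvd_zero _)
    push_cast at h4
    linarith
  have hvN : v.natAbs ≤ N ^ (B + 3) := by
    have h3 : |v| ≤ (N : ℤ) ^ (B + 3) := by
      obtain ⟨ha, hb⟩ := hab i
      have hn0 : (0 : ℤ) ≤ (x.2 : ℤ) - x.1 + h := by omega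
      have hn1 : (x.2 : ℤ) - x.1 + h ≤ 2 * N := by omega
      have hNi : (3 : ℤ) ≤ N := by exact_mod_cast hN3
      have hP : (0 : ℤ) ≤ (N : ℤ) ^ B := by positivity
      calc |v| ≤ |a i * ((x.2 : ℤ) - x.1 + h)| + |b i| := by rw [hv]; exact abs_add_le _ _
        _ = |a i| * ((x.2 : ℤ) - x.1 + h) + |b i| := by rw [abs_mul, abs_of_nonneg hn0]
        _ ≤ (N : ℤ) ^ B * (2 * N) + (N : ℤ) ^ B :=
            add_le_add (mul_le_mul ha hn1 hn0 hP) hb
        _ = (N : ℤ) ^ B * (2 * N + 1) := by ring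
        _ ≤ (N : ℤ) ^ B * (N * N * N) := by
            apply mul_le_mul_of_nonneg_left _ hP
            nlinarith
        _ = (N : ℤ) ^ (B + 3) := by ring
    have h4 : ((v.natAbs : ℕ) : ℤ) ≤ ((N ^ (B + 3) : ℕ) : ℤ) := by
      rw [Int.natCast_natAbs]
      push_cast
      exact h3
    exact_mod_cast h4
  have h3 := omega_le κ hκ N (B + 3) v.natAbs (by omega) (by rwa [ne_eq, Int.natAbs_eq_zero]) hvN
    (fun p hp hd => hr p hp (Int.natCast_dvd.2 hd))
  exact Nat.cast_le.1 (h3.trans (Nat.le_ceil _))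

/-- the arithmetic factor of the singular series of pairs: `𝔖(d) = 2 C₂ · GS d` for even `d` -/
noncomputable def GS (d : ℕ) : ℝ :=
  ∏ p ∈ d.primeFactors.filter (fun p => 3 ≤ p), ((p : ℝ) - 1) / ((p : ℝ) - 2)

lemma GS_nonneg (d : ℕ) : 0 ≤ GS d := by
  unfold GS
  apply prod_nonneg
  intro p hp
  have h5 : (3 : ℝ) ≤ p := by exact_mod_cast (mem_filter.1 hp).2
  apply div_nonneg <;> linarith

/-- the reference sieve condition -/
def Ref (p : ℕ) (n : ℤ) : Prop := 4 < p ∧ ((p : ℤ) ∣ n + 1 ∨ (p : ℤ) ∣ n + 2)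

open Classical in
lemma one_res (p : ℕ) (c : ℤ) :
    ((range p).filter (fun r : ℕ => (p : ℤ) ∣ (r : ℤ) + c)).card ≤ 1 := by
  rw [card_le_one]
  intro x hx y hy
  rw [mem_filter, mem_range] at hx hy
  have h3 : (p : ℤ) ∣ (x : ℤ) - y := by
    have := dvd_sub hx.2 hy.2
    have e : (x : ℤ) + c - (y + c) = (x : ℤ) - y := by ring
    rwa [e] at this
  have h4 := Int.eq_zero_of_abs_lt_dvd h3 (by
    rw [abs_lt]
    constructor <;> omega)
  omega

open Classical in
/-- Mertens' theorem in dimension two -/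
lemma mertens_two : ∃ c : ℝ, 0 < c ∧ ∀ N : ℕ, 3 ≤ N →
    c / Real.log N ^ 2 ≤ ∏ p ∈ (Ioc 4 N).filter Nat.Prime, (1 - 2 / (p : ℝ)) := by
  obtain ⟨c, hc, h⟩ := VP_ge 2 4 (by norm_num)
  refine ⟨c, hc, ?_⟩
  intro N hN
  have hρ : ∀ p : ℕ, p.Prime → rho Ref p ≤ 2 := by
    intro p hp
    have h1 : (range p).filter (fun r : ℕ => Ref p r) ⊆
        (range p).filter (fun r : ℕ => (p : ℤ) ∣ (r : ℤ) + 1) ∪
        (range p).filter (fun r : ℕ => (p : ℤ) ∣ (r : ℤ) + 2) := by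
      intro r hr
      rw [mem_union, mem_filter, mem_filter]
      obtain ⟨h2, -, h3 | h3⟩ := mem_filter.1 hr
      · left; exact ⟨h2, h3⟩
      · right; exact ⟨h2, h3⟩
    unfold rho
    refine (card_le_card h1).trans ((card_union_le _ _).trans ?_)
    have := one_res p 1
    have := one_res p 2
    omega
  refine (h Ref hρ (fun p _ hp4 hR => absurd hR.1 (by omega)) N hN).trans ?_
  unfold VP
  have hsub : (Ioc 4 N).filter Nat.Prime ⊆ (range (N + 1)).filter Nat.Prime := by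
    intro p hp
    rw [mem_filter, mem_Ioc] at hp
    rw [mem_filter, mem_range]
    exact ⟨by omega, hp.2⟩
  rw [← prod_sdiff hsub]
  have h3 : ∏ p ∈ (range (N + 1)).filter Nat.Prime \ (Ioc 4 N).filter Nat.Prime,
      (1 - (rho Ref p : ℝ) / p) ≤ 1 := by
    apply prod_le_one
    · intro p hp
      exact fac_nonneg Ref p (mem_filter.1 (mem_sdiff.1 hp).1).2
    · intro p _
      have : (0 : ℝ) ≤ (rho Ref p : ℝ) / p := by positivity
      linarith
  calc _ ≤ 1 * ∏ p ∈ (Ioc 4 N).filter Nat.Prime, (1 - (rho Ref p : ℝ) / p) :=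
        mul_le_mul_of_nonneg_right h3 (prod_nonneg fun p hp => fac_nonneg Ref p (mem_filter.1 hp).2)
    _ = ∏ p ∈ (Ioc 4 N).filter Nat.Prime, (1 - (rho Ref p : ℝ) / p) := one_mul _
    _ ≤ _ := by
        apply prod_le_prod
        · intro p hp
          exact fac_nonneg Ref p (mem_filter.1 hp).2
        · intro p hp
          rw [mem_filter, mem_Ioc] at hp
          have h4 : 2 ≤ rho Ref p := by
            unfold rho
            have h5 : ({p - 1, p - 2} : Finset ℕ) ⊆ (range p).filter (fun r : ℕ => Ref p r) := by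
              intro x hx
              rw [mem_insert, mem_singleton] at hx
              rw [mem_filter, mem_range]
              rcases hx with rfl | rfl
              · refine ⟨by omega, hp.1.1, Or.inl ?_⟩
                have : (((p - 1 : ℕ) : ℤ)) + 1 = p := by omega
                rw [this]
              · refine ⟨by omega, hp.1.1, Or.inr ?_⟩
                have : (((p - 2 : ℕ) : ℤ)) + 2 = p := by omega
                rw [this]
            have h6 : ({p - 1, p - 2} : Finset ℕ).card = 2 := by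
              rw [card_pair]
              omega
            rw [← h6]
            exact card_le_card h5
          have h5 : (2 : ℝ) ≤ rho Ref p := by exact_mod_cast h4
          have h6 : (2 : ℝ) / p ≤ (rho Ref p : ℝ) / p := by gcongr
          linarith

open Classical in
/-- the sifting product and the singular series of pairs -/
lemma PV_pair (B : ℕ) : ∃ c : ℝ, 0 < c ∧ ∀ N d : ℕ, 3 ≤ N → 0 < d → d ≤ N ^ B → ∀ T : ℕ → ℤ → Prop,
    (∀ p : ℕ, p.Prime → rho T p ≤ 2) → (∀ p : ℕ, p.Prime → 4 < p → p ∣ d → rho T p ≤ 1) →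
    c * GS d / Real.log N ^ 2 ≤ PV T (2 * 2) N := by
  obtain ⟨c, hc, hM⟩ := mertens_two
  refine ⟨c / 2 ^ (B + 1), by positivity, ?_⟩
  intro N d hN hd hdN T hT2 hT1
  have hL : 0 < Real.log N := Real.log_pos (by exact_mod_cast (by omega : 1 < N))
  -- the primes of the product
  obtain ⟨P, hP⟩ : ∃ P, P = (Ioc 4 N).filter Nat.Prime := ⟨_, rfl⟩
  have hPp : ∀ p ∈ P, p.Prime ∧ 4 < p ∧ p ≤ N := by
    intro p hp
    rw [hP, mem_filter, mem_Ioc] at hp
    exact ⟨hp.2, hp.1.1, hp.1.2⟩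
  have h1 : (∏ p ∈ P, (1 - 2 / (p : ℝ))) * ∏ p ∈ P.filter (fun p => p ∣ d), (((p : ℝ) - 1) / ((p : ℝ) - 2)) ≤
      PV T (2 * 2) N := by
    rw [prod_filter, ← prod_mul_distrib]
    unfold PV
    have e22 : 2 * 2 = 4 := rfl
    rw [e22, ← hP]
    apply prod_le_prod
    · intro p hp
      obtain ⟨-, h4, -⟩ := hPp p hp
      have h5 : (4 : ℝ) < p := by exact_mod_cast h4
      have h6 : (0 : ℝ) ≤ 1 - 2 / p := by
        rw [sub_nonneg, div_le_one (by linarith)]
        linarith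
      apply mul_nonneg h6
      split_ifs
      · apply div_nonneg <;> linarith
      · norm_num
    · intro p hp
      obtain ⟨hpp, h4, -⟩ := hPp p hp
      have h5 : (4 : ℝ) < p := by exact_mod_cast h4
      split_ifs with h
      · have h7 : (rho T p : ℝ) ≤ 1 := by exact_mod_cast hT1 p hpp h4 h
        have h8 : (1 - 2 / (p : ℝ)) * (((p : ℝ) - 1) / ((p : ℝ) - 2)) = 1 - 1 / p := by
          have : (p : ℝ) - 2 ≠ 0 := by linarith
          have : (p : ℝ) ≠ 0 := by linarith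
          field_simp
        rw [h8]
        have h9 : (rho T p : ℝ) / p ≤ 1 / p := by gcongr
        linarith
      · have h7 : (rho T p : ℝ) ≤ 2 := by exact_mod_cast hT2 p hpp
        have h9 : (rho T p : ℝ) / p ≤ 2 / p := by gcongr
        linarith
  -- the singular series
  have h2 : GS d ≤ 2 ^ (B + 1) * ∏ p ∈ P.filter (fun p => p ∣ d), (((p : ℝ) - 1) / ((p : ℝ) - 2)) := by
    unfold GS
    obtain ⟨D, hD⟩ : ∃ D, D = d.primeFactors.filter (fun p => 3 ≤ p) := ⟨_, rfl⟩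
    rw [← hD]
    have hDp : ∀ p ∈ D, p.Prime ∧ p ∣ d ∧ 3 ≤ p := by
      intro p hp
      rw [hD, mem_filter] at hp
      exact ⟨Nat.prime_of_mem_primeFactors hp.1, Nat.dvd_of_mem_primeFactors hp.1, hp.2⟩
    have hsub : P.filter (fun p => p ∣ d) ⊆ D := by
      intro p hp
      rw [mem_filter] at hp
      obtain ⟨hpp, h4, -⟩ := hPp p hp.1
      rw [hD, mem_filter]
      exact ⟨Nat.mem_primeFactors.2 ⟨hpp, hp.2, hd.ne'⟩, by omega⟩
    have hpos : ∀ p ∈ D, 0 ≤ ((p : ℝ) - 1) / ((p : ℝ) - 2) ∧ ((p : ℝ) - 1) / ((p : ℝ) - 2) ≤ 2 := by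
      intro p hp
      obtain ⟨-, -, h3⟩ := hDp p hp
      have h5 : (3 : ℝ) ≤ p := by exact_mod_cast h3
      constructor
      · apply div_nonneg <;> linarith
      · rw [div_le_iff₀ (by linarith)]
        linarith
    rw [← prod_sdiff hsub]
    apply mul_le_mul_of_nonneg_right
    · calc ∏ p ∈ D \ P.filter (fun p => p ∣ d), (((p : ℝ) - 1) / ((p : ℝ) - 2))
          ≤ ∏ _p ∈ D \ P.filter (fun p => p ∣ d), (2 : ℝ) :=
            prod_le_prod (fun p hp => (hpos p (mem_sdiff.1 hp).1).1) fun p hp => (hpos p (mem_sdiff.1 hp).1).2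
        _ = 2 ^ (D \ P.filter (fun p => p ∣ d)).card := by rw [prod_const]
        _ ≤ 2 ^ (B + 1) := by
            apply pow_le_pow_right₀ (by norm_num)
            -- the prime `3` and the primes above `N`
            have h3 : D \ P.filter (fun p => p ∣ d) ⊆ insert 3 (D.filter (fun p => N < p)) := by
              intro p hp
              rw [mem_sdiff, mem_filter] at hp
              obtain ⟨h4, h5⟩ := hp
              obtain ⟨h6, h7, h8⟩ := hDp p h4
              rw [mem_insert, mem_filter]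
              by_cases h9 : p = 3
              · left; exact h9
              · right
                refine ⟨h4, ?_⟩
                by_contra h10
                apply h5
                refine ⟨?_, h7⟩
                rw [hP, mem_filter, mem_Ioc]
                refine ⟨⟨?_, by omega⟩, h6⟩
                by_contra h11
                have : p = 4 := by omega
                rw [this] at h6
                exact absurd h6 (by norm_num)
            refine (card_le_card h3).trans ((card_insert_le _ _).trans (Nat.add_le_add_right ?_ 1))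
            obtain ⟨F, hF⟩ : ∃ F, F = D.filter (fun p => N < p) := ⟨_, rfl⟩
            rw [← hF]
            have h12 : N ^ F.card ≤ d := by
              calc N ^ F.card = ∏ _p ∈ F, N := by rw [prod_const]
                _ ≤ ∏ p ∈ F, p := by
                    apply prod_le_prod'
                    intro p hp
                    rw [hF, mem_filter] at hp
                    exact hp.2.le
                _ ≤ d := by
                    apply Nat.le_of_dvd hd
                    apply Finset.prod_primes_dvd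
                    · intro p hp
                      rw [hF, mem_filter] at hp
                      exact (hDp p hp.1).1.prime
                    · intro p hp
                      rw [hF, mem_filter] at hp
                      exact (hDp p hp.1).2.1
            exact (Nat.pow_le_pow_iff_right (by omega : 1 < N)).1 (h12.trans hdN)
    · apply prod_nonneg
      intro p hp
      exact (hpos p (hsub hp)).1
  have h3 := hM N hN
  rw [← hP] at h3
  refine le_trans ?_ h1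
  have hprod0 : 0 ≤ ∏ p ∈ P.filter (fun p => p ∣ d), (((p : ℝ) - 1) / ((p : ℝ) - 2)) := by
    apply prod_nonneg
    intro p hp
    have h5 : (4 : ℝ) < p := by exact_mod_cast (hPp p (mem_filter.1 hp).1).2.1
    apply div_nonneg <;> linarith
  calc c / 2 ^ (B + 1) * GS d / Real.log N ^ 2
      ≤ c / 2 ^ (B + 1) * (2 ^ (B + 1) * ∏ p ∈ P.filter (fun p => p ∣ d), (((p : ℝ) - 1) / ((p : ℝ) - 2))) /
          Real.log N ^ 2 := by gcongr
    _ = c / Real.log N ^ 2 * ∏ p ∈ P.filter (fun p => p ∣ d), (((p : ℝ) - 1) / ((p : ℝ) - 2)) := by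
        field_simp
    _ ≤ _ := mul_le_mul_of_nonneg_right h3 hprod0

open Classical in
/-- the pairs of linear forms `u + n`, `v - n` -/
theorem sum_pair : ∃ κ : ℝ, 0 < κ ∧ ∀ B : ℕ, ∃ r : ℕ, ∀ ε : ℝ, 0 < ε → ∃ (C : ℝ) (N₀ : ℕ), 0 < C ∧
    ∀ N : ℕ, N₀ ≤ N → ∀ α : ℝ, 0 < α → α ≤ 1 → Real.log N ^ (-(1 - ε)) ≤ α →
    ∀ u v : ℕ, 0 < u → u + v ≤ N ^ B → ∀ d : ℕ, 0 < d → 2 * d = u + v →
    ∃ h : ℕ, (h : ℝ) ≤ Real.exp (C * α ^ (-(1 + ε))) ∧ h ≤ N ∧ ∀ A : Finset ℕ, A ⊆ Icc 1 N → α * N ≤ A.card →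
      Real.exp (-(C * α ^ (-(1 + ε)))) * (GS d * N ^ 2 / Real.log N ^ 2) ≤
        (((A ×ˢ A).filter (fun x => x.1 < x.2 ∧
          AP ((N : ℝ) ^ κ) r ((u : ℤ) + ((x.2 : ℤ) - x.1 + h)) ∧
          AP ((N : ℝ) ^ κ) r ((v : ℤ) - ((x.2 : ℤ) - x.1 + h)))).card : ℝ) := by
  obtain ⟨κ, hκ, hS⟩ := sys_shift 2
  refine ⟨κ, hκ, ?_⟩
  intro B
  obtain ⟨r, hr⟩ := hS B
  obtain ⟨c, hc, hPV⟩ := PV_pair B
  refine ⟨r, ?_⟩
  intro ε hε
  obtain ⟨C, N₁, hC, hN₁⟩ := hr ε hε
  obtain ⟨C₀, hC₀⟩ : ∃ C₀ : ℝ, C₀ = max 0 (Real.log (1 / c)) := ⟨_, rfl⟩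
  have hC₀0 : 0 ≤ C₀ := by rw [hC₀]; exact le_max_left _ _
  have hC₀1 : Real.exp (-C₀) ≤ c := by
    have h1 : Real.log (1 / c) ≤ C₀ := by rw [hC₀]; exact le_max_right _ _
    calc Real.exp (-C₀) ≤ Real.exp (-Real.log (1 / c)) := Real.exp_le_exp.2 (by linarith)
      _ = c := by
          rw [Real.exp_neg, Real.exp_log (by positivity), one_div, inv_inv]
  refine ⟨C + C₀, max N₁ 3, by linarith, ?_⟩
  intro N hN α hα hα1 hαL u v hu huv d hd hduv
  have hN3 : 3 ≤ N := (le_max_right _ _).trans hN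
  have hNr : (3 : ℝ) ≤ N := by exact_mod_cast hN3
  have hL : 0 < Real.log N := Real.log_pos (by linarith)
  obtain ⟨τ, hτ⟩ : ∃ τ, τ = α ^ (-(1 + ε)) := ⟨_, rfl⟩
  have hτ1 : 1 ≤ τ := by
    rw [hτ]
    exact Real.one_le_rpow_of_pos_of_le_one_of_nonpos hα hα1 (by linarith)
  obtain ⟨a, ha⟩ : ∃ a : Fin 2 → ℤ, a = ![1, -1] := ⟨_, rfl⟩
  obtain ⟨b, hb⟩ : ∃ b : Fin 2 → ℤ, b = ![(u : ℤ), (v : ℤ)] := ⟨_, rfl⟩
  have hLF : ∀ (p : ℕ) (n : ℤ), LF a b p n ↔ ((p : ℤ) ∣ n + u ∨ (p : ℤ) ∣ -n + v) := by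
    intro p n
    unfold LF
    rw [ha, hb]
    simp [Fin.exists_fin_two]
  have hpow : (1 : ℤ) ≤ (N : ℤ) ^ B := one_le_pow₀ (by exact_mod_cast (by omega : 1 ≤ N))
  have huvi : (u : ℤ) + v ≤ (N : ℤ) ^ B := by exact_mod_cast huv
  have hbd : ∀ i, |a i| ≤ (N : ℤ) ^ B ∧ |b i| ≤ (N : ℤ) ^ B := by
    rw [ha, hb]
    intro i
    fin_cases i
    · simp only [Fin.zero_eta, Fin.isValue, Matrix.cons_val_zero, abs_one, Nat.abs_cast]
      exact ⟨hpow, by omega⟩
    · simp only [Fin.mk_one, Fin.isValue, Matrix.cons_val_one, Matrix.cons_val_fin_one, abs_neg, abs_one,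
        Nat.abs_cast]
      exact ⟨hpow, by omega⟩
  have hadm : ∀ p : ℕ, p.Prime → ∃ n : ℤ, ¬ LF a b p n := by
    intro p hp
    by_cases hp2 : p = 2
    · subst hp2
      refine ⟨1 + u, ?_⟩
      rw [hLF]
      push Not
      constructor
      · intro h
        omega
      · intro h
        omega
    · have hp3 : 3 ≤ p := by
        have := hp.two_le
        omega
      by_contra hcon
      push Not at hcon
      have h0 := (hLF p _).1 (hcon 0)
      have h1 := (hLF p _).1 (hcon 1)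
      have h2 := (hLF p _).1 (hcon 2)
      have key : ∀ m : ℤ, (p : ℤ) ∣ m → m ≠ 0 → |m| < 3 → False := by
        intro m hm hm0 hm3
        have := Int.le_of_dvd (abs_pos.2 hm0) ((dvd_abs _ _).2 hm)
        omega
      have k1 : ¬ (p : ℤ) ∣ 1 := fun h => key 1 h (by norm_num) (by norm_num)
      have k2 : ¬ (p : ℤ) ∣ 2 := fun h => key 2 h (by norm_num) (by norm_num)
      rcases h0 with h0 | h0 <;> rcases h1 with h1 | h1 <;> rcases h2 with h2 | h2
      · apply k1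
        have := dvd_sub h1 h0
        have e : (1 : ℤ) + u - (0 + u) = 1 := by ring
        rwa [e] at this
      · apply k1
        have := dvd_sub h1 h0
        have e : (1 : ℤ) + u - (0 + u) = 1 := by ring
        rwa [e] at this
      · apply k2
        have := dvd_sub h2 h0
        have e : (2 : ℤ) + u - (0 + u) = 2 := by ring
        rwa [e] at this
      · apply k1
        have := dvd_sub h1 h2
        have e : (-1 : ℤ) + v - (-2 + v) = 1 := by ring
        rwa [e] at this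
      · apply k1
        have := dvd_sub h2 h1
        have e : (2 : ℤ) + u - (1 + u) = 1 := by ring
        rwa [e] at this
      · apply k2
        have := dvd_sub h0 h2
        have e : (-0 : ℤ) + v - (-2 + v) = 2 := by ring
        rwa [e] at this
      · apply k1
        have := dvd_sub h0 h1
        have e : (-0 : ℤ) + v - (-1 + v) = 1 := by ring
        rwa [e] at this
      · apply k1
        have := dvd_sub h0 h1
        have e : (-0 : ℤ) + v - (-1 + v) = 1 := by ring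
        rwa [e] at this
  obtain ⟨h, h1, h2, h3⟩ := hN₁ N ((le_max_left _ _).trans hN) a b hbd hadm α hα hα1 hαL
  rw [← hτ] at h1 h3 ⊢
  have hCτ : C * τ ≤ (C + C₀) * τ := by
    have := mul_nonneg hC₀0 (by linarith : (0 : ℝ) ≤ τ)
    linarith
  refine ⟨h, h1.trans (Real.exp_le_exp.2 hCτ), h2, ?_⟩
  intro A hA hcard
  have h4 := h3 A hA hcard
  have hdN : d ≤ N ^ B := by omega
  have hone : ∀ p : ℕ, p.Prime → 4 < p → p ∣ d → rho (LF a b) p ≤ 1 := by
    intro p hp hp4 hpd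
    unfold rho
    refine le_trans (card_le_card ?_) (one_res p u)
    intro x hx
    rw [mem_filter] at hx ⊢
    refine ⟨hx.1, ?_⟩
    rcases (hLF p x).1 hx.2 with h5 | h5
    · exact h5
    · have h6 : (p : ℤ) ∣ (u : ℤ) + v := by
        have : (p : ℤ) ∣ ((2 * d : ℕ) : ℤ) := by exact_mod_cast hpd.mul_left 2
        rw [hduv] at this
        exact_mod_cast this
      have := dvd_sub h6 h5
      have e : (u : ℤ) + v - (-(x : ℤ) + v) = x + u := by ring
      rwa [e] at this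
  have hPV' := hPV N d hN3 hd hdN (LF a b) (fun p hp => LF_rho a b p hp (hadm p hp)) hone
  have hG0 := GS_nonneg d
  have hlow : Real.exp (-((C + C₀) * τ)) * (GS d * N ^ 2 / Real.log N ^ 2) ≤
      Real.exp (-(C * τ)) * N ^ 2 * PV (LF a b) (2 * 2) N := by
    have h1 : Real.exp (-((C + C₀) * τ)) ≤ Real.exp (-(C * τ)) * c := by
      calc Real.exp (-((C + C₀) * τ)) = Real.exp (-(C * τ)) * Real.exp (-(C₀ * τ)) := by
            rw [← Real.exp_add]
            congr 1
            ring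
        _ ≤ Real.exp (-(C * τ)) * c := by
            apply mul_le_mul_of_nonneg_left _ (Real.exp_pos _).le
            refine le_trans (Real.exp_le_exp.2 ?_) hC₀1
            have := mul_le_mul_of_nonneg_left hτ1 hC₀0
            linarith
    calc Real.exp (-((C + C₀) * τ)) * (GS d * N ^ 2 / Real.log N ^ 2)
        ≤ (Real.exp (-(C * τ)) * c) * (GS d * N ^ 2 / Real.log N ^ 2) := by gcongr
      _ = Real.exp (-(C * τ)) * N ^ 2 * (c * GS d / Real.log N ^ 2) := by ring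
      _ ≤ Real.exp (-(C * τ)) * N ^ 2 * PV (LF a b) (2 * 2) N := by gcongr
  refine hlow.trans (h4.trans ?_)
  apply Nat.cast_le.2
  apply card_le_card
  intro x hx
  rw [mem_filter] at hx ⊢
  refine ⟨hx.1, hx.2.1, ?_, ?_⟩
  · have h5 := hx.2.2 0
    rw [ha, hb] at h5
    simp only [Fin.isValue, Matrix.cons_val_zero, one_mul] at h5
    rwa [add_comm (u : ℤ)]
  · have h5 := hx.2.2 1
    rw [ha, hb] at h5
    simp only [Fin.isValue, Matrix.cons_val_one, Matrix.cons_val_fin_one] at h5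
    have e : (v : ℤ) - ((x.2 : ℤ) - x.1 + h) = -1 * ((x.2 : ℤ) - x.1 + h) + v := by ring
    rwa [e]

end Pool.Agent.H14.SK
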