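import Pool.Agent.H14.SK.Shift

/-!
# The size of the sifting product (helper14)
-/

set_option autoImplicit false

namespace Pool.Agent.H14.SK

open Finset
open Pool.Agent.H14.MS (VP VP_ge fac_nonneg)

/-- the conditions at the primes above `u` -/
def Tr (T : ℕ → ℤ → Prop) (u : ℕ) (p : ℕ) (n : ℤ) : Prop := u < p ∧ T p n

open Classical in
lemma rho_Tr (T : ℕ → ℤ → Prop) (u p : ℕ) (hp : u < p) : rho (Tr T u) p = rho T p := by
  unfold rho
  congr 1
  ext x
  rw [mem_filter, mem_filter]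
  unfold Tr
  constructor
  · rintro ⟨h1, _, h2⟩
    exact ⟨h1, h2⟩
  · rintro ⟨h1, h2⟩
    exact ⟨h1, hp, h2⟩

open Classical in
lemma rho_Tr' (T : ℕ → ℤ → Prop) (u p : ℕ) (hp : ¬ u < p) : rho (Tr T u) p = 0 := by
  unfold rho
  rw [card_eq_zero, filter_eq_empty_iff]
  intro x _ h
  exact hp h.1

open Classical in
/-- Mertens -/
lemma PV_ge_log (g : ℕ) : ∃ c : ℝ, 0 < c ∧ ∀ T : ℕ → ℤ → Prop, (∀ p : ℕ, p.Prime → rho T p ≤ g) →
    ∀ N : ℕ, 3 ≤ N → c / Real.log N ^ g ≤ PV T (2 * g) N := by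
  obtain ⟨c, hc, h⟩ := VP_ge g (2 * g) le_rfl
  refine ⟨c, hc, ?_⟩
  intro T hT N hN
  have h1 := h (Tr T (2 * g)) (by
    intro p hp
    by_cases h2 : 2 * g < p
    · rw [rho_Tr T _ p h2]; exact hT p hp
    · rw [rho_Tr' T _ p h2]; exact Nat.zero_le _) (fun p _ hp4 hR => absurd hR.1 (by omega)) N hN
  refine h1.trans (le_of_eq ?_)
  unfold VP PV
  have hsub : (Ioc (2 * g) N).filter Nat.Prime ⊆ (range (N + 1)).filter Nat.Prime := by
    intro p hp
    rw [mem_filter, mem_Ioc] at hp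
    rw [mem_filter, mem_range]
    exact ⟨by omega, hp.2⟩
  rw [← prod_subset hsub]
  · apply prod_congr rfl
    intro p hp
    rw [mem_filter, mem_Ioc] at hp
    rw [rho_Tr T _ p hp.1.1]
  · intro p hp hp'
    rw [mem_filter, mem_range] at hp
    rw [mem_filter, mem_Ioc] at hp'
    rw [rho_Tr' T _ p (fun h2 => hp' ⟨⟨h2, by omega⟩, hp.2⟩)]
    simp

open Classical in
lemma full_le_PV (T : ℕ → ℤ → Prop) (u N : ℕ) :
    ∏ p ∈ (range (N + 1)).filter Nat.Prime, (1 - (rho T p : ℝ) / p) ≤ PV T u N := by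
  unfold PV
  have hsub : (Ioc u N).filter Nat.Prime ⊆ (range (N + 1)).filter Nat.Prime := by
    intro p hp
    rw [mem_filter, mem_Ioc] at hp
    rw [mem_filter, mem_range]
    exact ⟨by omega, hp.2⟩
  rw [← prod_sdiff hsub]
  have h3 : ∏ p ∈ (range (N + 1)).filter Nat.Prime \ (Ioc u N).filter Nat.Prime,
      (1 - (rho T p : ℝ) / p) ≤ 1 := by
    apply prod_le_one
    · intro p hp
      exact fac_nonneg T p (mem_filter.1 (mem_sdiff.1 hp).1).2
    · intro p _
      have : (0 : ℝ) ≤ (rho T p : ℝ) / p := by positivity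
      linarith
  calc _ ≤ 1 * ∏ p ∈ (Ioc u N).filter Nat.Prime, (1 - (rho T p : ℝ) / p) :=
        mul_le_mul_of_nonneg_right h3 (prod_nonneg fun p hp => fac_nonneg T p (mem_filter.1 hp).2)
    _ = _ := one_mul _

end Pool.Agent.H14.SK
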