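import Pool.Agent.H14.SK.Pairs
import Pool.Graph.R_seed8.Helper256.KM.Mertens

/-!
# The blocks of primes and the count of the pairs with sifted difference (helper14)
-/

set_option autoImplicit false

namespace Pool.Agent.H14.SK

open Finset

/-- iterated integer square roots -/
def yy (z : ℕ) : ℕ → ℕ
  | 0 => z
  | j + 1 => Nat.sqrt (yy z j)

/-- the blocks of primes -/
def PB (w z j : ℕ) : Finset ℕ := (Ioc (max w (yy z (j + 1))) (yy z j)).filter Nat.Prime

lemma yy_succ_le (z j : ℕ) : yy z (j + 1) ≤ yy z j := Nat.sqrt_le_self _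

lemma yy_anti (z : ℕ) {i j : ℕ} (h : i ≤ j) : yy z j ≤ yy z i := by
  induction j, h using Nat.le_induction with
  | base => exact le_rfl
  | succ j _ ih => exact (yy_succ_le z j).trans ih

lemma yy_small (z : ℕ) : ∀ j, yy z j ≤ 1 ∨ yy z j + j ≤ z := by
  intro j
  induction j with
  | zero => right; simp [yy]
  | succ j ih =>
    have h1 := yy_succ_le z j
    rcases ih with h | h
    · left
      omega
    · by_cases h2 : yy z (j + 1) ≤ 1
      · left; exact h2
      · right
        have h3 : yy z (j + 1) < yy z j := by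
          show Nat.sqrt (yy z j) < yy z j
          apply Nat.sqrt_lt_self
          by_contra h4
          have h5 : yy z j ≤ 1 := by omega
          omega
        omega

lemma yy_self (z : ℕ) : yy z z ≤ 1 := by
  rcases yy_small z z with h | h <;> omega

lemma yy_pow (z : ℕ) (j : ℕ) : yy z j ^ 2 ^ j ≤ z := by
  induction j with
  | zero => simp [yy]
  | succ j ih =>
    calc yy z (j + 1) ^ 2 ^ (j + 1) = (yy z (j + 1) ^ 2) ^ 2 ^ j := by
          rw [← pow_mul]
          congr 1
          ring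
      _ ≤ yy z j ^ 2 ^ j := Nat.pow_le_pow_left (Nat.sqrt_le' _) _
      _ ≤ z := ih

lemma PB_disj (w z : ℕ) : ∀ i j, i ≠ j → Disjoint (PB w z i) (PB w z j) := by
  have key : ∀ i j, i < j → Disjoint (PB w z i) (PB w z j) := by
    intro i j hij
    rw [Finset.disjoint_left]
    intro p hp hp'
    unfold PB at hp hp'
    rw [mem_filter, mem_Ioc] at hp hp'
    have h1 := yy_anti z (show i + 1 ≤ j by omega)
    omega
  intro i j hij
  rcases lt_or_gt_of_ne hij with h | h
  · exact key i j h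
  · exact (key j i h).symm

lemma PB_cover (w z : ℕ) : PP (PB w z) z = (Ioc w z).filter Nat.Prime := by
  ext p
  unfold PP
  rw [mem_biUnion, mem_filter, mem_Ioc]
  constructor
  · rintro ⟨j, _, hp⟩
    unfold PB at hp
    rw [mem_filter, mem_Ioc] at hp
    have h1 : yy z j ≤ yy z 0 := yy_anti z (Nat.zero_le j)
    have h2 : yy z 0 = z := rfl
    exact ⟨⟨by omega, by omega⟩, hp.2⟩
  · rintro ⟨⟨h1, h2⟩, h3⟩
    have hex : ∃ j, yy z (j + 1) < p := by
      refine ⟨z, ?_⟩
      have h4 := yy_self z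
      have h5 := yy_succ_le z z
      have := h3.two_le
      omega
    classical
    refine ⟨Nat.find hex, ?_, ?_⟩
    · rw [mem_range]
      by_contra hcon
      push Not at hcon
      have h5 : z ≥ 1 := by
        have := h3.two_le
        omega
      have h6 := Nat.find_min hex (m := z - 1) (by omega)
      apply h6
      rw [Nat.sub_add_cancel h5]
      have h4 := yy_self z
      have := h3.two_le
      omega
    · unfold PB
      rw [mem_filter, mem_Ioc]
      refine ⟨⟨max_lt h1 (Nat.find_spec hex), ?_⟩, h3⟩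
      rcases Nat.eq_zero_or_pos (Nat.find hex) with h | h
      · rw [h]
        exact h2
      · have h6 := Nat.find_min hex (m := Nat.find hex - 1) (by omega)
        rw [Nat.sub_add_cancel h] at h6
        omega

/-- the sums of the reciprocals over the blocks -/
lemma block_sum : ∃ C : ℝ, 0 ≤ C ∧ ∀ w z j : ℕ, 3 ≤ w → ∑ p ∈ PB w z j, 1 / (p : ℝ) ≤ C := by
  obtain ⟨C1, h1⟩ := Pool.Agent.Helper256.KM.mertens_inv
  have hC1 : 0 ≤ C1 := (abs_nonneg _).trans (h1 3 le_rfl)
  refine ⟨Real.log 3 + 2 * C1, by have := Real.log_nonneg (show (1 : ℝ) ≤ 3 by norm_num); linarith, ?_⟩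
  intro w z j hw
  obtain ⟨a, ha⟩ : ∃ a, a = max w (yy z (j + 1)) := ⟨_, rfl⟩
  obtain ⟨c, hc⟩ : ∃ c, c = yy z j := ⟨_, rfl⟩
  have ha3 : 3 ≤ a := by rw [ha]; exact hw.trans (le_max_left _ _)
  have hPB : PB w z j = (Ioc a c).filter Nat.Prime := by
    unfold PB
    rw [ha, hc]
  rw [hPB]
  rcases le_or_gt c a with hca | hca
  · rw [Ioc_eq_empty (by omega), filter_empty, sum_empty]
    have := Real.log_nonneg (show (1 : ℝ) ≤ 3 by norm_num)
    linarith
  have hca3 : c ≤ a ^ 3 := by
    have h2 : c < (yy z (j + 1) + 1) * (yy z (j + 1) + 1) := by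
      rw [hc]
      exact Nat.lt_succ_sqrt _
    have h3 : yy z (j + 1) ≤ a := by rw [ha]; exact le_max_right _ _
    have h4 : (yy z (j + 1) + 1) * (yy z (j + 1) + 1) ≤ (a + 1) * (a + 1) :=
      Nat.mul_le_mul (by omega) (by omega)
    have h5 : (a + 1) * (a + 1) ≤ a ^ 3 := by
      have : a ^ 3 = a * a * a := by ring
      nlinarith
    omega
  have hsplit : ∑ p ∈ (Icc 1 c).filter Nat.Prime, (1 : ℝ) / p =
      ∑ p ∈ (Icc 1 a).filter Nat.Prime, (1 : ℝ) / p + ∑ p ∈ (Ioc a c).filter Nat.Prime, 1 / (p : ℝ) := by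
    rw [← sum_union]
    · congr 1
      rw [← filter_union]
      congr 1
      ext p
      simp only [mem_union, mem_Icc, mem_Ioc]
      omega
    · apply disjoint_filter_filter
      rw [Finset.disjoint_left]
      intro p hp hp'
      rw [mem_Icc] at hp
      rw [mem_Ioc] at hp'
      omega
  have e1 := (abs_le.1 (h1 c (by omega))).2
  have e2 := (abs_le.1 (h1 a ha3)).1
  have hla : 0 < Real.log a := Real.log_pos (by exact_mod_cast (by omega : 1 < a))
  have hlc : 0 < Real.log c := Real.log_pos (by exact_mod_cast (by omega : 1 < c))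
  have h6 : Real.log c ≤ 3 * Real.log a := by
    rw [← Real.log_rpow (by positivity)]
    apply Real.log_le_log (by exact_mod_cast (by omega : 0 < c))
    have : (c : ℝ) ≤ (a : ℝ) ^ 3 := by exact_mod_cast hca3
    calc (c : ℝ) ≤ (a : ℝ) ^ 3 := this
      _ = (a : ℝ) ^ (3 : ℝ) := by
          rw [← Real.rpow_natCast]
          norm_num
  have h7 : Real.log (Real.log c) ≤ Real.log 3 + Real.log (Real.log a) := by
    rw [← Real.log_mul (by norm_num) hla.ne']
    exact Real.log_le_log hlc h6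
  linarith

/-- the exponents of the blocks -/
lemma sum_exp (B t : ℕ) : ∑ j ∈ range t, (2 * (B : ℝ) + 2 * j + 1) / 2 ^ j =
    4 * B + 6 - (4 * B + 4 * t + 6) / 2 ^ t := by
  induction t with
  | zero => simp
  | succ t ih =>
    rw [sum_range_succ, ih]
    push_cast
    rw [pow_succ]
    field_simp
    ring

lemma level (w z B t : ℕ) (hz : 1 ≤ z) (q : Finset ℕ) (hq : q ⊆ PP (PB w z) t)
    (hc : ∀ j < t, (q ∩ PB w z j).card ≤ 2 * (B + j) + 1) : Pr q ≤ z ^ (4 * B + 6) := by
  have hzr : (1 : ℝ) ≤ z := by exact_mod_cast hz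
  have h1 : Pr q = ∏ j ∈ range t, Pr (q ∩ PB w z j) := by
    unfold Pr
    have h2 : q = (range t).biUnion (fun j => q ∩ PB w z j) := by
      rw [← inter_biUnion]
      exact (inter_eq_left.2 hq).symm
    conv_lhs => rw [h2]
    rw [prod_biUnion]
    intro i _ j _ hij
    exact disjoint_of_subset_left inter_subset_right
      (disjoint_of_subset_right inter_subset_right (PB_disj w z i j hij))
  have h3 : ∀ j ∈ range t, ((Pr (q ∩ PB w z j) : ℕ) : ℝ) ≤
      (z : ℝ) ^ ((2 * (B : ℝ) + 2 * j + 1) / 2 ^ j) := by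
    intro j hj
    rw [mem_range] at hj
    have hyj : (yy z j : ℝ) ≤ (z : ℝ) ^ (1 / (2 : ℝ) ^ j) := by
      have h4 : (yy z j : ℝ) ^ (2 ^ j : ℕ) ≤ z := by exact_mod_cast yy_pow z j
      calc (yy z j : ℝ) = ((yy z j : ℝ) ^ (2 ^ j : ℕ)) ^ (1 / (2 : ℝ) ^ j) := by
            rw [← Real.rpow_natCast, ← Real.rpow_mul (by positivity)]
            push_cast
            rw [mul_one_div_cancel (by positivity), Real.rpow_one]
        _ ≤ _ := Real.rpow_le_rpow (by positivity) h4 (by positivity)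
    have hz1 : (1 : ℝ) ≤ (z : ℝ) ^ (1 / (2 : ℝ) ^ j) := Real.one_le_rpow hzr (by positivity)
    unfold Pr
    push_cast
    calc ∏ p ∈ q ∩ PB w z j, (p : ℝ) ≤ ∏ p ∈ q ∩ PB w z j, (z : ℝ) ^ (1 / (2 : ℝ) ^ j) := by
          apply prod_le_prod
          · intro p _
            positivity
          · intro p hp
            have h5 := (mem_inter.1 hp).2
            unfold PB at h5
            rw [mem_filter, mem_Ioc] at h5
            have h6 : (p : ℝ) ≤ yy z j := by exact_mod_cast h5.1.2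
            exact h6.trans hyj
      _ = ((z : ℝ) ^ (1 / (2 : ℝ) ^ j)) ^ (q ∩ PB w z j).card := by rw [prod_const]
      _ ≤ ((z : ℝ) ^ (1 / (2 : ℝ) ^ j)) ^ (2 * (B + j) + 1) := pow_le_pow_right₀ hz1 (hc j hj)
      _ = _ := by
          rw [← Real.rpow_natCast, ← Real.rpow_mul (by positivity)]
          congr 1
          push_cast
          ring
  have h4 : ((Pr q : ℕ) : ℝ) ≤ (z : ℝ) ^ (4 * (B : ℝ) + 6) := by
    rw [h1]
    push_cast
    calc ∏ j ∈ range t, ((Pr (q ∩ PB w z j) : ℕ) : ℝ) ≤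
          ∏ j ∈ range t, (z : ℝ) ^ ((2 * (B : ℝ) + 2 * j + 1) / 2 ^ j) :=
          prod_le_prod (fun _ _ => by positivity) h3
      _ = (z : ℝ) ^ (∑ j ∈ range t, (2 * (B : ℝ) + 2 * j + 1) / 2 ^ j) := by
          rw [← Real.rpow_sum_of_pos (by linarith)]
      _ ≤ _ := by
          apply Real.rpow_le_rpow_of_exponent_le hzr
          rw [sum_exp]
          have : (0 : ℝ) ≤ (4 * B + 4 * t + 6) / 2 ^ t := by positivity
          linarith
  have h5 : ((Pr q : ℕ) : ℝ) ≤ ((z ^ (4 * B + 6) : ℕ) : ℝ) := by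
    refine h4.trans (le_of_eq ?_)
    push_cast
    rw [← Real.rpow_natCast]
    congr 1
    push_cast
    ring
  exact_mod_cast h5

/-- the sifting condition -/
def Sft (T : ℕ → ℤ → Prop) (w z : ℕ) (n : ℤ) : Prop := ∀ p : ℕ, p.Prime → w < p → p ≤ z → ¬ T p n

open Classical in
/-- **The pairs with sifted difference.** -/
theorem pairs_main (g : ℕ) : ∃ (B : ℕ) (C : ℝ), 0 < C ∧ ∀ (T : ℕ → ℤ → Prop) [∀ p n, Decidable (T p n)],
    (∀ p : ℕ, ∀ n m : ℤ, (p : ℤ) ∣ n - m → (T p n ↔ T p m)) → (∀ p : ℕ, p.Prime → rho T p ≤ g) →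
    ∀ (w z M : ℕ) (A : Finset ℕ) (σ : ℝ), 3 ≤ w → 2 * g ≤ w → 1 ≤ z → A ⊆ Icc 1 M →
      4 * (z ^ (4 * B + 6)) ^ 2 ≤ M → 1 / 2 ≤ σ → σ ≤ 1 → C ≤ (w : ℝ) ^ (1 - σ) →
      252 * M * (w : ℝ) ^ (-σ) ≤ A.card →
      (1 / 2 * ∏ p ∈ (Ioc w z).filter Nat.Prime, (1 - (rho T p : ℝ) / p)) *
        (A.card * (A.card - 252 * M * (w : ℝ) ^ (-σ))) ≤
      (((A ×ˢ A).filter (fun a => Sft T w z ((a.2 : ℤ) - a.1))).card : ℝ) := by
  obtain ⟨C0, hC0, hblock⟩ := block_sum
  obtain ⟨S, hS⟩ : ∃ S : ℝ, S = g * C0 := ⟨_, rfl⟩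
  have hS0 : 0 ≤ S := by rw [hS]; positivity
  obtain ⟨v, hv⟩ : ∃ v : ℝ, v = Real.exp (-(2 * S)) := ⟨_, rfl⟩
  have hv0 : 0 < v := by rw [hv]; positivity
  obtain ⟨B, hB⟩ : ∃ B : ℕ, 2 * (1 / 2 : ℝ) ^ (2 * B) * Real.exp (2 * S) ≤ v := by
    obtain ⟨B, hB⟩ := exists_pow_lt_of_lt_one (show 0 < v / (2 * Real.exp (2 * S)) by positivity)
      (show (1 / 2 : ℝ) < 1 by norm_num)
    refine ⟨B, ?_⟩
    have h1 : (1 / 2 : ℝ) ^ (2 * B) ≤ (1 / 2 : ℝ) ^ B :=
      pow_le_pow_of_le_one (by norm_num) (by norm_num) (by omega)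
    have h2 := h1.trans hB.le
    rw [le_div_iff₀ (by positivity)] at h2
    linarith
  obtain ⟨C, hC⟩ : ∃ C : ℝ, C = 2 * Real.exp (3 * S) := ⟨_, rfl⟩
  have hC1 : 1 ≤ C := by
    rw [hC]
    have := Real.one_le_exp (show 0 ≤ 3 * S by positivity)
    linarith
  refine ⟨B, C * (g + 1), by positivity, ?_⟩
  intro T _ hT hg w z M A σ hw hgw hz hA hM hσ hσ1 hCw hcard
  set u : ℕ → ℝ := fun p => (rho T p : ℝ) / p with hu
  have hprime : ∀ p ∈ PP (PB w z) z, p.Prime := by
    intro p hp
    rw [PB_cover, mem_filter] at hp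
    exact hp.2
  have hwp : ∀ p ∈ PP (PB w z) z, w < p := by
    intro p hp
    rw [PB_cover, mem_filter, mem_Ioc] at hp
    exact hp.1.1
  have hu0 : ∀ p, 0 ≤ u p := fun p => by simp only [hu]; positivity
  have hug : ∀ p : ℕ, p.Prime → u p ≤ g * (1 / (p : ℝ)) := by
    intro p hp
    simp only [hu]
    rw [mul_one_div]
    apply div_le_div_of_nonneg_right _ (by positivity)
    exact_mod_cast hg p hp
  have hug2 : ∀ p : ℕ, p.Prime → w < p → u p ≤ 1 / 2 := by
    intro p hp hpw
    refine (hug p hp).trans ?_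
    have hp0 : (0 : ℝ) < p := by exact_mod_cast hp.pos
    rw [mul_one_div, div_le_iff₀ hp0]
    have h1 : (2 * g : ℝ) ≤ p := by exact_mod_cast (by omega : 2 * g ≤ p)
    linarith
  have hmem : ∀ j < z, ∀ p ∈ PB w z j, p ∈ PP (PB w z) z := fun j hj p hp =>
    mem_biUnion.2 ⟨j, mem_range.2 hj, hp⟩
  have hsumS : ∀ j < z, ∑ p ∈ PB w z j, u p ≤ S := by
    intro j hj
    calc ∑ p ∈ PB w z j, u p ≤ ∑ p ∈ PB w z j, g * (1 / (p : ℝ)) :=
          sum_le_sum fun p hp => hug p (hprime p (hmem j hj p hp))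
      _ = g * ∑ p ∈ PB w z j, 1 / (p : ℝ) := by rw [mul_sum]
      _ ≤ S := by
          rw [hS]
          exact mul_le_mul_of_nonneg_left (hblock w z j hw) (by positivity)
  have hexp : ∀ x : ℝ, 0 ≤ x → x ≤ 1 / 2 → Real.exp (-(2 * x)) ≤ 1 - x := by
    intro x hx0 hx1
    have h1 : Real.exp (-(2 * x)) * Real.exp (2 * x) = 1 := by
      rw [← Real.exp_add, neg_add_cancel, Real.exp_zero]
    have h2 := Real.add_one_le_exp (2 * x)
    have h3 : 0 < Real.exp (-(2 * x)) := Real.exp_pos _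
    have h4 : Real.exp (-(2 * x)) * (2 * x + 1) ≤ 1 := by
      calc _ ≤ Real.exp (-(2 * x)) * Real.exp (2 * x) := mul_le_mul_of_nonneg_left h2 h3.le
        _ = 1 := h1
    have h5 : 1 ≤ (1 - x) * (2 * x + 1) := by nlinarith
    by_contra hcon
    push Not at hcon
    have h6 : (1 - x) * (2 * x + 1) < Real.exp (-(2 * x)) * (2 * x + 1) :=
      mul_lt_mul_of_pos_right hcon (by linarith)
    linarith
  have hbd := bounds (P := PB w z) (b := fun j => 2 * (B + j)) (PB_disj w z) (fun j => even_two_mul _) u z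
    (fun p _ => hu0 p) (fun p hp => (hug2 p (hprime p hp) (hwp p hp)).trans (by norm_num)) S v C
    hsumS hv0 (by
      intro j hj
      calc v ≤ Real.exp (∑ p ∈ PB w z j, (-(2 * u p))) := by
            rw [hv]
            apply Real.exp_le_exp.2
            rw [sum_neg_distrib, ← mul_sum]
            have := hsumS j hj
            linarith
        _ = ∏ p ∈ PB w z j, Real.exp (-(2 * u p)) := Real.exp_sum _ _
        _ ≤ ∏ p ∈ PB w z j, (1 - u p) := by
            apply prod_le_prod (fun _ _ => (Real.exp_pos _).le)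
            intro p hp
            have hp' := hmem j hj p hp
            exact hexp _ (hu0 p) (hug2 p (hprime p hp') (hwp p hp')))
    hC1 (by
      rw [hv, hC]
      have : Real.exp (-(2 * S)) * (2 * Real.exp (3 * S)) = 2 * (Real.exp (-(2 * S)) * Real.exp (3 * S)) := by
        ring
      rw [this, ← Real.exp_add]
      apply le_of_eq
      congr 2
      ring)
    (fun j => (1 / 2) ^ (j + 2)) (by
      intro j hj
      refine (ES_le _ _ u fun p _ => hu0 p).trans ?_
      have h1 : Real.exp (2 * ∑ p ∈ PB w z j, u p) ≤ Real.exp (2 * S) := by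
        apply Real.exp_le_exp.2
        have := hsumS j hj
        linarith
      have h2 : ((1 : ℝ) / 2) ^ (2 * (B + j) + 1) = (1 / 2) ^ (2 * B) * (1 / 2) ^ (2 * j + 1) := by
        rw [← pow_add]
        congr 1
        ring
      have h3 : ((1 : ℝ) / 2) ^ (2 * j + 1) ≤ 2 * (1 / 2) ^ (j + 2) := by
        have h4 : ((1 : ℝ) / 2) ^ (2 * j + 1) ≤ (1 / 2) ^ (j + 1) :=
          pow_le_pow_of_le_one (by norm_num) (by norm_num) (by omega)
        have h5 : (2 : ℝ) * (1 / 2) ^ (j + 2) = (1 / 2) ^ (j + 1) := by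
          rw [pow_succ (1 / 2 : ℝ) (j + 1)]
          ring
        rw [h5]
        exact h4
      calc ((1 : ℝ) / 2) ^ (2 * (B + j) + 1) * Real.exp (2 * ∑ p ∈ PB w z j, u p)
          ≤ ((1 / 2) ^ (2 * B) * (2 * (1 / 2) ^ (j + 2))) * Real.exp (2 * S) := by
            rw [h2]
            apply mul_le_mul _ h1 (Real.exp_pos _).le (by positivity)
            exact mul_le_mul_of_nonneg_left h3 (by positivity)
        _ = (2 * (1 / 2 : ℝ) ^ (2 * B) * Real.exp (2 * S)) * (1 / 2) ^ (j + 2) := by ring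
        _ ≤ v * (1 / 2) ^ (j + 2) := mul_le_mul_of_nonneg_right hB (by positivity))
    (fun j => by positivity)
  obtain ⟨⟨b1, b2⟩, _, b4, b5⟩ := hbd
  have he : ∑ j ∈ range z, ((1 : ℝ) / 2) ^ (j + 2) ≤ 1 / 2 := by
    have h1 : ∑ j ∈ range z, ((1 : ℝ) / 2) ^ (j + 2) = 1 / 4 * ∑ j ∈ range z, (1 / 2) ^ j := by
      rw [mul_sum]
      apply sum_congr rfl
      intro j _
      rw [pow_add]
      ring
    have h2 : ∑ j ∈ range z, ((1 : ℝ) / 2) ^ j ≤ 2 := by
      have := (summable_geometric_of_lt_one (show (0 : ℝ) ≤ 1 / 2 by norm_num)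
        (by norm_num)).sum_le_tsum (range z) (fun i _ => by positivity)
      rw [tsum_geometric_of_lt_one (by norm_num) (by norm_num)] at this
      norm_num at this ⊢
      exact this
    rw [h1]
    linarith
  obtain ⟨K, hK⟩ : ∃ K, K = gK (PB w z) (fun j => 2 * (B + j)) u z ∅ := ⟨_, rfl⟩
  rw [← hK] at b1 b2 b4 b5
  have hmain := pairs_lower (PB w z) (fun j => 2 * (B + j)) z (PB_disj w z) hprime T hT (K / 2) C
    (by positivity) (by linarith)
    (by
      refine le_trans ?_ b4
      have : 0 ≤ K := b2.le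
      nlinarith)
    (by
      intro q hq
      refine (b5 q hq).trans ?_
      have h1 : 0 ≤ K * C ^ q.card := by positivity
      calc K * C ^ q.card * (1 + ∑ j ∈ range z, ((1 : ℝ) / 2) ^ (j + 2)) ≤ K * C ^ q.card * (3 / 2) :=
            mul_le_mul_of_nonneg_left (by linarith) h1
        _ = _ := by ring)
    A M (z ^ (4 * B + 6)) w hA hM (by omega)
    (fun q hq hne => level w z B z hz q hq (gL_support u z q hne))
    (fun p hp => (hwp p hp).le) σ hσ hσ1 (by
      intro p hp
      have hpp := hprime p hp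
      have hp0 : (0 : ℝ) < p := by exact_mod_cast hpp.pos
      have h1 : (w : ℝ) ^ (1 - σ) ≤ (p : ℝ) ^ (1 - σ) :=
        Real.rpow_le_rpow (by positivity) (by exact_mod_cast (hwp p hp).le) (by linarith)
      calc C * ((rho T p : ℝ) / p) ≤ C * (g * (1 / (p : ℝ))) :=
            mul_le_mul_of_nonneg_left (hug p hpp) (by linarith)
        _ ≤ (C * (g + 1)) * (1 / (p : ℝ)) := by
            have : 0 ≤ C * (1 / (p : ℝ)) := by positivity
            nlinarith
        _ ≤ (p : ℝ) ^ (1 - σ) * (1 / (p : ℝ)) :=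
            mul_le_mul_of_nonneg_right (hCw.trans h1) (by positivity)
        _ = (p : ℝ) ^ (-σ) := by
            rw [Real.rpow_sub hp0, Real.rpow_one, Real.rpow_neg hp0.le]
            field_simp)
  have hle : ∑ x ∈ A, ∑ y ∈ A, LL (PB w z) (fun j => 2 * (B + j))
      (fun p => if T p ((y : ℤ) - x) then 1 else 0) z ≤
      (((A ×ˢ A).filter (fun a => Sft T w z ((a.2 : ℤ) - a.1))).card : ℝ) := by
    rw [card_filter, Nat.cast_sum, sum_product]
    apply sum_le_sum
    intro x _
    apply sum_le_sum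
    intro y _
    have h1 := (LL_le (P := PB w z) (b := fun j => 2 * (B + j)) (fun j => even_two_mul _)
      (fun p => if T p ((y : ℤ) - x) then 1 else 0) z (fun p _ => by
        by_cases h : T p ((y : ℤ) - x)
        · right; simp [h]
        · left; simp [h])).1
    refine h1.trans ?_
    by_cases h : Sft T w z ((y : ℤ) - x)
    · rw [if_pos h, Nat.cast_one]
      apply prod_le_one
      · intro j _
        apply prod_nonneg
        intro p _
        split_ifs <;> norm_num
      · intro j _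
        apply prod_le_one
        · intro p _
          split_ifs <;> norm_num
        · intro p _
          split_ifs <;> norm_num
    · rw [if_neg h, Nat.cast_zero]
      unfold Sft at h
      push Not at h
      obtain ⟨p, hp, hp1, hp2, hp3⟩ := h
      have h2 : p ∈ PP (PB w z) z := by
        rw [PB_cover, mem_filter, mem_Ioc]
        exact ⟨⟨hp1, hp2⟩, hp⟩
      obtain ⟨j, hj, hpj⟩ := mem_biUnion.1 h2
      apply le_of_eq
      apply prod_eq_zero hj
      apply prod_eq_zero hpj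
      simp [hp3]
  refine le_trans ?_ (hmain.trans hle)
  have hprod : ∏ p ∈ (Ioc w z).filter Nat.Prime, (1 - (rho T p : ℝ) / p) ≤ K := by
    refine le_trans (le_of_eq ?_) b1
    rw [← PB_cover]
    unfold PP
    rw [prod_biUnion]
    intro i _ j _ hij
    exact PB_disj w z i j hij
  have h8 : 0 ≤ (A.card : ℝ) * (A.card - 252 * M * (w : ℝ) ^ (-σ)) :=
    mul_nonneg (Nat.cast_nonneg _) (by linarith)
  nlinarith [mul_le_mul_of_nonneg_right hprod h8]

end Pool.Agent.H14.SK
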