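import Pool.Agent.H14.SK.Sieve

/-!
# Pairs from two sets with sifted differences (helper14)
-/

set_option autoImplicit false
set_option linter.unusedSectionVars false
set_option linter.deprecated false

namespace Pool.Agent.H14.SK

open Finset
open Pool.Agent.Helper112 (ee ls_ee_zero ls_ee_add ls_ee_int)

lemma pair_ee2 (A₁ A₂ : Finset ℕ) (θ : ℝ) (m : ℤ) :
    ∑ x ∈ A₁, ∑ y ∈ A₂, ee (((y : ℤ) - x - m : ℤ) * θ) =
      ee (-(m * θ)) * ((∑ y ∈ A₂, ee (y * θ)) * (starRingEnd ℂ) (∑ x ∈ A₁, ee (x * θ))) := by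
  rw [map_sum, sum_mul_sum, mul_sum, sum_comm]
  apply sum_congr rfl
  intro y _
  rw [mul_sum]
  apply sum_congr rfl
  intro x _
  rw [Pool.Agent.Helper112.ls_conj_ee, ← ls_ee_add, ← ls_ee_add]
  congr 1
  push_cast
  ring

lemma ram_pairs2 (A₁ A₂ : Finset ℕ) (q : Finset ℕ) (m : ℤ) :
    ‖∑ x ∈ A₁, ∑ y ∈ A₂, ram q ((y : ℤ) - x - m)‖ ≤ (EE A₁ q + EE A₂ q) / 2 := by
  have h1 : ∑ x ∈ A₁, ∑ y ∈ A₂, ram q ((y : ℤ) - x - m) =
      ∑ b ∈ (range (Pr q)).filter (fun b => b.Coprime (Pr q)),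
        ∑ x ∈ A₁, ∑ y ∈ A₂, ee ((((y : ℤ) - x - m : ℤ) : ℝ) * (b / (Pr q : ℕ))) := by
    unfold ram
    rw [sum_congr rfl fun x _ => sum_comm, sum_comm]
    apply sum_congr rfl
    intro b _
    apply sum_congr rfl
    intro x _
    apply sum_congr rfl
    intro y _
    congr 1
    ring
  rw [h1]
  unfold EE
  rw [← sum_add_distrib, sum_div]
  refine (norm_sum_le _ _).trans ?_
  apply sum_le_sum
  intro b _
  rw [pair_ee2, norm_mul, norm_ee, one_mul, norm_mul, RCLike.norm_conj]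
  have e1 : ∀ A : Finset ℕ, ∑ x ∈ A, ee ((x : ℝ) * (b / (Pr q : ℕ))) = ∑ x ∈ A, ee ((x : ℝ) * b / (Pr q : ℕ)) := by
    intro A
    apply sum_congr rfl
    intro x _
    congr 1
    ring
  rw [e1, e1]
  nlinarith [sq_nonneg (‖∑ x ∈ A₂, ee ((x : ℝ) * b / (Pr q : ℕ))‖ - ‖∑ x ∈ A₁, ee ((x : ℝ) * b / (Pr q : ℕ))‖)]

/-- the balanced functions are controlled by the exponential sums -/
lemma balanced2 (T : ℕ → ℤ → Prop) [∀ p n, Decidable (T p n)]
    (hT : ∀ p : ℕ, ∀ n m : ℤ, (p : ℤ) ∣ n - m → (T p n ↔ T p m)) (A₁ A₂ : Finset ℕ) {q : Finset ℕ}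
    (hq : ∀ p ∈ q, p.Prime) :
    |∑ x ∈ A₁, ∑ y ∈ A₂, ∏ p ∈ q, ((if T p ((y : ℤ) - x) then (1 : ℝ) else 0) - (rho T p : ℝ) / p)| ≤
      (∏ p ∈ q, (rho T p : ℝ) / p) * ((EE A₁ q + EE A₂ q) / 2) := by
  classical
  -- the pointwise formula
  have key : ∀ n : ℤ, ∏ p ∈ q, ((if T p n then (1 : ℂ) else 0) - (rho T p : ℂ) / p) =
      (1 / (Pr q : ℂ)) * ∑ ν ∈ q.pi (fun p => (range p).filter (fun r : ℕ => T p r)),
        ∏ p ∈ q.attach, ((if ((p : ℕ) : ℤ) ∣ n - (ν p.1 p.2 : ℤ) then ((p : ℕ) : ℂ) else 0) - 1) := by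
    intro n
    have h1 : ∀ p ∈ q, ((if T p n then (1 : ℂ) else 0) - (rho T p : ℂ) / p) =
        (1 / (p : ℂ)) * ∑ r ∈ (range p).filter (fun r : ℕ => T p r),
          ((if (p : ℤ) ∣ n - (r : ℤ) then (p : ℂ) else 0) - 1) := by
      intro p hp
      have hp0 : (p : ℂ) ≠ 0 := by exact_mod_cast (hq p hp).pos.ne'
      have hpp : 0 < p := (hq p hp).pos
      rw [sum_sub_distrib, sum_const, nsmul_eq_mul, mul_one]
      have h2 : ∑ r ∈ (range p).filter (fun r : ℕ => T p r), (if (p : ℤ) ∣ n - (r : ℤ) then (p : ℂ) else 0)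
          = if T p n then (p : ℂ) else 0 := by
        obtain ⟨r0, hr0⟩ : ∃ r0 : ℕ, (r0 : ℤ) = n % p := by
          refine ⟨(n % p).toNat, ?_⟩
          rw [Int.toNat_of_nonneg (Int.emod_nonneg _ (by exact_mod_cast hpp.ne'))]
        have hr1 : r0 < p := by
          have : (r0 : ℤ) < p := by
            rw [hr0]
            exact Int.emod_lt_of_pos _ (by exact_mod_cast hpp)
          exact_mod_cast this
        have hr2 : (p : ℤ) ∣ n - r0 := by
          rw [hr0]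
          exact Int.dvd_self_sub_emod
        have hr3 : ∀ r : ℕ, r < p → (p : ℤ) ∣ n - (r : ℤ) → r = r0 := by
          intro r hr h
          have h3 : (p : ℤ) ∣ (r : ℤ) - r0 := by
            have := dvd_sub hr2 h
            have e : n - (r0 : ℤ) - (n - r) = (r : ℤ) - r0 := by ring
            rwa [e] at this
          have h4 := Int.eq_zero_of_abs_lt_dvd h3 (by
            rw [abs_lt]
            constructor <;> omega)
          omega
        by_cases hTn : T p n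
        · rw [if_pos hTn, sum_eq_single r0]
          · rw [if_pos hr2]
          · intro r hr hne
            rw [mem_filter, mem_range] at hr
            rw [if_neg]
            intro h
            exact hne (hr3 r hr.1 h)
          · intro h
            exfalso
            apply h
            rw [mem_filter, mem_range]
            exact ⟨hr1, (hT p n r0 hr2).1 hTn⟩
        · rw [if_neg hTn]
          apply sum_eq_zero
          intro r hr
          rw [mem_filter, mem_range] at hr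
          rw [if_neg]
          intro h
          exact hTn ((hT p n r h).2 hr.2)
      rw [h2]
      unfold rho
      split_ifs
      · field_simp
      · field_simp
        ring
    rw [prod_congr rfl h1, prod_mul_distrib, Finset.prod_sum]
    congr 1
    unfold Pr
    rw [prod_div_distrib, prod_const_one]
    push_cast
    rfl
  -- the bound for one system of residues
  have hone : ∀ ν ∈ q.pi (fun p => (range p).filter (fun r : ℕ => T p r)),
      ‖∑ x ∈ A₁, ∑ y ∈ A₂, ∏ p ∈ q.attach,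
        ((if ((p : ℕ) : ℤ) ∣ ((y : ℤ) - x) - (ν p.1 p.2 : ℤ) then ((p : ℕ) : ℂ) else 0) - 1)‖ ≤ ((EE A₁ q + EE A₂ q) / 2) := by
    intro ν _
    -- a common integer
    obtain ⟨m, hm⟩ : ∃ m : ℤ, ∀ p : ℕ, ∀ hp : p ∈ q, (p : ℤ) ∣ m - (ν p hp : ℤ) := by
      have hco : (q : Set ℕ).Pairwise (Function.onFun Nat.Coprime (fun p => p)) := by
        intro a ha b hb hab
        exact (Nat.coprime_primes (hq a ha) (hq b hb)).2 hab
      obtain ⟨k, hk⟩ := Nat.chineseRemainderOfFinset (fun p => if h : p ∈ q then ν p h else 0)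
        (fun p => p) q (fun p hp => (hq p hp).pos.ne') hco
      refine ⟨k, fun p hp => ?_⟩
      have h5 := hk p hp
      rw [dif_pos hp] at h5
      have := (Nat.modEq_iff_dvd.1 h5)
      have e : (k : ℤ) - (ν p hp : ℤ) = -((ν p hp : ℤ) - k) := by ring
      rw [e]
      exact (dvd_neg.2 this)
    have h6 : ∀ x ∈ A₁, ∀ y ∈ A₂, ∏ p ∈ q.attach,
        ((if ((p : ℕ) : ℤ) ∣ ((y : ℤ) - x) - (ν p.1 p.2 : ℤ) then ((p : ℕ) : ℂ) else 0) - 1) =
        ram q ((y : ℤ) - x - m) := by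
      intro x _ y _
      rw [ram_eq hq, ← prod_attach q]
      apply prod_congr rfl
      intro p _
      have h7 : ((p : ℕ) : ℤ) ∣ ((y : ℤ) - x) - (ν p.1 p.2 : ℤ) ↔ ((p : ℕ) : ℤ) ∣ (y : ℤ) - x - m := by
        have h8 := hm p.1 p.2
        constructor
        · intro h
          have := dvd_sub h h8
          have e : (y : ℤ) - x - (ν p.1 p.2 : ℤ) - (m - (ν p.1 p.2 : ℤ)) = (y : ℤ) - x - m := by ring
          rwa [e] at this
        · intro h
          have := dvd_add h h8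
          have e : (y : ℤ) - x - m + (m - (ν p.1 p.2 : ℤ)) = (y : ℤ) - x - (ν p.1 p.2 : ℤ) := by ring
          rwa [e] at this
      simp only [h7]
    rw [sum_congr rfl fun x hx => sum_congr rfl fun y hy => h6 x hx y hy]
    exact ram_pairs2 A₁ A₂ q m
  -- the conclusion
  have hcast : ((∑ x ∈ A₁, ∑ y ∈ A₂, ∏ p ∈ q,
      ((if T p ((y : ℤ) - x) then (1 : ℝ) else 0) - (rho T p : ℝ) / p) : ℝ) : ℂ) =
      (1 / (Pr q : ℂ)) * ∑ ν ∈ q.pi (fun p => (range p).filter (fun r : ℕ => T p r)),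
        ∑ x ∈ A₁, ∑ y ∈ A₂, ∏ p ∈ q.attach,
        ((if ((p : ℕ) : ℤ) ∣ ((y : ℤ) - x) - (ν p.1 p.2 : ℤ) then ((p : ℕ) : ℂ) else 0) - 1) := by
    have e1 : ((∑ x ∈ A₁, ∑ y ∈ A₂, ∏ p ∈ q,
        ((if T p ((y : ℤ) - x) then (1 : ℝ) else 0) - (rho T p : ℝ) / p) : ℝ) : ℂ) =
        ∑ x ∈ A₁, ∑ y ∈ A₂, ∏ p ∈ q,
        ((if T p ((y : ℤ) - x) then (1 : ℂ) else 0) - (rho T p : ℂ) / p) := by
      rw [Complex.ofReal_sum]
      apply sum_congr rfl
      intro x _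
      rw [Complex.ofReal_sum]
      apply sum_congr rfl
      intro y _
      rw [Complex.ofReal_prod]
      apply prod_congr rfl
      intro p _
      split_ifs <;> push_cast <;> rfl
    rw [e1, sum_congr rfl fun (x : ℕ) _ => sum_congr rfl fun (y : ℕ) _ => key ((y : ℤ) - x)]
    rw [sum_congr rfl fun x _ => (mul_sum _ _ _).symm, ← mul_sum]
    congr 1
    rw [sum_congr rfl fun x _ => sum_comm, sum_comm]
  have hPq := Pr_pos hq
  rw [← Real.norm_eq_abs, ← Complex.norm_real, hcast, norm_mul]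
  have h9 : ‖(1 / (Pr q : ℂ))‖ = 1 / (Pr q : ℝ) := by
    rw [norm_div, norm_one, Complex.norm_natCast]
  rw [h9]
  have h10 : (∏ p ∈ q, (rho T p : ℝ) / p) =
      1 / (Pr q : ℝ) * ((q.pi (fun p => (range p).filter (fun r : ℕ => T p r))).card : ℝ) := by
    rw [card_pi, prod_div_distrib]
    unfold Pr rho
    push_cast
    ring
  rw [h10, mul_assoc]
  apply mul_le_mul_of_nonneg_left _ (by positivity)
  refine (norm_sum_le _ _).trans ?_
  rw [← nsmul_eq_mul]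
  exact sum_le_card_nsmul _ _ _ hone

/-- the weighted count of the pairs -/
theorem pairs_lower2 (P : ℕ → Finset ℕ) (b : ℕ → ℕ) (t : ℕ)
    (hP : ∀ i j, i ≠ j → Disjoint (P i) (P j)) (hprime : ∀ p ∈ PP P t, p.Prime)
    (T : ℕ → ℤ → Prop) [∀ p n, Decidable (T p n)]
    (hT : ∀ p : ℕ, ∀ n m : ℤ, (p : ℤ) ∣ n - m → (T p n ↔ T p m))
    (G C : ℝ) (hG : 0 < G) (hC : 0 ≤ C)
    (hG0 : G ≤ gL P b (fun p => (rho T p : ℝ) / p) t ∅)
    (hGq : ∀ q ⊆ PP P t, |gL P b (fun p => (rho T p : ℝ) / p) t q| ≤ 3 * G * C ^ q.card)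
    (A₁ A₂ : Finset ℕ) (M D w : ℕ) (hA₁ : A₁ ⊆ Icc 1 M) (hA₂ : A₂ ⊆ Icc 1 M) (hc : A₂.card = A₁.card) (hD : 4 * D ^ 2 ≤ M) (hw : 1 ≤ w)
    (hlevel : ∀ q ⊆ PP P t, gL P b (fun p => (rho T p : ℝ) / p) t q ≠ 0 → Pr q ≤ D)
    (hwp : ∀ p ∈ PP P t, w ≤ p) (σ : ℝ) (hσ : 1 / 2 ≤ σ) (hσ1 : σ ≤ 1)
    (hCσ : ∀ p ∈ PP P t, C * ((rho T p : ℝ) / p) ≤ (p : ℝ) ^ (-σ)) :
    G * A₁.card * (A₁.card - 252 * M * (w : ℝ) ^ (-σ)) ≤
      ∑ x ∈ A₁, ∑ y ∈ A₂, LL P b (fun p => if T p ((y : ℤ) - x) then 1 else 0) t := by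
  classical
  set u : ℕ → ℝ := fun p => (rho T p : ℝ) / p with hu
  have hu0 : ∀ p, 0 ≤ u p := fun p => by simp only [hu]; positivity
  have h1 : ∑ x ∈ A₁, ∑ y ∈ A₂, LL P b (fun p => if T p ((y : ℤ) - x) then 1 else 0) t =
      ∑ q ∈ (PP P t).powerset, gL P b u t q *
        ∑ x ∈ A₁, ∑ y ∈ A₂, ∏ p ∈ q, ((if T p ((y : ℤ) - x) then (1 : ℝ) else 0) - u p) := by
    have e1 : ∀ x ∈ A₁, ∀ y ∈ A₂, LL P b (fun p => if T p ((y : ℤ) - x) then 1 else 0) t =
        ∑ q ∈ (PP P t).powerset, gL P b u t q *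
          ∏ p ∈ q, ((if T p ((y : ℤ) - x) then (1 : ℝ) else 0) - u p) := fun x _ y _ =>
      LL_expand hP _ u t
    rw [sum_congr rfl fun x hx => sum_congr rfl fun y hy => e1 x hx y hy,
      sum_congr rfl fun x _ => sum_comm, sum_comm]
    apply sum_congr rfl
    intro q _
    rw [mul_sum]
    apply sum_congr rfl
    intro x _
    rw [mul_sum]
  rw [h1, ← add_sum_erase _ _ (empty_mem_powerset (PP P t))]
  have h2 : ∑ x ∈ A₁, ∑ y ∈ A₂, ∏ p ∈ (∅ : Finset ℕ), ((if T p ((y : ℤ) - x) then (1 : ℝ) else 0) - u p) =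
      (A₁.card : ℝ) * A₁.card := by
    simp [hc]
  rw [h2]
  -- the other terms
  obtain ⟨𝒬, h𝒬⟩ : ∃ 𝒬, 𝒬 = ((PP P t).powerset.erase ∅).filter (fun q => gL P b u t q ≠ 0) := ⟨_, rfl⟩
  have hq𝒬 : ∀ q ∈ 𝒬, q.Nonempty ∧ q ⊆ PP P t ∧ gL P b u t q ≠ 0 := by
    intro q hq
    rw [h𝒬, mem_filter, mem_erase, mem_powerset] at hq
    exact ⟨nonempty_iff_ne_empty.2 hq.1.1, hq.1.2, hq.2⟩
  have h3 : |∑ q ∈ (PP P t).powerset.erase ∅, gL P b u t q *
      ∑ x ∈ A₁, ∑ y ∈ A₂, ∏ p ∈ q, ((if T p ((y : ℤ) - x) then (1 : ℝ) else 0) - u p)| ≤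
      3 * G * ∑ q ∈ 𝒬, ((Pr q : ℕ) : ℝ) ^ (-σ) * ((EE A₁ q + EE A₂ q) / 2) := by
    have e2 : ∑ q ∈ (PP P t).powerset.erase ∅, gL P b u t q *
        ∑ x ∈ A₁, ∑ y ∈ A₂, ∏ p ∈ q, ((if T p ((y : ℤ) - x) then (1 : ℝ) else 0) - u p) =
        ∑ q ∈ 𝒬, gL P b u t q *
        ∑ x ∈ A₁, ∑ y ∈ A₂, ∏ p ∈ q, ((if T p ((y : ℤ) - x) then (1 : ℝ) else 0) - u p) := by
      rw [h𝒬, sum_filter_of_ne]
      intro q _ hne
      exact left_ne_zero_of_mul hne
    rw [e2, mul_sum]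
    refine (abs_sum_le_sum_abs _ _).trans (sum_le_sum fun q hq => ?_)
    obtain ⟨_, hq2, _⟩ := hq𝒬 q hq
    have hqp : ∀ p ∈ q, p.Prime := fun p hp => hprime p (hq2 hp)
    rw [abs_mul]
    have e3 := balanced2 T hT A₁ A₂ hqp
    have e4 := hGq q hq2
    have e5 : C ^ q.card * ∏ p ∈ q, u p ≤ ((Pr q : ℕ) : ℝ) ^ (-σ) := by
      rw [← prod_const, ← prod_mul_distrib]
      calc ∏ p ∈ q, C * u p ≤ ∏ p ∈ q, (p : ℝ) ^ (-σ) :=
            prod_le_prod (fun p _ => mul_nonneg hC (hu0 p)) (fun p hp => hCσ p (hq2 hp))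
        _ = (∏ p ∈ q, (p : ℝ)) ^ (-σ) := (Real.finsetProd_rpow q _ (fun p _ => by positivity) _)
        _ = _ := by
            unfold Pr
            push_cast
            rfl
    have hprod0 : 0 ≤ ∏ p ∈ q, u p := prod_nonneg fun p _ => hu0 p
    calc |gL P b u t q| * |∑ x ∈ A₁, ∑ y ∈ A₂, ∏ p ∈ q,
          ((if T p ((y : ℤ) - x) then (1 : ℝ) else 0) - u p)|
        ≤ (3 * G * C ^ q.card) * ((∏ p ∈ q, u p) * ((EE A₁ q + EE A₂ q) / 2)) :=
          mul_le_mul e4 e3 (abs_nonneg _) (by positivity)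
      _ = 3 * G * ((C ^ q.card * ∏ p ∈ q, u p) * ((EE A₁ q + EE A₂ q) / 2)) := by ring
      _ ≤ 3 * G * (((Pr q : ℕ) : ℝ) ^ (-σ) * ((EE A₁ q + EE A₂ q) / 2)) := by
          apply mul_le_mul_of_nonneg_left _ (by positivity)
          exact mul_le_mul_of_nonneg_right e5 (by have h01 := EE_nonneg A₁ q; have h02 := EE_nonneg A₂ q; linarith)
  have hdy : ∀ A : Finset ℕ, A ⊆ Icc 1 M → ∑ q ∈ 𝒬, ((Pr q : ℕ) : ℝ) ^ (-σ) * EE A q ≤
      84 * M * A.card * (w : ℝ) ^ (-σ) := fun A hA =>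
    dyadic A M D w hA hD hw σ hσ hσ1 𝒬 (fun q hq p hp => hprime p ((hq𝒬 q hq).2.1 hp))
    (fun q hq => hlevel q (hq𝒬 q hq).2.1 (hq𝒬 q hq).2.2) (by
      intro q hq
      obtain ⟨⟨p, hp⟩, hq2, _⟩ := hq𝒬 q hq
      refine (hwp p (hq2 hp)).trans ?_
      exact Nat.le_of_dvd (Pr_pos fun p hp => hprime p (hq2 hp)) (dvd_prod_of_mem (fun p => p) hp))
  have h4 : ∑ q ∈ 𝒬, ((Pr q : ℕ) : ℝ) ^ (-σ) * ((EE A₁ q + EE A₂ q) / 2) ≤
      84 * M * A₁.card * (w : ℝ) ^ (-σ) := by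
    have e1 : ∑ q ∈ 𝒬, ((Pr q : ℕ) : ℝ) ^ (-σ) * ((EE A₁ q + EE A₂ q) / 2) =
        (∑ q ∈ 𝒬, ((Pr q : ℕ) : ℝ) ^ (-σ) * EE A₁ q + ∑ q ∈ 𝒬, ((Pr q : ℕ) : ℝ) ^ (-σ) * EE A₂ q) / 2 := by
      rw [← sum_add_distrib, sum_div]
      apply sum_congr rfl
      intro q _
      ring
    rw [e1]
    have e2 := hdy A₁ hA₁
    have e3 := hdy A₂ hA₂
    rw [hc] at e3
    linarith
  have h5 : 3 * G * ∑ q ∈ 𝒬, ((Pr q : ℕ) : ℝ) ^ (-σ) * ((EE A₁ q + EE A₂ q) / 2) ≤
      3 * G * (84 * M * A₁.card * (w : ℝ) ^ (-σ)) := mul_le_mul_of_nonneg_left h4 (by positivity)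
  have h6 := (abs_le.1 (h3.trans h5)).1
  have h7 : G * ((A₁.card : ℝ) * A₁.card) ≤ gL P b u t ∅ * ((A₁.card : ℝ) * A₁.card) :=
    mul_le_mul_of_nonneg_right hG0 (by positivity)
  nlinarith


open Classical in
/-- **The pairs with sifted difference.** -/
theorem pairs_main2 (g : ℕ) : ∃ (B : ℕ) (C : ℝ), 0 < C ∧ ∀ (T : ℕ → ℤ → Prop) [∀ p n, Decidable (T p n)],
    (∀ p : ℕ, ∀ n m : ℤ, (p : ℤ) ∣ n - m → (T p n ↔ T p m)) → (∀ p : ℕ, p.Prime → rho T p ≤ g) →
    ∀ (w z M : ℕ) (A₁ A₂ : Finset ℕ) (σ : ℝ), 3 ≤ w → 2 * g ≤ w → 1 ≤ z → A₁ ⊆ Icc 1 M → A₂ ⊆ Icc 1 M →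
      A₂.card = A₁.card →
      4 * (z ^ (4 * B + 6)) ^ 2 ≤ M → 1 / 2 ≤ σ → σ ≤ 1 → C ≤ (w : ℝ) ^ (1 - σ) →
      252 * M * (w : ℝ) ^ (-σ) ≤ A₁.card →
      (1 / 2 * ∏ p ∈ (Ioc w z).filter Nat.Prime, (1 - (rho T p : ℝ) / p)) *
        (A₁.card * (A₁.card - 252 * M * (w : ℝ) ^ (-σ))) ≤
      (((A₁ ×ˢ A₂).filter (fun a => Sft T w z ((a.2 : ℤ) - a.1))).card : ℝ) := by
  obtain ⟨C0, hC0, hblock⟩ := block_sum
  obtain ⟨S, hS⟩ : ∃ S : ℝ, S = g * C0 := ⟨_, rfl⟩
  have hS0 : 0 ≤ S := by rw [hS]; positivity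
  obtain ⟨v, hv⟩ : ∃ v : ℝ, v = Real.exp (-(2 * S)) := ⟨_, rfl⟩
  have hv0 : 0 < v := by rw [hv]; positivity
  obtain ⟨B, hB⟩ : ∃ B : ℕ, 2 * (1 / 2 : ℝ) ^ (2 * B) * Real.exp (2 * S) ≤ v := by
    obtain ⟨B, hB⟩ := exists_pow_lt_of_lt_one (show 0 < v / (2 * Real.exp (2 * S)) by positivity)
      (show (1 / 2 : ℝ) < 1 by norm_num)
    refine ⟨B, ?_⟩
    have h1 : (1 / 2 : ℝ) ^ (2 * B) ≤ (1 / 2 : ℝ) ^ B :=
      pow_le_pow_of_le_one (by norm_num) (by norm_num) (by omega)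
    have h2 := h1.trans hB.le
    rw [le_div_iff₀ (by positivity)] at h2
    linarith
  obtain ⟨C, hC⟩ : ∃ C : ℝ, C = 2 * Real.exp (3 * S) := ⟨_, rfl⟩
  have hC1 : 1 ≤ C := by
    rw [hC]
    have := Real.one_le_exp (show 0 ≤ 3 * S by positivity)
    linarith
  refine ⟨B, C * (g + 1), by positivity, ?_⟩
  intro T _ hT hg w z M A₁ A₂ σ hw hgw hz hA₁ hA₂ hc hM hσ hσ1 hCw hcard
  set u : ℕ → ℝ := fun p => (rho T p : ℝ) / p with hu
  have hprime : ∀ p ∈ PP (PB w z) z, p.Prime := by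
    intro p hp
    rw [PB_cover, mem_filter] at hp
    exact hp.2
  have hwp : ∀ p ∈ PP (PB w z) z, w < p := by
    intro p hp
    rw [PB_cover, mem_filter, mem_Ioc] at hp
    exact hp.1.1
  have hu0 : ∀ p, 0 ≤ u p := fun p => by simp only [hu]; positivity
  have hug : ∀ p : ℕ, p.Prime → u p ≤ g * (1 / (p : ℝ)) := by
    intro p hp
    simp only [hu]
    rw [mul_one_div]
    apply div_le_div_of_nonneg_right _ (by positivity)
    exact_mod_cast hg p hp
  have hug2 : ∀ p : ℕ, p.Prime → w < p → u p ≤ 1 / 2 := by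
    intro p hp hpw
    refine (hug p hp).trans ?_
    have hp0 : (0 : ℝ) < p := by exact_mod_cast hp.pos
    rw [mul_one_div, div_le_iff₀ hp0]
    have h1 : (2 * g : ℝ) ≤ p := by exact_mod_cast (by omega : 2 * g ≤ p)
    linarith
  have hmem : ∀ j < z, ∀ p ∈ PB w z j, p ∈ PP (PB w z) z := fun j hj p hp =>
    mem_biUnion.2 ⟨j, mem_range.2 hj, hp⟩
  have hsumS : ∀ j < z, ∑ p ∈ PB w z j, u p ≤ S := by
    intro j hj
    calc ∑ p ∈ PB w z j, u p ≤ ∑ p ∈ PB w z j, g * (1 / (p : ℝ)) :=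
          sum_le_sum fun p hp => hug p (hprime p (hmem j hj p hp))
      _ = g * ∑ p ∈ PB w z j, 1 / (p : ℝ) := by rw [mul_sum]
      _ ≤ S := by
          rw [hS]
          exact mul_le_mul_of_nonneg_left (hblock w z j hw) (by positivity)
  have hexp : ∀ x : ℝ, 0 ≤ x → x ≤ 1 / 2 → Real.exp (-(2 * x)) ≤ 1 - x := by
    intro x hx0 hx1
    have h1 : Real.exp (-(2 * x)) * Real.exp (2 * x) = 1 := by
      rw [← Real.exp_add, neg_add_cancel, Real.exp_zero]
    have h2 := Real.add_one_le_exp (2 * x)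
    have h3 : 0 < Real.exp (-(2 * x)) := Real.exp_pos _
    have h4 : Real.exp (-(2 * x)) * (2 * x + 1) ≤ 1 := by
      calc _ ≤ Real.exp (-(2 * x)) * Real.exp (2 * x) := mul_le_mul_of_nonneg_left h2 h3.le
        _ = 1 := h1
    have h5 : 1 ≤ (1 - x) * (2 * x + 1) := by nlinarith
    by_contra hcon
    push Not at hcon
    have h6 : (1 - x) * (2 * x + 1) < Real.exp (-(2 * x)) * (2 * x + 1) :=
      mul_lt_mul_of_pos_right hcon (by linarith)
    linarith
  have hbd := bounds (P := PB w z) (b := fun j => 2 * (B + j)) (PB_disj w z) (fun j => even_two_mul _) u z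
    (fun p _ => hu0 p) (fun p hp => (hug2 p (hprime p hp) (hwp p hp)).trans (by norm_num)) S v C
    hsumS hv0 (by
      intro j hj
      calc v ≤ Real.exp (∑ p ∈ PB w z j, (-(2 * u p))) := by
            rw [hv]
            apply Real.exp_le_exp.2
            rw [sum_neg_distrib, ← mul_sum]
            have := hsumS j hj
            linarith
        _ = ∏ p ∈ PB w z j, Real.exp (-(2 * u p)) := Real.exp_sum _ _
        _ ≤ ∏ p ∈ PB w z j, (1 - u p) := by
            apply prod_le_prod (fun _ _ => (Real.exp_pos _).le)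
            intro p hp
            have hp' := hmem j hj p hp
            exact hexp _ (hu0 p) (hug2 p (hprime p hp') (hwp p hp')))
    hC1 (by
      rw [hv, hC]
      have : Real.exp (-(2 * S)) * (2 * Real.exp (3 * S)) = 2 * (Real.exp (-(2 * S)) * Real.exp (3 * S)) := by
        ring
      rw [this, ← Real.exp_add]
      apply le_of_eq
      congr 2
      ring)
    (fun j => (1 / 2) ^ (j + 2)) (by
      intro j hj
      refine (ES_le _ _ u fun p _ => hu0 p).trans ?_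
      have h1 : Real.exp (2 * ∑ p ∈ PB w z j, u p) ≤ Real.exp (2 * S) := by
        apply Real.exp_le_exp.2
        have := hsumS j hj
        linarith
      have h2 : ((1 : ℝ) / 2) ^ (2 * (B + j) + 1) = (1 / 2) ^ (2 * B) * (1 / 2) ^ (2 * j + 1) := by
        rw [← pow_add]
        congr 1
        ring
      have h3 : ((1 : ℝ) / 2) ^ (2 * j + 1) ≤ 2 * (1 / 2) ^ (j + 2) := by
        have h4 : ((1 : ℝ) / 2) ^ (2 * j + 1) ≤ (1 / 2) ^ (j + 1) :=
          pow_le_pow_of_le_one (by norm_num) (by norm_num) (by omega)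
        have h5 : (2 : ℝ) * (1 / 2) ^ (j + 2) = (1 / 2) ^ (j + 1) := by
          rw [pow_succ (1 / 2 : ℝ) (j + 1)]
          ring
        rw [h5]
        exact h4
      calc ((1 : ℝ) / 2) ^ (2 * (B + j) + 1) * Real.exp (2 * ∑ p ∈ PB w z j, u p)
          ≤ ((1 / 2) ^ (2 * B) * (2 * (1 / 2) ^ (j + 2))) * Real.exp (2 * S) := by
            rw [h2]
            apply mul_le_mul _ h1 (Real.exp_pos _).le (by positivity)
            exact mul_le_mul_of_nonneg_left h3 (by positivity)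
        _ = (2 * (1 / 2 : ℝ) ^ (2 * B) * Real.exp (2 * S)) * (1 / 2) ^ (j + 2) := by ring
        _ ≤ v * (1 / 2) ^ (j + 2) := mul_le_mul_of_nonneg_right hB (by positivity))
    (fun j => by positivity)
  obtain ⟨⟨b1, b2⟩, _, b4, b5⟩ := hbd
  have he : ∑ j ∈ range z, ((1 : ℝ) / 2) ^ (j + 2) ≤ 1 / 2 := by
    have h1 : ∑ j ∈ range z, ((1 : ℝ) / 2) ^ (j + 2) = 1 / 4 * ∑ j ∈ range z, (1 / 2) ^ j := by
      rw [mul_sum]
      apply sum_congr rfl
      intro j _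
      rw [pow_add]
      ring
    have h2 : ∑ j ∈ range z, ((1 : ℝ) / 2) ^ j ≤ 2 := by
      have := (summable_geometric_of_lt_one (show (0 : ℝ) ≤ 1 / 2 by norm_num)
        (by norm_num)).sum_le_tsum (range z) (fun i _ => by positivity)
      rw [tsum_geometric_of_lt_one (by norm_num) (by norm_num)] at this
      norm_num at this ⊢
      exact this
    rw [h1]
    linarith
  obtain ⟨K, hK⟩ : ∃ K, K = gK (PB w z) (fun j => 2 * (B + j)) u z ∅ := ⟨_, rfl⟩
  rw [← hK] at b1 b2 b4 b5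
  have hmain := pairs_lower2 (PB w z) (fun j => 2 * (B + j)) z (PB_disj w z) hprime T hT (K / 2) C
    (by positivity) (by linarith)
    (by
      refine le_trans ?_ b4
      have : 0 ≤ K := b2.le
      nlinarith)
    (by
      intro q hq
      refine (b5 q hq).trans ?_
      have h1 : 0 ≤ K * C ^ q.card := by positivity
      calc K * C ^ q.card * (1 + ∑ j ∈ range z, ((1 : ℝ) / 2) ^ (j + 2)) ≤ K * C ^ q.card * (3 / 2) :=
            mul_le_mul_of_nonneg_left (by linarith) h1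
        _ = _ := by ring)
    A₁ A₂ M (z ^ (4 * B + 6)) w hA₁ hA₂ hc hM (by omega)
    (fun q hq hne => level w z B z hz q hq (gL_support u z q hne))
    (fun p hp => (hwp p hp).le) σ hσ hσ1 (by
      intro p hp
      have hpp := hprime p hp
      have hp0 : (0 : ℝ) < p := by exact_mod_cast hpp.pos
      have h1 : (w : ℝ) ^ (1 - σ) ≤ (p : ℝ) ^ (1 - σ) :=
        Real.rpow_le_rpow (by positivity) (by exact_mod_cast (hwp p hp).le) (by linarith)
      calc C * ((rho T p : ℝ) / p) ≤ C * (g * (1 / (p : ℝ))) :=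
            mul_le_mul_of_nonneg_left (hug p hpp) (by linarith)
        _ ≤ (C * (g + 1)) * (1 / (p : ℝ)) := by
            have : 0 ≤ C * (1 / (p : ℝ)) := by positivity
            nlinarith
        _ ≤ (p : ℝ) ^ (1 - σ) * (1 / (p : ℝ)) :=
            mul_le_mul_of_nonneg_right (hCw.trans h1) (by positivity)
        _ = (p : ℝ) ^ (-σ) := by
            rw [Real.rpow_sub hp0, Real.rpow_one, Real.rpow_neg hp0.le]
            field_simp)
  have hle : ∑ x ∈ A₁, ∑ y ∈ A₂, LL (PB w z) (fun j => 2 * (B + j))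
      (fun p => if T p ((y : ℤ) - x) then 1 else 0) z ≤
      (((A₁ ×ˢ A₂).filter (fun a => Sft T w z ((a.2 : ℤ) - a.1))).card : ℝ) := by
    rw [card_filter, Nat.cast_sum, sum_product]
    apply sum_le_sum
    intro x _
    apply sum_le_sum
    intro y _
    have h1 := (LL_le (P := PB w z) (b := fun j => 2 * (B + j)) (fun j => even_two_mul _)
      (fun p => if T p ((y : ℤ) - x) then 1 else 0) z (fun p _ => by
        by_cases h : T p ((y : ℤ) - x)
        · right; simp [h]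
        · left; simp [h])).1
    refine h1.trans ?_
    by_cases h : Sft T w z ((y : ℤ) - x)
    · rw [if_pos h, Nat.cast_one]
      apply prod_le_one
      · intro j _
        apply prod_nonneg
        intro p _
        split_ifs <;> norm_num
      · intro j _
        apply prod_le_one
        · intro p _
          split_ifs <;> norm_num
        · intro p _
          split_ifs <;> norm_num
    · rw [if_neg h, Nat.cast_zero]
      unfold Sft at h
      push Not at h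
      obtain ⟨p, hp, hp1, hp2, hp3⟩ := h
      have h2 : p ∈ PP (PB w z) z := by
        rw [PB_cover, mem_filter, mem_Ioc]
        exact ⟨⟨hp1, hp2⟩, hp⟩
      obtain ⟨j, hj, hpj⟩ := mem_biUnion.1 h2
      apply le_of_eq
      apply prod_eq_zero hj
      apply prod_eq_zero hpj
      simp [hp3]
  refine le_trans ?_ (hmain.trans hle)
  have hprod : ∏ p ∈ (Ioc w z).filter Nat.Prime, (1 - (rho T p : ℝ) / p) ≤ K := by
    refine le_trans (le_of_eq ?_) b1
    rw [← PB_cover]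
    unfold PP
    rw [prod_biUnion]
    intro i _ j _ hij
    exact PB_disj w z i j hij
  have h8 : 0 ≤ (A₁.card : ℝ) * (A₁.card - 252 * M * (w : ℝ) ^ (-σ)) :=
    mul_nonneg (Nat.cast_nonneg _) (by linarith)
  nlinarith [mul_le_mul_of_nonneg_right hprod h8]


end Pool.Agent.H14.SK
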